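import Pool.Agent.U160.RF.Exp

/-!
# Random frequencies: two-sided tail bound
-/

set_option autoImplicit false

namespace Pool.Agent.U160.RF

open MeasureTheory ProbabilityTheory Finset

variable {Ω : Type*} [MeasurableSpace Ω] {P : Measure Ω} [IsProbabilityMeasure P]

/-- one-sided bound for variables which are not centred -/
theorem tail1 {ι : Type*} (s : Finset ι) (b : ι → Ω → ℝ) (hb : ∀ i, Measurable (b i)) (hi : iIndepFun b P) (K : ℝ)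
    (hK : ∀ i ω, |b i ω| ≤ K) (Q r : ℝ) (hQ : 0 < Q) (hr : 0 ≤ r) (hE : ∑ i ∈ s, ∫ ω, b i ω ^ 2 ∂P ≤ Q) :
    P {ω | r ≤ ∑ i ∈ s, (b i ω - ∫ ω, b i ω ∂P) ∧ ∑ i ∈ s, b i ω ^ 2 ≤ Q} ≤
      ENNReal.ofReal (Real.exp (-(r ^ 2 / (4 * Q)))) := by
  set X : ι → Ω → ℝ := fun i ω => b i ω - ∫ ω, b i ω ∂P with hXd
  have hint : ∀ i, Integrable (b i) P := fun i =>
    Integrable.of_bound (hb i).aestronglyMeasurable K (Filter.Eventually.of_forall (fun ω => by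
      rw [Real.norm_eq_abs]; exact hK i ω))
  have hint2 : ∀ i, Integrable (fun ω => b i ω ^ 2) P := fun i =>
    Integrable.of_bound ((hb i).pow_const 2).aestronglyMeasurable (K ^ 2) (Filter.Eventually.of_forall (fun ω => by
      rw [Real.norm_eq_abs, abs_pow]
      exact pow_le_pow_left₀ (abs_nonneg _) (hK i ω) 2))
  have hXm : ∀ i, Measurable (X i) := fun i => (hb i).sub_const _
  have hXi : iIndepFun X P := by
    have := hi.comp (fun i x => x - ∫ ω, b i ω ∂P) (fun i => by fun_prop)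
    exact this
  have hmean : ∀ i, |∫ ω, b i ω ∂P| ≤ K := by
    intro i
    have h := norm_integral_le_of_norm_le_const (μ := P) (C := K) (f := b i)
      (Filter.Eventually.of_forall (fun ω => by rw [Real.norm_eq_abs]; exact hK i ω))
    simpa using h
  have hXK : ∀ i ω, |X i ω| ≤ K + K := by
    intro i ω
    exact (abs_sub _ _).trans (add_le_add (hK i ω) (hmean i))
  have hX0 : ∀ i, ∫ ω, X i ω ∂P = 0 := by
    intro i
    have : ∫ ω, X i ω ∂P = (∫ ω, b i ω ∂P) - ∫ _ω, (∫ ω, b i ω ∂P) ∂P := integral_sub (hint i) (integrable_const _)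
    rw [this]; simp
  have hsq : ∀ i, (∫ ω, b i ω ∂P) ^ 2 ≤ ∫ ω, b i ω ^ 2 ∂P := by
    intro i
    have h1 : ∫ ω, X i ω ^ 2 ∂P = (∫ ω, b i ω ^ 2 ∂P) - (∫ ω, b i ω ∂P) ^ 2 := by
      have e : (fun ω => X i ω ^ 2) = fun ω => (b i ω ^ 2 - (2 * ∫ ω, b i ω ∂P) * b i ω) + (∫ ω, b i ω ∂P) ^ 2 := by
        funext ω; simp only [hXd]; ring
      rw [e]
      have i1 : ∫ ω, ((b i ω ^ 2 - (2 * ∫ ω, b i ω ∂P) * b i ω) + (∫ ω, b i ω ∂P) ^ 2) ∂P =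
          (∫ ω, (b i ω ^ 2 - (2 * ∫ ω, b i ω ∂P) * b i ω) ∂P) + ∫ _ω, (∫ ω, b i ω ∂P) ^ 2 ∂P :=
        integral_add ((hint2 i).sub ((hint i).const_mul _)) (integrable_const _)
      have i2 : ∫ ω, (b i ω ^ 2 - (2 * ∫ ω, b i ω ∂P) * b i ω) ∂P =
          (∫ ω, b i ω ^ 2 ∂P) - ∫ ω, (2 * ∫ ω, b i ω ∂P) * b i ω ∂P :=
        integral_sub (hint2 i) ((hint i).const_mul _)
      rw [i1, i2, integral_const_mul]
      simp
      ring
    have h2 : 0 ≤ ∫ ω, X i ω ^ 2 ∂P := integral_nonneg (fun ω => sq_nonneg _)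
    linarith
  have hX2 : ∀ i, ∫ ω, X i ω ^ 2 ∂P ≤ ∫ ω, b i ω ^ 2 ∂P := by
    intro i
    have h1 : ∫ ω, X i ω ^ 2 ∂P = (∫ ω, b i ω ^ 2 ∂P) - (∫ ω, b i ω ∂P) ^ 2 := by
      have e : (fun ω => X i ω ^ 2) = fun ω => (b i ω ^ 2 - (2 * ∫ ω, b i ω ∂P) * b i ω) + (∫ ω, b i ω ∂P) ^ 2 := by
        funext ω; simp only [hXd]; ring
      rw [e]
      have i1 : ∫ ω, ((b i ω ^ 2 - (2 * ∫ ω, b i ω ∂P) * b i ω) + (∫ ω, b i ω ∂P) ^ 2) ∂P =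
          (∫ ω, (b i ω ^ 2 - (2 * ∫ ω, b i ω ∂P) * b i ω) ∂P) + ∫ _ω, (∫ ω, b i ω ∂P) ^ 2 ∂P :=
        integral_add ((hint2 i).sub ((hint i).const_mul _)) (integrable_const _)
      have i2 : ∫ ω, (b i ω ^ 2 - (2 * ∫ ω, b i ω ∂P) * b i ω) ∂P =
          (∫ ω, b i ω ^ 2 ∂P) - ∫ ω, (2 * ∫ ω, b i ω ∂P) * b i ω ∂P :=
        integral_sub (hint2 i) ((hint i).const_mul _)
      rw [i1, i2, integral_const_mul]
      simp
      ring
    have := sq_nonneg (∫ ω, b i ω ∂P)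
    linarith
  refine (measure_mono ?_).trans (tail s X hXm hXi (K + K) hXK hX0 Q r hQ hr)
  intro ω hω
  obtain ⟨h1, h2⟩ := hω
  refine ⟨h1, ?_⟩
  calc ∑ i ∈ s, (X i ω ^ 2 / 6 + (∫ ω, X i ω ^ 2 ∂P) / 3)
      ≤ ∑ i ∈ s, ((1 / 3) * b i ω ^ 2 + (2 / 3) * ∫ ω, b i ω ^ 2 ∂P) := by
        apply sum_le_sum
        intro i _
        have e1 : X i ω ^ 2 ≤ 2 * b i ω ^ 2 + 2 * (∫ ω, b i ω ∂P) ^ 2 := by
          simp only [hXd]
          nlinarith [sq_nonneg (b i ω + ∫ ω, b i ω ∂P)]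
        have e2 := hsq i
        have e3 := hX2 i
        linarith
    _ = (1 / 3) * ∑ i ∈ s, b i ω ^ 2 + (2 / 3) * ∑ i ∈ s, ∫ ω, b i ω ^ 2 ∂P := by
        rw [sum_add_distrib, mul_sum, mul_sum]
    _ ≤ Q := by linarith

/-- two-sided bound -/
theorem tail2 {ι : Type*} (s : Finset ι) (b : ι → Ω → ℝ) (hb : ∀ i, Measurable (b i)) (hi : iIndepFun b P) (K : ℝ)
    (hK : ∀ i ω, |b i ω| ≤ K) (Q r : ℝ) (hQ : 0 < Q) (hr : 0 ≤ r) (hE : ∑ i ∈ s, ∫ ω, b i ω ^ 2 ∂P ≤ Q) :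
    P {ω | r ≤ |∑ i ∈ s, (b i ω - ∫ ω, b i ω ∂P)| ∧ ∑ i ∈ s, b i ω ^ 2 ≤ Q} ≤
      ENNReal.ofReal (2 * Real.exp (-(r ^ 2 / (4 * Q)))) := by
  have hneg := tail1 s (fun i ω => -b i ω) (fun i => (hb i).neg) (by
      have := hi.comp (fun _ x => -x) (fun i => measurable_neg)
      exact this) K (fun i ω => by rw [abs_neg]; exact hK i ω) Q r hQ hr (by simpa using hE)
  have hpos := tail1 s b hb hi K hK Q r hQ hr hE
  have hsub : {ω | r ≤ |∑ i ∈ s, (b i ω - ∫ ω, b i ω ∂P)| ∧ ∑ i ∈ s, b i ω ^ 2 ≤ Q} ⊆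
      {ω | r ≤ ∑ i ∈ s, (b i ω - ∫ ω, b i ω ∂P) ∧ ∑ i ∈ s, b i ω ^ 2 ≤ Q} ∪
      {ω | r ≤ ∑ i ∈ s, (-b i ω - ∫ ω, -b i ω ∂P) ∧ ∑ i ∈ s, (-b i ω) ^ 2 ≤ Q} := by
    intro ω hω
    obtain ⟨h1, h2⟩ := hω
    rcases le_abs.1 h1 with h | h
    · left; exact ⟨h, h2⟩
    · right
      refine ⟨?_, by simpa using h2⟩
      have : ∑ i ∈ s, (-b i ω - ∫ ω, -b i ω ∂P) = -∑ i ∈ s, (b i ω - ∫ ω, b i ω ∂P) := by
        rw [← sum_neg_distrib]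
        apply sum_congr rfl
        intro i _
        rw [integral_neg]; ring
      rw [this]; exact h
  calc P _ ≤ _ := measure_mono hsub
    _ ≤ _ + _ := measure_union_le _ _
    _ ≤ ENNReal.ofReal (Real.exp (-(r ^ 2 / (4 * Q)))) + ENNReal.ofReal (Real.exp (-(r ^ 2 / (4 * Q)))) :=
        add_le_add hpos hneg
    _ = ENNReal.ofReal (2 * Real.exp (-(r ^ 2 / (4 * Q)))) := by
        rw [← ENNReal.ofReal_add (Real.exp_pos _).le (Real.exp_pos _).le]; congr 1; ring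

end Pool.Agent.U160.RF
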