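import Pool.Agent.U160.RF.Nets
import Pool.Agent.U160.RF.Tail

/-!
# Random frequencies: the chaining argument
-/

set_option autoImplicit false

namespace Pool.Agent.U160.RF

open MeasureTheory ProbabilityTheory Finset

variable {α : Type*} {g : α → ℝ → ℂ} {W T : ℝ} {R : ℕ} {F : Finset ℝ} {l : ℝ}
  {Ω : Type*} [MeasurableSpace Ω] {P : Measure Ω} [IsProbabilityMeasure P]

/-- the sum of the squares at the random frequencies -/
noncomputable def AA (g : α → ℝ → ℂ) (lam : ℕ → Ω → ℝ) (s : Finset ℕ) {ι : Type*} [Fintype ι] (x : ι → α) (ω : Ω) : ℝ :=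
  ∑ n ∈ s, ‖KK g x (lam n ω)‖ ^ 2

/-- its mean value -/
noncomputable def EA (P : Measure Ω) (g : α → ℝ → ℂ) (lam : ℕ → Ω → ℝ) (s : Finset ℕ) {ι : Type*} [Fintype ι] (x : ι → α) : ℝ :=
  ∑ n ∈ s, ∫ ω, ‖KK g x (lam n ω)‖ ^ 2 ∂P

theorem KK_le (hA : Atoms g W T R F l) {ι : Type*} [Fintype ι] (x : ι → α) (v : ℝ) : ‖KK g x v‖ ≤ Fintype.card ι := by
  unfold KK
  refine (norm_sum_le _ _).trans ((sum_le_sum fun k _ => hA.bdd (x k) v).trans ?_)
  simp

theorem KK_meas (hm : ∀ a, Measurable (g a)) {ι : Type*} [Fintype ι] (x : ι → α) : Measurable (KK g x) := by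
  unfold KK
  exact Finset.measurable_sum _ (fun k _ => hm (x k))

/-- The deviations of two close tuples are close with large probability. -/
theorem pair (hA : Atoms g W T R F l) (hm : ∀ a, Measurable (g a)) (lam : ℕ → Ω → ℝ) (hlm : ∀ n, Measurable (lam n))
    (hli : iIndepFun lam P) (hl0 : ∀ n ω, 0 ≤ lam n ω ∧ lam n ω ≤ W) (s : Finset ℕ) {ι : Type*} [Fintype ι] (p q : ι → α)
    (v : ℝ) (hv : 0 < v) (hpq : ∀ u, 0 ≤ u → u ≤ W → ‖KK g p u - KK g q u‖ ≤ v) (S0 : ℝ) (hS0 : 0 < S0)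
    (hp : EA P g lam s p ≤ S0) (hq : EA P g lam s q ≤ S0) (r : ℝ) (hr : 0 ≤ r) :
    P {ω | AA g lam s p ω ≤ S0 ∧ AA g lam s q ω ≤ S0 ∧
      r ≤ |(AA g lam s p ω - EA P g lam s p) - (AA g lam s q ω - EA P g lam s q)|} ≤
      ENNReal.ofReal (2 * Real.exp (-(r ^ 2 / (16 * v ^ 2 * S0)))) := by
  set M : ℝ := (Fintype.card ι : ℝ) with hM
  set f : ℝ → ℝ := fun u => ‖KK g p u‖ ^ 2 - ‖KK g q u‖ ^ 2 with hf
  have hfm : Measurable f := ((KK_meas hm p).norm.pow_const 2).sub ((KK_meas hm q).norm.pow_const 2)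
  have hsqb : ∀ (x : ι → α) u, ‖KK g x u‖ ^ 2 ≤ M ^ 2 := fun x u =>
    pow_le_pow_left₀ (norm_nonneg _) (KK_le hA x u) 2
  have hfb : ∀ u, |f u| ≤ M ^ 2 := by
    intro u
    rw [abs_le]
    have h1 := hsqb p u
    have h2 := hsqb q u
    have h3 := sq_nonneg ‖KK g p u‖
    have h4 := sq_nonneg ‖KK g q u‖
    constructor <;> simp only [hf] <;> linarith
  have hfsq : ∀ u, 0 ≤ u → u ≤ W → f u ^ 2 ≤ 2 * v ^ 2 * (‖KK g p u‖ ^ 2 + ‖KK g q u‖ ^ 2) := by
    intro u hu0 huW
    have h1 : |‖KK g p u‖ - ‖KK g q u‖| ≤ v := (abs_norm_sub_norm_le _ _).trans (hpq u hu0 huW)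
    have h2 : (‖KK g p u‖ - ‖KK g q u‖) ^ 2 ≤ v ^ 2 := by
      rw [← sq_abs]; exact pow_le_pow_left₀ (abs_nonneg _) h1 2
    have h3 : (‖KK g p u‖ + ‖KK g q u‖) ^ 2 ≤ 2 * (‖KK g p u‖ ^ 2 + ‖KK g q u‖ ^ 2) := by
      nlinarith [sq_nonneg (‖KK g p u‖ - ‖KK g q u‖)]
    have e : f u ^ 2 = (‖KK g p u‖ - ‖KK g q u‖) ^ 2 * (‖KK g p u‖ + ‖KK g q u‖) ^ 2 := by
      simp only [hf]; ring
    rw [e]
    calc _ ≤ v ^ 2 * (2 * (‖KK g p u‖ ^ 2 + ‖KK g q u‖ ^ 2)) := mul_le_mul h2 h3 (sq_nonneg _) (sq_nonneg _)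
      _ = _ := by ring
  set b : ℕ → Ω → ℝ := fun n ω => f (lam n ω) with hb
  have hbm : ∀ n, Measurable (b n) := fun n => hfm.comp (hlm n)
  have hbi : iIndepFun b P := hli.comp (fun _ => f) (fun _ => hfm)
  have hint : ∀ (x : ι → α) n, Integrable (fun ω => ‖KK g x (lam n ω)‖ ^ 2) P := by
    intro x n
    apply Integrable.of_bound (((KK_meas hm x).comp (hlm n)).norm.pow_const 2).aestronglyMeasurable (M ^ 2)
    refine Filter.Eventually.of_forall (fun ω => ?_)
    rw [Real.norm_eq_abs, abs_of_nonneg (sq_nonneg _)]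
    exact hsqb x _
  have hQ : 0 < 4 * v ^ 2 * S0 := by positivity
  have hE : ∑ n ∈ s, ∫ ω, b n ω ^ 2 ∂P ≤ 4 * v ^ 2 * S0 := by
    calc ∑ n ∈ s, ∫ ω, b n ω ^ 2 ∂P
        ≤ ∑ n ∈ s, 2 * v ^ 2 * ((∫ ω, ‖KK g p (lam n ω)‖ ^ 2 ∂P) + ∫ ω, ‖KK g q (lam n ω)‖ ^ 2 ∂P) := by
          apply sum_le_sum
          intro n _
          rw [← integral_add (hint p n) (hint q n), ← integral_const_mul]
          apply integral_mono_of_nonneg
          · exact Filter.Eventually.of_forall (fun ω => sq_nonneg _)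
          · exact ((hint p n).add (hint q n)).const_mul _
          · exact Filter.Eventually.of_forall (fun ω => hfsq _ (hl0 n ω).1 (hl0 n ω).2)
      _ = 2 * v ^ 2 * (EA P g lam s p + EA P g lam s q) := by
          unfold EA; rw [← mul_sum, sum_add_distrib]
      _ ≤ _ := by
          have : 0 ≤ v ^ 2 := sq_nonneg v
          nlinarith
  have key := tail2 s b hbm hbi (M ^ 2) (fun n ω => hfb _) (4 * v ^ 2 * S0) r hQ hr hE
  have e16 : 4 * (4 * v ^ 2 * S0) = 16 * v ^ 2 * S0 := by ring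
  rw [e16] at key
  refine (measure_mono ?_).trans key
  intro ω hω
  obtain ⟨h1, h2, h3⟩ := hω
  refine ⟨?_, ?_⟩
  · have e : ∑ n ∈ s, (b n ω - ∫ ω, b n ω ∂P) = (AA g lam s p ω - EA P g lam s p) - (AA g lam s q ω - EA P g lam s q) := by
      unfold AA EA
      rw [← sum_sub_distrib, ← sum_sub_distrib, ← sum_sub_distrib]
      apply sum_congr rfl
      intro n _
      have : ∫ ω, b n ω ∂P = (∫ ω, ‖KK g p (lam n ω)‖ ^ 2 ∂P) - ∫ ω, ‖KK g q (lam n ω)‖ ^ 2 ∂P :=
        integral_sub (hint p n) (hint q n)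
      rw [this]
      simp only [hb, hf]; ring
    rw [e]; exact h3
  · calc ∑ n ∈ s, b n ω ^ 2 ≤ ∑ n ∈ s, 2 * v ^ 2 * (‖KK g p (lam n ω)‖ ^ 2 + ‖KK g q (lam n ω)‖ ^ 2) :=
          sum_le_sum fun n _ => hfsq _ (hl0 n ω).1 (hl0 n ω).2
      _ = 2 * v ^ 2 * (AA g lam s p ω + AA g lam s q ω) := by
          unfold AA; rw [← mul_sum, sum_add_distrib]
      _ ≤ _ := by
          have : 0 ≤ v ^ 2 := sq_nonneg v
          nlinarith

/-- One step of the descent. -/
theorem step [Fintype α] [DecidableEq α] (hA : Atoms g W T R F l) (hm : ∀ a, Measurable (g a)) (lam : ℕ → Ω → ℝ)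
    (hlm : ∀ n, Measurable (lam n)) (hli : iIndepFun lam P) (hl0 : ∀ n ω, 0 ≤ lam n ω ∧ lam n ω ≤ W) (s : Finset ℕ)
    (L : ℕ) (hL : 2 ^ L ≤ R) (hLl : (L : ℝ) + 1 ≤ l) (hα : Real.log (Fintype.card α) ≤ l)
    (D : Finset (Fin (2 ^ L) → α)) (E0 : ℝ) (hE0 : ∀ x ∈ D, EA P g lam s x ≤ E0) (S0 : ℝ) (hS0 : 0 < S0)
    (hS1 : 4 * E0 ≤ S0) (hS2 : 2560000 * 4 ^ L * l ^ 4 ≤ S0) :
    P {ω | (∀ x ∈ D, AA g lam s x ω ≤ S0) ∧ ∃ x ∈ D, S0 / 2 < AA g lam s x ω} ≤
      ENNReal.ofReal (2 * (L + 1) * Real.exp (-(4 * l))) := by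
  classical
  have hl1 := hA.one
  obtain ⟨z, hz⟩ := hA.zero
  rcases D.eq_empty_or_nonempty with hD | hDne
  · subst hD
    simp
  have hE0' : E0 ≤ S0 := by
    obtain ⟨x, hx⟩ := hDne
    have h1 : 0 ≤ EA P g lam s x := sum_nonneg fun n _ => integral_nonneg fun ω => sq_nonneg _
    have := hE0 x hx
    linarith
  have hE00 : 0 ≤ E0 := by
    obtain ⟨x, hx⟩ := hDne
    have h1 : 0 ≤ EA P g lam s x := sum_nonneg fun n _ => integral_nonneg fun ω => sq_nonneg _
    exact h1.trans (hE0 x hx)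
  -- nets
  have hnets : ∀ k, ∃ Fk : Finset (Fin (2 ^ L) → α), k ≤ L → (Fk ⊆ D ∧ Fk.card ≤ Fintype.card α ^ (2 ^ (L - k)) ∧
      (k = 0 → Fk = D) ∧
      ∀ x ∈ D, ∃ y ∈ Fk, (k = 0 → y = x) ∧ ∀ v, 0 ≤ v → v ≤ W → ‖KK g x v - KK g y v‖ ≤ 16 * Real.sqrt (2 ^ (L + k) * l)) := by
    intro k
    by_cases hk : k ≤ L
    · rcases Nat.eq_zero_or_pos k with h0 | h0
      · subst h0
        refine ⟨D, fun _ => ⟨subset_rfl, ?_, fun _ => rfl, fun x hx => ⟨x, hx, fun _ => rfl, fun v _ _ => by simp⟩⟩⟩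
        calc D.card ≤ (univ : Finset (Fin (2 ^ L) → α)).card := card_le_card (subset_univ _)
          _ = Fintype.card α ^ (2 ^ (L - 0)) := by rw [card_univ, Fintype.card_fun, Fintype.card_fin, Nat.sub_zero]
      · obtain ⟨Fk, h1, h2, h3⟩ := nets hA L hL D k hk
        refine ⟨Fk, fun _ => ⟨h1, h2, fun h => by omega, fun x hx => ?_⟩⟩
        obtain ⟨y, hy, hy2⟩ := h3 x hx
        exact ⟨y, hy, fun h => by omega, hy2⟩
    · exact ⟨∅, fun h => absurd h hk⟩
  choose Fn hFn using hnets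
  set v : ℕ → ℝ := fun k => 40 * Real.sqrt (2 ^ (L + k) * l) with hv
  have hvpos : ∀ k, 0 < v k := fun k => by
    simp only [hv]; positivity
  set r : ℝ := 400 * 2 ^ L * l * Real.sqrt S0 with hr
  have hr0 : 0 ≤ r := by positivity
  set close : ℕ → (Fin (2 ^ L) → α) → (Fin (2 ^ L) → α) → Prop := fun k p q =>
    ∀ u, 0 ≤ u → u ≤ W → ‖KK g p u - KK g q u‖ ≤ v k with hclose
  set zt : Fin (2 ^ L) → α := fun _ => z with hzt
  have hKz : ∀ u, KK g zt u = 0 := by
    intro u; unfold KK; exact sum_eq_zero fun k _ => hz u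
  have hAz : ∀ ω, AA g lam s zt ω = 0 := by
    intro ω; unfold AA; exact sum_eq_zero fun n _ => by rw [hKz]; simp
  have hEz : EA P g lam s zt = 0 := by
    unfold EA; exact sum_eq_zero fun n _ => by simp [hKz]
  set ev : (Fin (2 ^ L) → α) → (Fin (2 ^ L) → α) → Set Ω := fun p q =>
    {ω | AA g lam s p ω ≤ S0 ∧ AA g lam s q ω ≤ S0 ∧
      r ≤ |(AA g lam s p ω - EA P g lam s p) - (AA g lam s q ω - EA P g lam s q)|} with hev
  -- bound of one pair at level k
  have hpair : ∀ k < L, ∀ p ∈ Fn k, ∀ q ∈ Fn (k + 1), close k p q →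
      P (ev p q) ≤ ENNReal.ofReal (2 * Real.exp (-(6 * 2 ^ (L - k) * l))) := by
    intro k hk p hp q hq hc
    have hpD := (hFn k hk.le).1 hp
    have hqD := (hFn (k + 1) hk).1 hq
    refine (pair hA hm lam hlm hli hl0 s p q (v k) (hvpos k) hc S0 hS0 ((hE0 p hpD).trans hE0') ((hE0 q hqD).trans hE0')
      r hr0).trans (ENNReal.ofReal_le_ofReal ?_)
    apply mul_le_mul_of_nonneg_left _ (by norm_num)
    apply Real.exp_le_exp.2
    apply neg_le_neg
    have hv2 : (v k) ^ 2 = 1600 * (2 ^ (L + k) * l) := by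
      simp only [hv]; rw [mul_pow, Real.sq_sqrt (by positivity)]; norm_num
    have hr2 : r ^ 2 = 160000 * (4 ^ L) * l ^ 2 * S0 := by
      rw [hr, mul_pow, mul_pow, mul_pow, Real.sq_sqrt hS0.le, ← pow_mul, mul_comm L 2, pow_mul]; norm_num
    rw [hv2, hr2, le_div_iff₀ (by positivity)]
    have e : (2 : ℝ) ^ (L - k) * 2 ^ (L + k) = 4 ^ L := by
      rw [← pow_add, show L - k + (L + k) = 2 * L by omega, pow_mul]; norm_num
    calc 6 * 2 ^ (L - k) * l * (16 * (1600 * (2 ^ (L + k) * l)) * S0)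
        = 153600 * (2 ^ (L - k) * 2 ^ (L + k)) * l ^ 2 * S0 := by ring
      _ = 153600 * 4 ^ L * l ^ 2 * S0 := by rw [e]
      _ ≤ 160000 * 4 ^ L * l ^ 2 * S0 := by
          have : 0 ≤ (4 : ℝ) ^ L * l ^ 2 * S0 := by positivity
          nlinarith
  have hlast : ∀ p ∈ Fn L, P (ev p zt) ≤ ENNReal.ofReal (2 * Real.exp (-(6 * l))) := by
    intro p hp
    have hpD := (hFn L le_rfl).1 hp
    have hc : ∀ u, 0 ≤ u → u ≤ W → ‖KK g p u - KK g zt u‖ ≤ (2 : ℝ) ^ L := by
      intro u _ _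
      rw [hKz, sub_zero]
      have := KK_le hA p u
      rw [Fintype.card_fin] at this
      exact_mod_cast this
    refine (pair hA hm lam hlm hli hl0 s p zt (2 ^ L) (by positivity) hc S0 hS0 ((hE0 p hpD).trans hE0')
      (by rw [hEz]; exact hS0.le) r hr0).trans (ENNReal.ofReal_le_ofReal ?_)
    apply mul_le_mul_of_nonneg_left _ (by norm_num)
    apply Real.exp_le_exp.2
    apply neg_le_neg
    have hr2 : r ^ 2 = 160000 * (4 ^ L) * l ^ 2 * S0 := by
      rw [hr, mul_pow, mul_pow, mul_pow, Real.sq_sqrt hS0.le, ← pow_mul, mul_comm L 2, pow_mul]; norm_num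
    have e4 : ((2 : ℝ) ^ L) ^ 2 = 4 ^ L := by
      rw [← pow_mul, mul_comm L 2, pow_mul]; norm_num
    rw [hr2, e4, le_div_iff₀ (by positivity)]
    have h1 : l ≤ l ^ 2 := by nlinarith
    have h2 : (0 : ℝ) ≤ 4 ^ L * S0 := by positivity
    have h3 := mul_le_mul_of_nonneg_left h1 h2
    have h4 : 0 ≤ 4 ^ L * S0 * l ^ 2 := by positivity
    nlinarith
  -- the union
  set U1 : Set Ω := ⋃ k ∈ range L, ⋃ pq ∈ (Fn k ×ˢ Fn (k + 1)).filter (fun pq => close k pq.1 pq.2), ev pq.1 pq.2 with hU1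
  set U2 : Set Ω := ⋃ p ∈ Fn L, ev p zt with hU2
  have hαe : (Fintype.card α : ℝ) ≤ Real.exp l := by
    have hpos : (0 : ℝ) < Fintype.card α := by
      exact_mod_cast Fintype.card_pos_iff.2 ⟨z⟩
    calc (Fintype.card α : ℝ) = Real.exp (Real.log (Fintype.card α)) := (Real.exp_log hpos).symm
      _ ≤ _ := Real.exp_le_exp.2 hα
  have hFcard : ∀ k ≤ L, ((Fn k).card : ℝ) ≤ Real.exp (2 ^ (L - k) * l) := by
    intro k hk
    calc ((Fn k).card : ℝ) ≤ ((Fintype.card α ^ (2 ^ (L - k)) : ℕ) : ℝ) := by exact_mod_cast (hFn k hk).2.1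
      _ = (Fintype.card α : ℝ) ^ (2 ^ (L - k)) := by push_cast; rfl
      _ ≤ Real.exp l ^ (2 ^ (L - k)) := pow_le_pow_left₀ (Nat.cast_nonneg _) hαe _
      _ = Real.exp (2 ^ (L - k) * l) := by rw [← Real.exp_nat_mul]; push_cast; rfl
  have hPU1 : P U1 ≤ ENNReal.ofReal (2 * L * Real.exp (-(4 * l))) := by
    calc P U1 ≤ ∑ k ∈ range L, P (⋃ pq ∈ (Fn k ×ˢ Fn (k + 1)).filter (fun pq => close k pq.1 pq.2), ev pq.1 pq.2) :=
          measure_biUnion_finset_le _ _
      _ ≤ ∑ _k ∈ range L, ENNReal.ofReal (2 * Real.exp (-(4 * l))) := by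
          apply sum_le_sum
          intro k hk
          have hkL := mem_range.1 hk
          calc P (⋃ pq ∈ (Fn k ×ˢ Fn (k + 1)).filter (fun pq => close k pq.1 pq.2), ev pq.1 pq.2)
              ≤ ∑ pq ∈ (Fn k ×ˢ Fn (k + 1)).filter (fun pq => close k pq.1 pq.2), P (ev pq.1 pq.2) :=
                measure_biUnion_finset_le _ _
            _ ≤ ∑ _pq ∈ (Fn k ×ˢ Fn (k + 1)).filter (fun pq => close k pq.1 pq.2),
                  ENNReal.ofReal (2 * Real.exp (-(6 * 2 ^ (L - k) * l))) := by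
                apply sum_le_sum
                intro pq hpq
                rw [mem_filter, mem_product] at hpq
                exact hpair k hkL pq.1 hpq.1.1 pq.2 hpq.1.2 hpq.2
            _ ≤ ∑ _pq ∈ (Fn k ×ˢ Fn (k + 1)), ENNReal.ofReal (2 * Real.exp (-(6 * 2 ^ (L - k) * l))) :=
                sum_le_sum_of_subset (filter_subset _ _)
            _ = ENNReal.ofReal (((Fn k).card * (Fn (k + 1)).card : ℝ) * (2 * Real.exp (-(6 * 2 ^ (L - k) * l)))) := by
                rw [sum_const, card_product, nsmul_eq_mul, ← ENNReal.ofReal_natCast, ← ENNReal.ofReal_mul (Nat.cast_nonneg _)]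
                congr 1; push_cast; ring
            _ ≤ ENNReal.ofReal (2 * Real.exp (-(4 * l))) := by
                apply ENNReal.ofReal_le_ofReal
                have h1 := hFcard k hkL.le
                have h2 := hFcard (k + 1) hkL
                have h3 : (2 : ℝ) ^ (L - (k + 1)) ≤ 2 ^ (L - k) := pow_le_pow_right₀ (by norm_num) (by omega)
                have h4 : ((Fn k).card * (Fn (k + 1)).card : ℝ) ≤ Real.exp (2 * 2 ^ (L - k) * l) := by
                  calc ((Fn k).card * (Fn (k + 1)).card : ℝ) ≤ Real.exp (2 ^ (L - k) * l) * Real.exp (2 ^ (L - (k + 1)) * l) :=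
                        mul_le_mul h1 h2 (Nat.cast_nonneg _) (Real.exp_pos _).le
                    _ = Real.exp (2 ^ (L - k) * l + 2 ^ (L - (k + 1)) * l) := (Real.exp_add _ _).symm
                    _ ≤ _ := by
                        apply Real.exp_le_exp.2
                        have := mul_le_mul_of_nonneg_right h3 (by linarith : (0 : ℝ) ≤ l)
                        linarith
                calc _ ≤ Real.exp (2 * 2 ^ (L - k) * l) * (2 * Real.exp (-(6 * 2 ^ (L - k) * l))) :=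
                      mul_le_mul_of_nonneg_right h4 (by positivity)
                  _ = 2 * (Real.exp (2 * 2 ^ (L - k) * l) * Real.exp (-(6 * 2 ^ (L - k) * l))) := by ring
                  _ = 2 * Real.exp (-(4 * 2 ^ (L - k) * l)) := by
                      rw [← Real.exp_add]; congr 2; ring
                  _ ≤ _ := by
                      apply mul_le_mul_of_nonneg_left _ (by norm_num)
                      apply Real.exp_le_exp.2
                      have h5 : (1 : ℝ) ≤ 2 ^ (L - k) := one_le_pow₀ (by norm_num)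
                      nlinarith
      _ = ENNReal.ofReal (2 * L * Real.exp (-(4 * l))) := by
          rw [sum_const, card_range, nsmul_eq_mul, ← ENNReal.ofReal_natCast, ← ENNReal.ofReal_mul (Nat.cast_nonneg _)]
          congr 1; ring
  have hPU2 : P U2 ≤ ENNReal.ofReal (2 * Real.exp (-(4 * l))) := by
    calc P U2 ≤ ∑ p ∈ Fn L, P (ev p zt) := measure_biUnion_finset_le _ _
      _ ≤ ∑ _p ∈ Fn L, ENNReal.ofReal (2 * Real.exp (-(6 * l))) := sum_le_sum hlast
      _ = ENNReal.ofReal ((Fn L).card * (2 * Real.exp (-(6 * l)))) := by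
          rw [sum_const, nsmul_eq_mul, ← ENNReal.ofReal_natCast, ← ENNReal.ofReal_mul (Nat.cast_nonneg _)]
      _ ≤ _ := by
          apply ENNReal.ofReal_le_ofReal
          have h1 := hFcard L le_rfl
          rw [Nat.sub_self, pow_zero, one_mul] at h1
          calc _ ≤ Real.exp l * (2 * Real.exp (-(6 * l))) := mul_le_mul_of_nonneg_right h1 (by positivity)
            _ = 2 * Real.exp (-(5 * l)) := by rw [mul_left_comm, ← Real.exp_add]; congr 2; ring
            _ ≤ _ := by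
                apply mul_le_mul_of_nonneg_left _ (by norm_num)
                apply Real.exp_le_exp.2; linarith
  -- the inclusion
  have hincl : {ω | (∀ x ∈ D, AA g lam s x ω ≤ S0) ∧ ∃ x ∈ D, S0 / 2 < AA g lam s x ω} ⊆ U1 ∪ U2 := by
    intro ω hω
    obtain ⟨hall, x, hx, hxS⟩ := hω
    by_contra hnot
    rw [Set.mem_union, not_or] at hnot
    obtain ⟨hn1, hn2⟩ := hnot
    -- approximations of x
    have hy : ∀ k, ∃ y : Fin (2 ^ L) → α, k ≤ L → (y ∈ Fn k ∧ (k = 0 → y = x) ∧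
        ∀ u, 0 ≤ u → u ≤ W → ‖KK g x u - KK g y u‖ ≤ 16 * Real.sqrt (2 ^ (L + k) * l)) := by
      intro k
      by_cases hk : k ≤ L
      · obtain ⟨y, hy, hy0, hy2⟩ := (hFn k hk).2.2.2 x hx
        exact ⟨y, fun _ => ⟨hy, hy0, hy2⟩⟩
      · exact ⟨x, fun h => absurd h hk⟩
    choose y hy using hy
    set Z : (Fin (2 ^ L) → α) → ℝ := fun p => AA g lam s p ω - EA P g lam s p with hZ
    have hdiff : ∀ k < L, |Z (y k) - Z (y (k + 1))| ≤ r := by
      intro k hk
      by_contra hgt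
      push Not at hgt
      apply hn1
      rw [hU1]
      simp only [Set.mem_iUnion]
      have hk1 := hy k hk.le
      have hk2 := hy (k + 1) hk
      refine ⟨k, mem_range.2 hk, (y k, y (k + 1)), ?_, ?_⟩
      · rw [mem_filter, mem_product]
        refine ⟨⟨hk1.1, hk2.1⟩, fun u hu0 huW => ?_⟩
        have h1 := hk1.2.2 u hu0 huW
        have h2 := hk2.2.2 u hu0 huW
        have h4 : Real.sqrt (2 ^ (L + (k + 1)) * l) = Real.sqrt 2 * Real.sqrt (2 ^ (L + k) * l) := by
          rw [← Real.sqrt_mul (by norm_num)]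
          congr 1; rw [← add_assoc, pow_succ]; ring
        have h5 : Real.sqrt 2 ≤ 1.5 := by
          rw [Real.sqrt_le_left (by norm_num)]; norm_num
        have hs0 := Real.sqrt_nonneg (2 ^ (L + k) * l)
        calc ‖KK g (y k) u - KK g (y (k + 1)) u‖
            = ‖(KK g x u - KK g (y (k + 1)) u) - (KK g x u - KK g (y k) u)‖ := by congr 1; ring
          _ ≤ 16 * Real.sqrt (2 ^ (L + (k + 1)) * l) + 16 * Real.sqrt (2 ^ (L + k) * l) :=
              (norm_sub_le _ _).trans (add_le_add h2 h1)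
          _ ≤ v k := by
              simp only [hv]
              rw [h4]; nlinarith
      · show ω ∈ ev (y k) (y (k + 1))
        refine ⟨hall _ ((hFn k hk.le).1 hk1.1), hall _ ((hFn (k + 1) hk).1 hk2.1), hgt.le⟩
    have hlastω : |Z (y L)| ≤ r := by
      by_contra hgt
      push Not at hgt
      apply hn2
      rw [hU2]
      simp only [Set.mem_iUnion]
      have hk1 := hy L le_rfl
      refine ⟨y L, hk1.1, hall _ ((hFn L le_rfl).1 hk1.1), by rw [hAz]; exact hS0.le, ?_⟩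
      rw [hAz, hEz, sub_zero, sub_zero]
      exact hgt.le
    have hchain : ∀ k ≤ L, |Z x - Z (y k)| ≤ k * r := by
      intro k
      induction k with
      | zero =>
        intro _
        have := (hy 0 (Nat.zero_le _)).2.1 rfl
        rw [this]; simp
      | succ k ih =>
        intro hk
        have h1 := ih (by omega)
        have h2 := hdiff k hk
        calc |Z x - Z (y (k + 1))| = |(Z x - Z (y k)) + (Z (y k) - Z (y (k + 1)))| := by congr 1; ring
          _ ≤ k * r + r := (abs_add_le _ _).trans (add_le_add h1 h2)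
          _ = _ := by push_cast; ring
    have hZx : Z x ≤ (L + 1) * r := by
      have h1 := hchain L le_rfl
      have h2 : |Z x| ≤ L * r + r := by
        calc |Z x| = |(Z x - Z (y L)) + Z (y L)| := by congr 1; ring
          _ ≤ _ := (abs_add_le _ _).trans (add_le_add h1 hlastω)
      have := le_abs_self (Z x)
      linarith
    have hbound : AA g lam s x ω ≤ S0 / 2 := by
      have h1 : AA g lam s x ω = Z x + EA P g lam s x := by simp only [hZ]; ring
      have h2 := hE0 x hx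
      have h3 : (L + 1) * r ≤ S0 / 4 := by
        have hsq : Real.sqrt S0 * Real.sqrt S0 = S0 := Real.mul_self_sqrt hS0.le
        have h4 : 1600 * 2 ^ L * l ^ 2 ≤ Real.sqrt S0 := by
          apply Real.le_sqrt_of_sq_le
          calc (1600 * 2 ^ L * l ^ 2) ^ 2 = 2560000 * ((2 : ℝ) ^ L) ^ 2 * l ^ 4 := by ring
            _ = 2560000 * 4 ^ L * l ^ 4 := by
                rw [← pow_mul, mul_comm L 2, pow_mul]; norm_num
            _ ≤ S0 := hS2
        have h5 : (L + 1) * r ≤ l * r := mul_le_mul_of_nonneg_right hLl hr0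
        have h6 : l * r = (1600 * 2 ^ L * l ^ 2) * Real.sqrt S0 / 4 := by rw [hr]; ring
        have h7 := mul_le_mul_of_nonneg_right h4 (Real.sqrt_nonneg S0)
        rw [hsq] at h7
        rw [h6] at h5
        linarith
      rw [h1]; linarith
    linarith
  calc P _ ≤ P (U1 ∪ U2) := measure_mono hincl
    _ ≤ P U1 + P U2 := measure_union_le _ _
    _ ≤ ENNReal.ofReal (2 * L * Real.exp (-(4 * l))) + ENNReal.ofReal (2 * Real.exp (-(4 * l))) := add_le_add hPU1 hPU2
    _ = _ := by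
        rw [← ENNReal.ofReal_add (by positivity) (by positivity)]; congr 1; ring

end Pool.Agent.U160.RF
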