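import Pool.Agent.U160.RF.Chain

/-!
# Random frequencies: the descent
-/

set_option autoImplicit false

namespace Pool.Agent.U160.RF

open MeasureTheory ProbabilityTheory Finset

variable {α : Type*} {g : α → ℝ → ℂ} {W T : ℝ} {R : ℕ} {F : Finset ℝ} {l : ℝ}
  {Ω : Type*} [MeasurableSpace Ω] {P : Measure Ω} [IsProbabilityMeasure P]

theorem AA_le (hA : Atoms g W T R F l) (lam : ℕ → Ω → ℝ) (s : Finset ℕ) {ι : Type*} [Fintype ι] (x : ι → α) (ω : Ω) :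
    AA g lam s x ω ≤ s.card * (Fintype.card ι : ℝ) ^ 2 := by
  unfold AA
  calc ∑ n ∈ s, ‖KK g x (lam n ω)‖ ^ 2 ≤ ∑ _n ∈ s, (Fintype.card ι : ℝ) ^ 2 :=
        sum_le_sum fun n _ => pow_le_pow_left₀ (norm_nonneg _) (KK_le hA x _) 2
    _ = _ := by rw [sum_const, nsmul_eq_mul]

/-- **The uniform bound.** -/
theorem descent [Fintype α] [DecidableEq α] (hA : Atoms g W T R F l) (hm : ∀ a, Measurable (g a)) (lam : ℕ → Ω → ℝ)
    (hlm : ∀ n, Measurable (lam n)) (hli : iIndepFun lam P) (hl0 : ∀ n ω, 0 ≤ lam n ω ∧ lam n ω ≤ W) (s : Finset ℕ)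
    (L : ℕ) (hL : 2 ^ L ≤ R) (hLl : (L : ℝ) + 1 ≤ l) (hα : Real.log (Fintype.card α) ≤ l)
    (D : Finset (Fin (2 ^ L) → α)) (E0 : ℝ) (hE0 : ∀ x ∈ D, EA P g lam s x ≤ E0) (S0 : ℝ) (hS0 : 0 < S0)
    (hS1 : 4 * E0 ≤ S0) (hS2 : 2560000 * 4 ^ L * l ^ 4 ≤ S0) (J : ℕ) (hJ : s.card * 4 ^ L ≤ 2 ^ J * S0) :
    P {ω | ∃ x ∈ D, S0 < AA g lam s x ω} ≤ ENNReal.ofReal (J * (2 * (L + 1) * Real.exp (-(4 * l)))) := by
  classical
  have hsub : {ω | ∃ x ∈ D, S0 < AA g lam s x ω} ⊆ ⋃ j ∈ range J,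
      {ω | (∀ x ∈ D, AA g lam s x ω ≤ 2 ^ (j + 1) * S0) ∧ ∃ x ∈ D, 2 ^ (j + 1) * S0 / 2 < AA g lam s x ω} := by
    intro ω hω
    obtain ⟨x, hx, hxS⟩ := hω
    have hex : ∃ j, ∀ x ∈ D, AA g lam s x ω ≤ 2 ^ j * S0 := by
      refine ⟨J, fun x _ => (AA_le hA lam s x ω).trans ?_⟩
      refine le_trans (le_of_eq ?_) hJ
      rw [Fintype.card_fin]; push_cast
      rw [← pow_mul, mul_comm L 2, pow_mul]; norm_num
    set j := Nat.find hex with hj
    have hj1 : ∀ x ∈ D, AA g lam s x ω ≤ 2 ^ j * S0 := Nat.find_spec hex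
    have hj0 : j ≠ 0 := by
      intro h0
      have := hj1 x hx
      rw [h0] at this
      simp at this
      linarith
    obtain ⟨i, hi⟩ := Nat.exists_eq_succ_of_ne_zero hj0
    have hi2 : ¬ ∀ x ∈ D, AA g lam s x ω ≤ 2 ^ i * S0 := Nat.find_min hex (by rw [← hj]; omega)
    push Not at hi2
    obtain ⟨x', hx', hx'S⟩ := hi2
    have hjJ : j ≤ J := by
      apply Nat.find_min' hex
      intro x _
      refine (AA_le hA lam s x ω).trans ?_
      refine le_trans (le_of_eq ?_) hJ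
      rw [Fintype.card_fin]; push_cast
      rw [← pow_mul, mul_comm L 2, pow_mul]; norm_num
    simp only [Set.mem_iUnion]
    refine ⟨i, mem_range.2 (by omega), ?_, x', hx', ?_⟩
    · rw [show i + 1 = j by omega]; exact hj1
    · rw [pow_succ]
      calc 2 ^ i * 2 * S0 / 2 = 2 ^ i * S0 := by ring
        _ < _ := hx'S
  calc P {ω | ∃ x ∈ D, S0 < AA g lam s x ω} ≤ _ := measure_mono hsub
    _ ≤ ∑ j ∈ range J, P {ω | (∀ x ∈ D, AA g lam s x ω ≤ 2 ^ (j + 1) * S0) ∧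
          ∃ x ∈ D, 2 ^ (j + 1) * S0 / 2 < AA g lam s x ω} := measure_biUnion_finset_le _ _
    _ ≤ ∑ _j ∈ range J, ENNReal.ofReal (2 * (L + 1) * Real.exp (-(4 * l))) := by
        apply sum_le_sum
        intro j _
        have h1 : S0 ≤ 2 ^ (j + 1) * S0 := by
          have : (1 : ℝ) ≤ 2 ^ (j + 1) := one_le_pow₀ (by norm_num)
          nlinarith
        exact step hA hm lam hlm hli hl0 s L hL hLl hα D E0 hE0 (2 ^ (j + 1) * S0) (by positivity)
          (hS1.trans h1) (hS2.trans h1)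
    _ = _ := by
        rw [sum_const, card_range, nsmul_eq_mul, ← ENNReal.ofReal_natCast, ← ENNReal.ofReal_mul (Nat.cast_nonneg _)]

end Pool.Agent.U160.RF
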