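import Mathlib

/-!
# Random frequencies: a self-normalised exponential inequality

`exp (x - x ^ 2 / 6) ≤ 1 + x + x ^ 2 / 3`, and the tail bound for a sum of independent centred variables on the
event that the sum of their squares is small.
-/

set_option autoImplicit false

namespace Pool.Agent.U160.RF

open MeasureTheory ProbabilityTheory Finset

/-- `(1 + x + x²/3) exp(-x + x²/6)` -/
noncomputable def gx (x : ℝ) : ℝ := (1 + x + x ^ 2 / 3) * Real.exp (-x + x ^ 2 / 6)

theorem gx_deriv (x : ℝ) : HasDerivAt gx (x ^ 3 / 9 * Real.exp (-x + x ^ 2 / 6)) x := by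
  have h1 : HasDerivAt (fun y : ℝ => 1 + y + y ^ 2 / 3) (1 + 2 * x / 3) x := by
    have h := ((hasDerivAt_id' x).const_add 1).fun_add (((hasDerivAt_id' x).fun_pow 2).div_const 3)
    refine h.congr_deriv ?_
    norm_num
  have h2 : HasDerivAt (fun y : ℝ => -y + y ^ 2 / 6) (-1 + 2 * x / 6) x := by
    have h := ((hasDerivAt_id' x).fun_neg).fun_add (((hasDerivAt_id' x).fun_pow 2).div_const 6)
    refine h.congr_deriv ?_
    norm_num
  have h3 := h1.fun_mul h2.exp
  refine h3.congr_deriv ?_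
  ring

theorem exp_ineq (x : ℝ) : Real.exp (x - x ^ 2 / 6) ≤ 1 + x + x ^ 2 / 3 := by
  have hc : Continuous gx := by unfold gx; fun_prop
  have key : 1 ≤ gx x := by
    have h0 : gx 0 = 1 := by simp [gx]
    rcases le_total 0 x with hx | hx
    · have hm : MonotoneOn gx (Set.Ici 0) := by
        apply monotoneOn_of_deriv_nonneg (convex_Ici 0) hc.continuousOn
        · intro y hy; exact (gx_deriv y).differentiableAt.differentiableWithinAt
        · intro y hy
          rw [interior_Ici] at hy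
          rw [(gx_deriv y).deriv]
          have : (0 : ℝ) < y := hy
          positivity
      have := hm (Set.mem_Ici.2 le_rfl) (Set.mem_Ici.2 hx) hx
      rwa [h0] at this
    · have hm : AntitoneOn gx (Set.Iic 0) := by
        apply antitoneOn_of_deriv_nonpos (convex_Iic 0) hc.continuousOn
        · intro y hy; exact (gx_deriv y).differentiableAt.differentiableWithinAt
        · intro y hy
          rw [interior_Iic] at hy
          rw [(gx_deriv y).deriv]
          have h1 : y < 0 := hy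
          have h2 : y ^ 3 ≤ 0 := by
            have : y ^ 3 = y * y ^ 2 := by ring
            rw [this]
            exact mul_nonpos_of_nonpos_of_nonneg h1.le (sq_nonneg y)
          exact mul_nonpos_of_nonpos_of_nonneg (by linarith) (Real.exp_pos _).le
      have := hm (Set.mem_Iic.2 hx) (Set.mem_Iic.2 le_rfl) hx
      rwa [h0] at this
  have e1 : Real.exp (x - x ^ 2 / 6) * Real.exp (-x + x ^ 2 / 6) = 1 := by
    rw [← Real.exp_add]; simp
  unfold gx at key
  have h2 := Real.exp_pos (-x + x ^ 2 / 6)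
  have h3 : Real.exp (x - x ^ 2 / 6) * Real.exp (-x + x ^ 2 / 6) ≤ (1 + x + x ^ 2 / 3) * Real.exp (-x + x ^ 2 / 6) := by
    rw [e1]; exact key
  exact le_of_mul_le_mul_right h3 h2

variable {Ω : Type*} [MeasurableSpace Ω] {P : Measure Ω} [IsProbabilityMeasure P]

/-- one factor -/
theorem one_factor (X : Ω → ℝ) (hX : Measurable X) (K : ℝ) (hK : ∀ ω, |X ω| ≤ K) (h0 : ∫ ω, X ω ∂P = 0) (l : ℝ) :
    ∫⁻ ω, ENNReal.ofReal (Real.exp (l * X ω - l ^ 2 * (X ω ^ 2 / 6 + (∫ ω, X ω ^ 2 ∂P) / 3))) ∂P ≤ 1 := by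
  set v := ∫ ω, X ω ^ 2 ∂P with hv
  have hint : Integrable X P := by
    apply Integrable.of_bound hX.aestronglyMeasurable K
    exact Filter.Eventually.of_forall (fun ω => by rw [Real.norm_eq_abs]; exact hK ω)
  have hint2 : Integrable (fun ω => X ω ^ 2) P := by
    apply Integrable.of_bound (hX.pow_const 2).aestronglyMeasurable (K ^ 2)
    refine Filter.Eventually.of_forall (fun ω => ?_)
    rw [Real.norm_eq_abs, abs_pow]
    exact pow_le_pow_left₀ (abs_nonneg _) (hK ω) 2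
  have h1 : ∀ ω, Real.exp (l * X ω - l ^ 2 * (X ω ^ 2 / 6 + v / 3)) ≤
      (1 + l * X ω + l ^ 2 * X ω ^ 2 / 3) * Real.exp (-(l ^ 2 * v / 3)) := by
    intro ω
    have := exp_ineq (l * X ω)
    have e : l * X ω - l ^ 2 * (X ω ^ 2 / 6 + v / 3) = (l * X ω - (l * X ω) ^ 2 / 6) + -(l ^ 2 * v / 3) := by ring
    rw [e, Real.exp_add]
    apply mul_le_mul_of_nonneg_right _ (Real.exp_pos _).le
    calc _ ≤ 1 + l * X ω + (l * X ω) ^ 2 / 3 := this
      _ = _ := by ring
  calc ∫⁻ ω, ENNReal.ofReal (Real.exp (l * X ω - l ^ 2 * (X ω ^ 2 / 6 + v / 3))) ∂P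
      ≤ ∫⁻ ω, ENNReal.ofReal ((1 + l * X ω + l ^ 2 * X ω ^ 2 / 3) * Real.exp (-(l ^ 2 * v / 3))) ∂P :=
        lintegral_mono (fun ω => ENNReal.ofReal_le_ofReal (h1 ω))
    _ = ENNReal.ofReal (∫ ω, (1 + l * X ω + l ^ 2 * X ω ^ 2 / 3) * Real.exp (-(l ^ 2 * v / 3)) ∂P) := by
        rw [ofReal_integral_eq_lintegral_ofReal]
        · have : (fun ω => (1 + l * X ω + l ^ 2 * X ω ^ 2 / 3) * Real.exp (-(l ^ 2 * v / 3))) =
              fun ω => (1 + l * X ω + l ^ 2 / 3 * X ω ^ 2) * Real.exp (-(l ^ 2 * v / 3)) := by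
            funext ω; ring
          rw [this]
          exact (((integrable_const 1).add (hint.const_mul l)).add (hint2.const_mul (l ^ 2 / 3))).mul_const _
        · exact Filter.Eventually.of_forall (fun ω => (Real.exp_pos _).le.trans (h1 ω))
    _ = ENNReal.ofReal ((1 + l ^ 2 * v / 3) * Real.exp (-(l ^ 2 * v / 3))) := by
        congr 1
        rw [integral_mul_const]
        congr 1
        have : (fun ω => 1 + l * X ω + l ^ 2 * X ω ^ 2 / 3) = fun ω => (1 + l * X ω) + l ^ 2 / 3 * X ω ^ 2 := by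
          funext ω; ring
        rw [this]
        have i1 : ∫ ω, ((1 + l * X ω) + l ^ 2 / 3 * X ω ^ 2) ∂P = (∫ ω, (1 + l * X ω) ∂P) + ∫ ω, l ^ 2 / 3 * X ω ^ 2 ∂P :=
          integral_add ((integrable_const 1).add (hint.const_mul l)) (hint2.const_mul _)
        have i2 : ∫ ω, (1 + l * X ω) ∂P = (∫ _ω, (1 : ℝ) ∂P) + ∫ ω, l * X ω ∂P :=
          integral_add (integrable_const 1) (hint.const_mul l)
        rw [i1, i2, integral_const_mul, integral_const_mul, h0, ← hv]
        simp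
        ring
    _ ≤ ENNReal.ofReal 1 := by
        apply ENNReal.ofReal_le_ofReal
        have h2 := Real.add_one_le_exp (l ^ 2 * v / 3)
        have h3 : Real.exp (l ^ 2 * v / 3) * Real.exp (-(l ^ 2 * v / 3)) = 1 := by
          rw [← Real.exp_add]; simp
        calc (1 + l ^ 2 * v / 3) * Real.exp (-(l ^ 2 * v / 3)) ≤ Real.exp (l ^ 2 * v / 3) * Real.exp (-(l ^ 2 * v / 3)) := by
              apply mul_le_mul_of_nonneg_right _ (Real.exp_pos _).le
              linarith
          _ = 1 := h3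
    _ = 1 := by simp

/-- The tail of a sum of independent centred bounded variables where the sum of the squares is at most `Q`. -/
theorem tail {ι : Type*} (s : Finset ι) (X : ι → Ω → ℝ) (hX : ∀ i, Measurable (X i)) (hi : iIndepFun X P) (K : ℝ)
    (hK : ∀ i ω, |X i ω| ≤ K) (h0 : ∀ i, ∫ ω, X i ω ∂P = 0) (Q r : ℝ) (hQ : 0 < Q) (hr : 0 ≤ r) :
    P {ω | r ≤ ∑ i ∈ s, X i ω ∧ ∑ i ∈ s, (X i ω ^ 2 / 6 + (∫ ω, X i ω ^ 2 ∂P) / 3) ≤ Q} ≤
      ENNReal.ofReal (Real.exp (-(r ^ 2 / (4 * Q)))) := by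
  classical
  set l := r / (2 * Q) with hl
  have hl0 : 0 ≤ l := by positivity
  set Y : ι → Ω → ENNReal := fun i ω =>
    ENNReal.ofReal (Real.exp (l * X i ω - l ^ 2 * (X i ω ^ 2 / 6 + (∫ ω, X i ω ^ 2 ∂P) / 3))) with hY
  have hYm : ∀ i, Measurable (Y i) := by
    intro i
    apply ENNReal.measurable_ofReal.comp
    apply Real.measurable_exp.comp
    have := hX i
    fun_prop
  have hYi : iIndepFun Y P := by
    have := hi.comp (fun i x => ENNReal.ofReal (Real.exp (l * x - l ^ 2 * (x ^ 2 / 6 + (∫ ω, X i ω ^ 2 ∂P) / 3))))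
      (fun i => by
        apply ENNReal.measurable_ofReal.comp
        apply Real.measurable_exp.comp
        fun_prop)
    exact this
  have hE : ∫⁻ ω, ∏ i ∈ s, Y i ω ∂P ≤ 1 := by
    rw [lintegral_prod_eq_prod_lintegral_of_indepFun s Y hYi hYm]
    apply Finset.prod_le_one'
    intro i _
    exact one_factor (X i) (hX i) K (hK i) (h0 i) l
  have hsub : {ω | r ≤ ∑ i ∈ s, X i ω ∧ ∑ i ∈ s, (X i ω ^ 2 / 6 + (∫ ω, X i ω ^ 2 ∂P) / 3) ≤ Q} ⊆
      {ω | ENNReal.ofReal (Real.exp (r ^ 2 / (4 * Q))) ≤ ∏ i ∈ s, Y i ω} := by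
    intro ω hω
    obtain ⟨h1, h2⟩ := hω
    show ENNReal.ofReal (Real.exp (r ^ 2 / (4 * Q))) ≤ ∏ i ∈ s, Y i ω
    rw [hY]
    simp only
    rw [← ENNReal.ofReal_prod_of_nonneg (fun i _ => (Real.exp_pos _).le), ← Real.exp_sum]
    apply ENNReal.ofReal_le_ofReal
    apply Real.exp_le_exp.2
    rw [sum_sub_distrib, ← mul_sum, ← mul_sum]
    have e : r ^ 2 / (4 * Q) = l * r - l ^ 2 * Q := by
      rw [hl]; field_simp; ring
    rw [e]
    have h3 := mul_le_mul_of_nonneg_left h1 hl0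
    have h4 := mul_le_mul_of_nonneg_left h2 (sq_nonneg l)
    linarith
  calc P {ω | r ≤ ∑ i ∈ s, X i ω ∧ ∑ i ∈ s, (X i ω ^ 2 / 6 + (∫ ω, X i ω ^ 2 ∂P) / 3) ≤ Q}
      ≤ P {ω | ENNReal.ofReal (Real.exp (r ^ 2 / (4 * Q))) ≤ ∏ i ∈ s, Y i ω} := measure_mono hsub
    _ ≤ (∫⁻ ω, ∏ i ∈ s, Y i ω ∂P) / ENNReal.ofReal (Real.exp (r ^ 2 / (4 * Q))) := by
        apply meas_ge_le_lintegral_div
        · exact (Finset.measurable_prod s (fun i _ => hYm i)).aemeasurable
        · simp [Real.exp_pos]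
        · simp
    _ ≤ 1 / ENNReal.ofReal (Real.exp (r ^ 2 / (4 * Q))) := by gcongr
    _ = ENNReal.ofReal (Real.exp (-(r ^ 2 / (4 * Q)))) := by
        rw [one_div, Real.exp_neg, ENNReal.ofReal_inv_of_pos (Real.exp_pos _)]

end Pool.Agent.U160.RF
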