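import Mathlib

/-!
# Random frequencies: the kernel of the mean value
-/

set_option autoImplicit false

namespace Pool.Agent.U160.RF

open MeasureTheory Finset

/-- `v^{-iu}` -/
noncomputable def ee (u v : ℝ) : ℂ := Complex.exp (-(u * v : ℝ) * Complex.I)

theorem ee_norm (u v : ℝ) : ‖ee u v‖ = 1 := by
  unfold ee
  rw [← Complex.ofReal_neg, Complex.norm_exp_ofReal_mul_I]

theorem ee_log (u v : ℝ) (hv : 0 < v) : ee u (Real.log v) = (v : ℂ) ^ (-(u : ℂ) * Complex.I) := by
  unfold ee
  rw [Complex.cpow_def_of_ne_zero (by exact_mod_cast hv.ne'), ← Complex.ofReal_log hv.le]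
  congr 1; push_cast; ring

theorem kern (N : ℕ) (u : ℝ) : ‖∫ v in (1 : ℝ)..(N + 1), ee u (Real.log v)‖ ≤ 2 * (N + 1) / max 1 |u| := by
  have hN : (0 : ℝ) ≤ N := Nat.cast_nonneg N
  rcases le_total |u| 1 with h | h
  · rw [max_eq_left h, div_one]
    have := intervalIntegral.norm_integral_le_of_norm_le_const (a := (1 : ℝ)) (b := N + 1) (C := 1)
      (f := fun v => ee u (Real.log v)) (fun v _ => (ee_norm u _).le)
    rw [one_mul, abs_of_nonneg (by linarith)] at this
    linarith
  · rw [max_eq_right h]
    have h1 : ∫ v in (1 : ℝ)..(N + 1), ee u (Real.log v) = ∫ v in (1 : ℝ)..(N + 1), (v : ℂ) ^ (-(u : ℂ) * Complex.I) := by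
      apply intervalIntegral.integral_congr
      intro v hv
      rw [Set.uIcc_of_le (by linarith)] at hv
      exact ee_log u v (by linarith [hv.1])
    have hre : (-(u : ℂ) * Complex.I).re = 0 := by simp
    rw [h1, integral_cpow (Or.inl (by rw [hre]; norm_num))]
    have hd : |u| ≤ ‖-(u : ℂ) * Complex.I + 1‖ := by
      have h2 := Complex.abs_im_le_norm (-(u : ℂ) * Complex.I + 1)
      have h3 : (-(u : ℂ) * Complex.I + 1).im = -u := by simp
      rwa [h3, abs_neg] at h2
    have hu0 : 0 < |u| := by linarith
    rw [norm_div]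
    have hnum : ‖((N + 1 : ℝ) : ℂ) ^ (-(u : ℂ) * Complex.I + 1) - ((1 : ℝ) : ℂ) ^ (-(u : ℂ) * Complex.I + 1)‖ ≤ 2 * (N + 1) := by
      refine (norm_sub_le _ _).trans ?_
      rw [Complex.norm_cpow_eq_rpow_re_of_pos (by linarith), Complex.norm_cpow_eq_rpow_re_of_pos (by norm_num)]
      have h4 : (-(u : ℂ) * Complex.I + 1).re = 1 := by simp
      rw [h4, Real.rpow_one, Real.rpow_one]; linarith
    exact div_le_div₀ (by linarith) hnum hu0 hd

theorem log_sum (M a : ℕ) : ∑ j ∈ range M, 1 / (1 + |(a : ℝ) - j|) ≤ 2 * (1 + Real.log M) := by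
  have hharm : ∀ n : ℕ, ∑ j ∈ range n, 1 / ((j : ℝ) + 1) ≤ 1 + Real.log n := by
    intro n
    have h := harmonic_le_one_add_log n
    have e : ((harmonic n : ℚ) : ℝ) = ∑ j ∈ range n, 1 / ((j : ℝ) + 1) := by
      unfold harmonic; push_cast
      exact sum_congr rfl fun j _ => by rw [one_div]
    rwa [e] at h
  have hnn : ∀ (n : ℕ), 0 ≤ ∑ j ∈ range n, 1 / ((j : ℝ) + 1) := fun n => sum_nonneg fun j _ => by positivity
  have h1 : ∑ j ∈ (range M).filter (fun j => a ≤ j), 1 / (1 + |(a : ℝ) - j|) ≤ ∑ j ∈ range M, 1 / ((j : ℝ) + 1) := by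
    calc ∑ j ∈ (range M).filter (fun j => a ≤ j), 1 / (1 + |(a : ℝ) - j|)
        = ∑ j ∈ ((range M).filter (fun j => a ≤ j)).image (fun j => j - a), 1 / ((j : ℝ) + 1) := by
          rw [sum_image]
          · apply sum_congr rfl
            intro j hj
            have h2 := (mem_filter.1 hj).2
            rw [Nat.cast_sub h2, abs_sub_comm, abs_of_nonneg (by
              have : (a : ℝ) ≤ j := by exact_mod_cast h2
              linarith)]
            congr 1; ring
          · intro x hx y hy hxy
            have h2 := (mem_filter.1 hx).2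
            have h3 := (mem_filter.1 hy).2
            simp only at hxy
            omega
      _ ≤ ∑ j ∈ range M, 1 / ((j : ℝ) + 1) := by
          apply sum_le_sum_of_subset_of_nonneg
          · intro j hj
            obtain ⟨i, hi, rfl⟩ := mem_image.1 hj
            have := mem_range.1 (mem_filter.1 hi).1
            exact mem_range.2 (by omega)
          · intro j _ _; positivity
  have h2 : ∑ j ∈ (range M).filter (fun j => ¬ a ≤ j), 1 / (1 + |(a : ℝ) - j|) ≤ ∑ j ∈ range M, 1 / ((j : ℝ) + 1) := by
    rcases le_total a M with haM | haM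
    · calc ∑ j ∈ (range M).filter (fun j => ¬ a ≤ j), 1 / (1 + |(a : ℝ) - j|)
          ≤ ∑ j ∈ ((range M).filter (fun j => ¬ a ≤ j)).image (fun j => a - j - 1), 1 / ((j : ℝ) + 1) := by
            rw [sum_image]
            · apply sum_le_sum
              intro j hj
              have h2 : j < a := by simpa using (mem_filter.1 hj).2
              have h3 : ((a - j - 1 : ℕ) : ℝ) = a - j - 1 := by
                rw [Nat.cast_sub (by omega), Nat.cast_sub h2.le]; push_cast; ring
              rw [h3, abs_of_nonneg (by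
                have : (j : ℝ) ≤ a := by exact_mod_cast h2.le
                linarith)]
              have h4 : (j : ℝ) + 1 ≤ a := by exact_mod_cast h2
              apply one_div_le_one_div_of_le (by linarith)
              linarith
            · intro x hx y hy hxy
              have h2 : x < a := by simpa using (mem_filter.1 hx).2
              have h3 : y < a := by simpa using (mem_filter.1 hy).2
              simp only at hxy
              omega
        _ ≤ ∑ j ∈ range M, 1 / ((j : ℝ) + 1) := by
            apply sum_le_sum_of_subset_of_nonneg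
            · intro j hj
              obtain ⟨i, hi, rfl⟩ := mem_image.1 hj
              have h2 : i < a := by simpa using (mem_filter.1 hi).2
              exact mem_range.2 (by omega)
            · intro j _ _; positivity
    · calc ∑ j ∈ (range M).filter (fun j => ¬ a ≤ j), 1 / (1 + |(a : ℝ) - j|)
          ≤ ∑ j ∈ range M, 1 / (1 + |(M : ℝ) - j|) := by
            calc _ ≤ ∑ j ∈ (range M).filter (fun j => ¬ a ≤ j), 1 / (1 + |(M : ℝ) - j|) := by
                  apply sum_le_sum
                  intro j hj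
                  have h3 := mem_range.1 (mem_filter.1 hj).1
                  have h4 : (j : ℝ) ≤ M := by exact_mod_cast h3.le
                  have h5 : (M : ℝ) ≤ a := by exact_mod_cast haM
                  rw [abs_of_nonneg (by linarith), abs_of_nonneg (by linarith)]
                  apply one_div_le_one_div_of_le (by linarith)
                  linarith
              _ ≤ _ := sum_le_sum_of_subset_of_nonneg (filter_subset _ _) (fun j _ _ => by positivity)
        _ = ∑ j ∈ range M, 1 / (1 + |(M : ℝ) - ((M - 1 - j : ℕ) : ℝ)|) := by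
            rw [Finset.sum_range_reflect (fun j => 1 / (1 + |(M : ℝ) - (j : ℝ)|)) M]
        _ ≤ ∑ j ∈ range M, 1 / ((j : ℝ) + 1) := by
            apply sum_le_sum
            intro j hj
            have h3 := mem_range.1 hj
            have h4 : ((M - 1 - j : ℕ) : ℝ) = M - 1 - j := by
              rw [Nat.cast_sub (by omega), Nat.cast_sub (by omega)]; push_cast; ring
            rw [h4, abs_of_nonneg (by ring_nf; positivity)]
            apply one_div_le_one_div_of_le (by positivity)
            ring_nf; linarith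
  have h3 := sum_filter_add_sum_filter_not (range M) (fun j => a ≤ j) (fun j => 1 / (1 + |(a : ℝ) - (j : ℝ)|))
  have h4 := hharm M
  linarith

/-- The sum over a well-spaced family. -/
theorem rowsum {ι : Type*} (s : Finset ι) (τ : ι → ℝ) (M : ℕ) (h0 : ∀ i ∈ s, 0 ≤ τ i) (hM : ∀ i ∈ s, 2 * τ i < M)
    (hsp : ∀ i ∈ s, ∀ j ∈ s, i ≠ j → 1 / 2 ≤ |τ i - τ j|) (t0 : ℝ) (ht0 : 0 ≤ t0) :
    ∑ i ∈ s, 1 / max 1 |t0 - τ i| ≤ 8 * (1 + Real.log M) := by
  classical
  set ν : ι → ℕ := fun i => ⌊2 * τ i⌋₊ with hν
  set a := ⌊2 * t0⌋₊ with ha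
  have hinj : ∀ i ∈ s, ∀ j ∈ s, ν i = ν j → i = j := by
    intro i hi j hj hij
    by_contra hne
    have h1 := hsp i hi j hj hne
    have h2 := Nat.floor_le (by linarith [h0 i hi] : 0 ≤ 2 * τ i)
    have h3 := Nat.lt_floor_add_one (2 * τ i)
    have h4 := Nat.floor_le (by linarith [h0 j hj] : 0 ≤ 2 * τ j)
    have h5 := Nat.lt_floor_add_one (2 * τ j)
    simp only [hν] at hij
    rw [hij] at h2 h3
    have h6 : |τ i - τ j| < 1 / 2 := by
      rw [abs_lt]; constructor <;> linarith
    linarith
  calc ∑ i ∈ s, 1 / max 1 |t0 - τ i| ≤ ∑ i ∈ s, 4 * (1 / (1 + |(a : ℝ) - ν i|)) := by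
        apply sum_le_sum
        intro i hi
        have h2 := Nat.floor_le (by linarith [h0 i hi] : 0 ≤ 2 * τ i)
        have h3 := Nat.lt_floor_add_one (2 * τ i)
        have h4 := Nat.floor_le (by linarith : 0 ≤ 2 * t0)
        have h5 := Nat.lt_floor_add_one (2 * t0)
        have h6 : |(a : ℝ) - ν i| ≤ 2 * |t0 - τ i| + 1 := by
          rw [abs_le]
          have h7 := le_abs_self (t0 - τ i)
          have h8 := neg_abs_le (t0 - τ i)
          simp only [ha, hν]
          constructor <;> linarith
        rw [mul_one_div]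
        rw [div_le_div_iff₀ (by positivity) (by positivity), one_mul]
        have h9 := le_max_left 1 |t0 - τ i|
        have h10 := le_max_right 1 |t0 - τ i|
        linarith
    _ = 4 * ∑ i ∈ s, 1 / (1 + |(a : ℝ) - ν i|) := by rw [mul_sum]
    _ = 4 * ∑ j ∈ s.image ν, 1 / (1 + |(a : ℝ) - j|) := by
        rw [sum_image (fun i hi j hj h => hinj i hi j hj h)]
    _ ≤ 4 * ∑ j ∈ range M, 1 / (1 + |(a : ℝ) - j|) := by
        apply mul_le_mul_of_nonneg_left _ (by norm_num)
        apply sum_le_sum_of_subset_of_nonneg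
        · intro j hj
          obtain ⟨i, hi, rfl⟩ := mem_image.1 hj
          rw [mem_range]
          have h2 := Nat.floor_le (by linarith [h0 i hi] : 0 ≤ 2 * τ i)
          exact_mod_cast h2.trans_lt (hM i hi)
        · intro j _ _; positivity
    _ ≤ 4 * (2 * (1 + Real.log M)) := mul_le_mul_of_nonneg_left (log_sum M a) (by norm_num)
    _ = _ := by ring

end Pool.Agent.U160.RF
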