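import Pool.Agent.U160.RF.Prob

/-!
# Random frequencies: large values and the large sieve inequality for good sequences
-/

set_option autoImplicit false

namespace Pool.Agent.U160.RF

open MeasureTheory Finset Filter

/-- the Dirichlet polynomial with the random frequencies -/
noncomputable def DD (b : ℕ → ℂ) (θ : ℕ → ℝ) (N : ℕ) (t : ℝ) : ℂ := ∑ k ∈ range N, b k * ee t (lam k θ)

/-- the mean square of the coefficients -/
noncomputable def nb (b : ℕ → ℂ) (N : ℕ) : ℝ := ∑ k ∈ range N, ‖b k‖ ^ 2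

theorem nb_nonneg (b : ℕ → ℂ) (N : ℕ) : 0 ≤ nb b N := sum_nonneg fun k _ => sq_nonneg _

theorem quarter (z : ℂ) : ∃ c : Fin 4, ‖z‖ ^ 2 ≤ 2 * (Complex.I ^ (c : ℕ) * z).re ^ 2 ∧ 0 ≤ (Complex.I ^ (c : ℕ) * z).re := by
  have hn : ‖z‖ ^ 2 = z.re ^ 2 + z.im ^ 2 := by
    rw [← Complex.normSq_eq_norm_sq, Complex.normSq_apply]; ring
  rw [hn]
  rcases le_total (z.im ^ 2) (z.re ^ 2) with h | h
  · rcases le_total 0 z.re with h0 | h0
    · refine ⟨0, ?_, ?_⟩
      · simp; linarith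
      · simpa using h0
    · refine ⟨2, ?_, ?_⟩
      · simp; linarith
      · simpa using h0
  · rcases le_total 0 z.im with h0 | h0
    · refine ⟨3, ?_, ?_⟩
      · have : (Complex.I ^ ((3 : Fin 4) : ℕ) * z).re = z.im := by
          have e3 : ((3 : Fin 4) : ℕ) = 3 := rfl
          rw [e3, Complex.I_pow_three]; simp
        rw [this]; linarith
      · have : (Complex.I ^ ((3 : Fin 4) : ℕ) * z).re = z.im := by
          have e3 : ((3 : Fin 4) : ℕ) = 3 := rfl
          rw [e3, Complex.I_pow_three]; simp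
        rw [this]; exact h0
    · refine ⟨1, ?_, ?_⟩
      · simp; linarith
      · simpa using h0

/-- Duality. -/
theorem dual (b : ℕ → ℂ) (θ : ℕ → ℝ) (N : ℕ) (S : Finset ℝ) (τ : ℝ → ℝ) (G : ℝ)
    (hG : ∀ c : ℝ → Fin 4, ∑ k ∈ range N, ‖∑ t ∈ S, Complex.I ^ (c t : ℕ) * ee (τ t) (lam k θ)‖ ^ 2 ≤ G) :
    (∑ t ∈ S, ‖DD b θ N (τ t)‖) ^ 2 ≤ 2 * nb b N * G := by
  choose c hc1 hc2 using fun t : ℝ => quarter (DD b θ N (τ t))
  have h1 : ∀ t, ‖DD b θ N (τ t)‖ ≤ Real.sqrt 2 * (Complex.I ^ (c t : ℕ) * DD b θ N (τ t)).re := by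
    intro t
    apply le_of_sq_le_sq _ (mul_nonneg (Real.sqrt_nonneg _) (hc2 t))
    rw [mul_pow, Real.sq_sqrt (by norm_num)]
    exact hc1 t
  have h2 : ∑ t ∈ S, Complex.I ^ (c t : ℕ) * DD b θ N (τ t) =
      ∑ k ∈ range N, b k * ∑ t ∈ S, Complex.I ^ (c t : ℕ) * ee (τ t) (lam k θ) := by
    unfold DD
    simp_rw [mul_sum]
    rw [sum_comm]
    apply sum_congr rfl; intro k _
    apply sum_congr rfl; intro t _
    ring
  set K : ℕ → ℂ := fun k => ∑ t ∈ S, Complex.I ^ (c t : ℕ) * ee (τ t) (lam k θ) with hK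
  have h3 : ∑ t ∈ S, ‖DD b θ N (τ t)‖ ≤ Real.sqrt 2 * ‖∑ k ∈ range N, b k * K k‖ := by
    calc ∑ t ∈ S, ‖DD b θ N (τ t)‖ ≤ ∑ t ∈ S, Real.sqrt 2 * (Complex.I ^ (c t : ℕ) * DD b θ N (τ t)).re :=
          sum_le_sum fun t _ => h1 t
      _ = Real.sqrt 2 * (∑ t ∈ S, Complex.I ^ (c t : ℕ) * DD b θ N (τ t)).re := by
          rw [← mul_sum, Complex.re_sum]
      _ ≤ Real.sqrt 2 * ‖∑ t ∈ S, Complex.I ^ (c t : ℕ) * DD b θ N (τ t)‖ :=
          mul_le_mul_of_nonneg_left (Complex.re_le_norm _) (Real.sqrt_nonneg _)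
      _ = _ := by rw [h2]
  have h4 : ‖∑ k ∈ range N, b k * K k‖ ^ 2 ≤ nb b N * ∑ k ∈ range N, ‖K k‖ ^ 2 := by
    calc ‖∑ k ∈ range N, b k * K k‖ ^ 2 ≤ (∑ k ∈ range N, ‖b k‖ * ‖K k‖) ^ 2 := by
          apply pow_le_pow_left₀ (norm_nonneg _)
          refine (norm_sum_le _ _).trans (le_of_eq ?_)
          exact sum_congr rfl fun k _ => norm_mul _ _
      _ ≤ (∑ k ∈ range N, ‖b k‖ ^ 2) * ∑ k ∈ range N, ‖K k‖ ^ 2 := sum_mul_sq_le_sq_mul_sq _ _ _
      _ = _ := rfl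
  calc (∑ t ∈ S, ‖DD b θ N (τ t)‖) ^ 2 ≤ (Real.sqrt 2 * ‖∑ k ∈ range N, b k * K k‖) ^ 2 :=
        pow_le_pow_left₀ (sum_nonneg fun t _ => norm_nonneg _) h3 2
    _ = 2 * ‖∑ k ∈ range N, b k * K k‖ ^ 2 := by rw [mul_pow, Real.sq_sqrt (by norm_num)]
    _ ≤ 2 * (nb b N * G) := by
        apply mul_le_mul_of_nonneg_left _ (by norm_num)
        exact h4.trans (mul_le_mul_of_nonneg_left (hG c) (nb_nonneg b N))
    _ = _ := by ring

/-- separated points -/
def Sep (S : Finset ℝ) : Prop := ∀ t ∈ S, ∀ u ∈ S, t ≠ u → 1 ≤ |t - u|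

theorem sep_card (S : Finset ℝ) (hS : Sep S) (M : ℕ) (h0 : ∀ t ∈ S, 0 ≤ t ∧ t ≤ M) : S.card ≤ M + 1 := by
  classical
  have hinj : ∀ t ∈ S, ∀ u ∈ S, ⌊t⌋₊ = ⌊u⌋₊ → t = u := by
    intro t ht u hu h
    by_contra hne
    have h1 := hS t ht u hu hne
    have h2 := Nat.floor_le (h0 t ht).1
    have h3 := Nat.lt_floor_add_one t
    have h4 := Nat.floor_le (h0 u hu).1
    have h5 := Nat.lt_floor_add_one u
    rw [h] at h2 h3
    have h6 : |t - u| < 1 := by rw [abs_lt]; constructor <;> linarith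
    linarith
  calc S.card = (S.image (fun t => ⌊t⌋₊)).card := by
        rw [card_image_of_injOn]; intro t ht u hu h; exact hinj t ht u hu h
    _ ≤ (range (M + 1)).card := by
        apply card_le_card
        intro j hj
        obtain ⟨t, ht, rfl⟩ := mem_image.1 hj
        rw [mem_range, Nat.lt_succ_iff]
        exact Nat.floor_le_of_le (h0 t ht).2
    _ = M + 1 := card_range _

/-- the grid point below `t` -/
noncomputable def gp (N : ℕ) (t : ℝ) : ℝ := (⌊t * qq N⌋₊ : ℝ) / qq N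

theorem gp_near (N : ℕ) (hN : 2 ≤ N) (t : ℝ) (ht : 0 ≤ t) : gp N t ≤ t ∧ t ≤ gp N t + 1 / qq N := by
  have hq : (0 : ℝ) < qq N := by
    have : 0 < qq N := by unfold qq; positivity
    exact_mod_cast this
  unfold gp
  have h1 := Nat.floor_le (by positivity : 0 ≤ t * qq N)
  have h2 := Nat.lt_floor_add_one (t * qq N)
  constructor
  · rw [div_le_iff₀ hq]; exact h1
  · rw [← add_div, le_div_iff₀ hq]; exact h2.le

theorem tuple (B N : ℕ) (hN : 2 ≤ N) (S : Finset ℝ) (hS : Sep S) (h0 : ∀ t ∈ S, 0 ≤ t ∧ t ≤ (N : ℝ) ^ B) (L : ℕ)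
    (hL : S.card ≤ 2 ^ L) (c : ℝ → Fin 4) : ∃ x : Fin (2 ^ L) → Option (Fin 4 × Fin (mg B N)), Sp (qq N) x ∧
      ∀ v, KK (gg (qq N) (mg B N)) x v = ∑ t ∈ S, Complex.I ^ (c t : ℕ) * ee (gp N t) v := by
  classical
  have hq0 : 0 < qq N := by unfold qq; positivity
  have hq : (0 : ℝ) < qq N := by exact_mod_cast hq0
  have hlt : ∀ t ∈ S, ⌊t * qq N⌋₊ < mg B N := by
    intro t ht
    rw [Nat.floor_lt (by have := (h0 t ht).1; positivity)]
    unfold mg
    push_cast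
    apply mul_lt_mul_of_pos_right _ hq
    linarith [(h0 t ht).2]
  let e : Fin S.card ≃ S := S.equivFin.symm
  let f : ℕ → Option (Fin 4 × Fin (mg B N)) := fun k => if h : k < S.card then
    some (c (e ⟨k, h⟩), ⟨⌊((e ⟨k, h⟩ : S) : ℝ) * qq N⌋₊, hlt _ (e ⟨k, h⟩).2⟩) else none
  refine ⟨fun k => f k, ?_, ?_⟩
  · intro k k' hkk hk hk'
    have hk1 : (k : ℕ) < S.card := by
      by_contra h
      exact hk (by simp only [f, h, dif_neg, not_false_eq_true])
    have hk2 : (k' : ℕ) < S.card := by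
      by_contra h
      exact hk' (by simp only [f, h, dif_neg, not_false_eq_true])
    simp only [f, hk1, hk2, dif_pos, tim]
    set t := e ⟨k, hk1⟩ with ht
    set u := e ⟨k', hk2⟩ with hu
    have hne : (t : ℝ) ≠ u := by
      intro h
      have h1 : t = u := Subtype.ext h
      have h2 := e.injective h1
      have h3 : (k : ℕ) = k' := by simpa using h2
      exact hkk (Fin.ext h3)
    have h1 := hS t t.2 u u.2 hne
    have h2 := gp_near N hN t (h0 t t.2).1
    have h3 := gp_near N hN u (h0 u u.2).1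
    have h4 : (1 : ℝ) / qq N ≤ 1 / 2 := by
      apply one_div_le_one_div_of_le (by norm_num)
      have : 2 ≤ qq N := by unfold qq; nlinarith
      exact_mod_cast this
    unfold gp at h2 h3
    rcases le_abs.1 h1 with h | h
    · rw [le_abs]; left; linarith [h2.1, h2.2, h3.1, h3.2]
    · rw [le_abs]; right; linarith [h2.1, h2.2, h3.1, h3.2]
  · intro v
    unfold KK
    have h1 : ∑ k : Fin (2 ^ L), gg (qq N) (mg B N) (f k) v = ∑ k ∈ range (2 ^ L), gg (qq N) (mg B N) (f k) v :=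
      Fin.sum_univ_eq_sum_range (fun k => gg (qq N) (mg B N) (f k) v) (2 ^ L)
    have h2 : ∑ k ∈ range (2 ^ L), gg (qq N) (mg B N) (f k) v = ∑ k ∈ range S.card, gg (qq N) (mg B N) (f k) v := by
      symm
      apply sum_subset (range_subset_range.2 hL)
      intro k _ hk
      have : ¬ k < S.card := by simpa using hk
      simp only [f, this, dif_neg, not_false_eq_true]
      rfl
    have h3 : ∑ k ∈ range S.card, gg (qq N) (mg B N) (f k) v = ∑ k : Fin S.card, gg (qq N) (mg B N) (f k) v :=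
      (Fin.sum_univ_eq_sum_range (fun k => gg (qq N) (mg B N) (f k) v) S.card).symm
    have h4 : ∑ k : Fin S.card, gg (qq N) (mg B N) (f k) v =
        ∑ k : Fin S.card, (fun t : S => Complex.I ^ (c t : ℕ) * ee (gp N t) v) (e k) := by
      apply sum_congr rfl
      intro k _
      have : (k : ℕ) < S.card := k.2
      simp only [f, this, dif_pos, gg, gp]
    have h5 := Equiv.sum_comp e (fun t : S => Complex.I ^ (c t : ℕ) * ee (gp N t) v)
    rw [h1, h2, h3, h4]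
    exact h5.trans (Finset.sum_coe_sort S (fun t => Complex.I ^ (c t : ℕ) * ee (gp N t) v))

theorem disc (b : ℕ → ℂ) (θ : ℕ → ℝ) (N : ℕ) (hN : 2 ≤ N) (t : ℝ) (ht : 0 ≤ t) :
    ‖DD b θ N t - DD b θ N (gp N t)‖ ≤ Real.sqrt (nb b N) / 2 := by
  have hN2 : (2 : ℝ) ≤ N := by exact_mod_cast hN
  have hN0 : (0 : ℝ) < N := by linarith
  have hq : (qq N : ℝ) = 2 * (N : ℝ) ^ 2 := by unfold qq; push_cast; ring
  have h1 := gp_near N hN t ht
  have hab : |t - gp N t| ≤ 1 / (2 * (N : ℝ) ^ 2) := by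
    rw [← hq, abs_of_nonneg (by linarith [h1.1])]; linarith [h1.2]
  have h2 : ∀ k ∈ range N, ‖b k * ee t (lam k θ) - b k * ee (gp N t) (lam k θ)‖ ≤ ‖b k‖ * (1 / (2 * N)) := by
    intro k hk
    rw [← mul_sub, norm_mul]
    apply mul_le_mul_of_nonneg_left _ (norm_nonneg _)
    have h3 : ee t (lam k θ) - ee (gp N t) (lam k θ) = ee (lam k θ) t - ee (lam k θ) (gp N t) := by
      unfold ee; congr 2 <;> congr 1 <;> push_cast <;> ring
    rw [h3]
    refine (ee_lip _ _ _).trans ?_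
    have h4 := lam_bd k N (mem_range.1 hk) θ
    rw [abs_of_nonneg h4.1]
    calc lam k θ * |t - gp N t| ≤ N * (1 / (2 * (N : ℝ) ^ 2)) := mul_le_mul h4.2 hab (abs_nonneg _) hN0.le
      _ = 1 / (2 * N) := by field_simp
  calc ‖DD b θ N t - DD b θ N (gp N t)‖ ≤ ∑ k ∈ range N, ‖b k‖ * (1 / (2 * N)) := by
        unfold DD
        rw [← sum_sub_distrib]
        exact (norm_sum_le _ _).trans (sum_le_sum h2)
    _ = (∑ k ∈ range N, ‖b k‖) * (1 / (2 * N)) := by rw [sum_mul]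
    _ ≤ (Real.sqrt N * Real.sqrt (nb b N)) * (1 / (2 * N)) := by
        apply mul_le_mul_of_nonneg_right _ (by positivity)
        apply le_of_sq_le_sq _ (by positivity)
        rw [mul_pow, Real.sq_sqrt hN0.le, Real.sq_sqrt (nb_nonneg b N)]
        have := sum_mul_sq_le_sq_mul_sq (range N) (fun _ => (1 : ℝ)) (fun k => ‖b k‖)
        simpa [nb] using this
    _ ≤ Real.sqrt (nb b N) / 2 := by
        have h5 : Real.sqrt N ≤ N := by
          rw [Real.sqrt_le_left hN0.le]; nlinarith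
        have h6 : Real.sqrt N * (1 / (2 * N)) ≤ 1 / 2 := by
          rw [mul_one_div, div_le_div_iff₀ (by positivity) (by norm_num)]; linarith
        have h7 := Real.sqrt_nonneg (nb b N)
        nlinarith

theorem exists_L (n : ℕ) (hn : 0 < n) : ∃ L, n ≤ 2 ^ L ∧ 2 ^ L ≤ 2 * n := by
  refine ⟨Nat.clog 2 n, Nat.le_pow_clog (by norm_num) n, ?_⟩
  rcases Nat.lt_or_ge 1 n with h | h
  · have h1 := Nat.pow_pred_clog_lt_self (b := 2) (by norm_num) h
    have h2 : 0 < Nat.clog 2 n := Nat.clog_pos (by norm_num) h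
    calc 2 ^ Nat.clog 2 n = 2 * 2 ^ (Nat.clog 2 n).pred := by
          rw [← pow_succ']
          congr 1
          exact (Nat.succ_pred_eq_of_pos h2).symm
      _ ≤ 2 * n := Nat.mul_le_mul_left _ h1.le
  · have : n = 1 := by omega
    subst this; simp

/-- **Large values at a good scale.** -/
theorem large (B N : ℕ) (hN : 2 ≤ N) (θ : ℕ → ℝ) (hθ : Good B N θ) (b : ℕ → ℂ) (S : Finset ℝ) (hS : Sep S)
    (h0 : ∀ t ∈ S, 0 ≤ t ∧ t ≤ (N : ℝ) ^ B) (V : ℝ) (hV : nb b N ≤ V ^ 2) (hV0 : 0 ≤ V)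
    (hD : ∀ t ∈ S, V ≤ ‖DD b θ N t‖) (hel : 1 ≤ el B N) :
    S.card * V ^ 2 ≤ 100000000 * (nb b N * ((N + S.card) * el B N ^ 4)) := by
  classical
  rcases S.eq_empty_or_nonempty with hSe | hSne
  · subst hSe
    have := nb_nonneg b N
    simp
    positivity
  have hcard : 0 < S.card := hSne.card_pos
  obtain ⟨L, hL1, hL2⟩ := exists_L S.card hcard
  have hcle : S.card ≤ N ^ B + 1 := sep_card S hS (N ^ B) (fun t ht => by
    refine ⟨(h0 t ht).1, ?_⟩
    push_cast; exact (h0 t ht).2)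
  have hG : ∀ c : ℝ → Fin 4, ∑ k ∈ range N, ‖∑ t ∈ S, Complex.I ^ (c t : ℕ) * ee (gp N t) (lam k θ)‖ ^ 2 ≤ Smin B N L := by
    intro c
    obtain ⟨x, hx1, hx2⟩ := tuple B N hN S hS h0 L hL1 c
    have := hθ L (hL2.trans (Nat.mul_le_mul_left _ hcle)) x hx1
    unfold AA at this
    simp_rw [hx2] at this
    exact this
  have h1 := dual b θ N S (gp N) (Smin B N L) hG
  have hsq : Real.sqrt (nb b N) ≤ V := Real.sqrt_le_iff.2 ⟨hV0, hV⟩
  have h2 : ∀ t ∈ S, V / 2 ≤ ‖DD b θ N (gp N t)‖ := by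
    intro t ht
    have h3 := disc b θ N hN t (h0 t ht).1
    have h4 := hD t ht
    have h5 : ‖DD b θ N t‖ ≤ ‖DD b θ N t - DD b θ N (gp N t)‖ + ‖DD b θ N (gp N t)‖ := by
      have := norm_add_le (DD b θ N t - DD b θ N (gp N t)) (DD b θ N (gp N t))
      rwa [sub_add_cancel] at this
    linarith
  have h6 : (S.card * (V / 2)) ^ 2 ≤ 2 * nb b N * Smin B N L := by
    refine le_trans (pow_le_pow_left₀ (by positivity) ?_ 2) h1
    calc (S.card : ℝ) * (V / 2) = ∑ _t ∈ S, V / 2 := by rw [sum_const, nsmul_eq_mul]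
      _ ≤ _ := sum_le_sum h2
  have hc1 : (1 : ℝ) ≤ S.card := by exact_mod_cast hcard
  have hpow : (2 : ℝ) ^ L ≤ 2 * S.card := by exact_mod_cast hL2
  have h7 : Smin B N L ≤ 2 * S.card * (128 * N * el B N) + 2560000 * (4 * (S.card : ℝ) ^ 2) * el B N ^ 4 := by
    unfold Smin
    have h8 : (4 : ℝ) ^ L ≤ 4 * (S.card : ℝ) ^ 2 := by
      calc (4 : ℝ) ^ L = (2 ^ L) ^ 2 := by rw [← pow_mul, mul_comm L 2, pow_mul]; norm_num
        _ ≤ (2 * S.card) ^ 2 := pow_le_pow_left₀ (by positivity) hpow 2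
        _ = _ := by ring
    apply add_le_add
    · exact mul_le_mul_of_nonneg_right hpow (by positivity)
    · apply mul_le_mul_of_nonneg_right _ (by positivity)
      linarith
  have hel4 : el B N ≤ el B N ^ 4 := by
    calc el B N = el B N ^ 1 := (pow_one _).symm
      _ ≤ el B N ^ 4 := pow_le_pow_right₀ hel (by norm_num)
  have hnb := nb_nonneg b N
  have h9 : (S.card : ℝ) ^ 2 * V ^ 2 ≤ 100000000 * (nb b N * ((N + S.card) * el B N ^ 4)) * S.card := by
    have e1 : (S.card : ℝ) ^ 2 * V ^ 2 = 4 * (S.card * (V / 2)) ^ 2 := by ring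
    rw [e1]
    calc 4 * (S.card * (V / 2)) ^ 2 ≤ 4 * (2 * nb b N * Smin B N L) := by linarith
      _ ≤ 4 * (2 * nb b N * (2 * S.card * (128 * N * el B N) + 2560000 * (4 * (S.card : ℝ) ^ 2) * el B N ^ 4)) := by
          apply mul_le_mul_of_nonneg_left _ (by norm_num)
          exact mul_le_mul_of_nonneg_left h7 (by positivity)
      _ = (2048 * (N * el B N) + 81920000 * (S.card * el B N ^ 4)) * (nb b N * S.card) := by ring
      _ ≤ (100000000 * ((N + S.card) * el B N ^ 4)) * (nb b N * S.card) := by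
          apply mul_le_mul_of_nonneg_right _ (by positivity)
          have hN0 : (0 : ℝ) ≤ N := Nat.cast_nonneg N
          have h10 := mul_le_mul_of_nonneg_left hel4 hN0
          have h11 : 0 ≤ (N : ℝ) * el B N ^ 4 := by positivity
          have h12 : 0 ≤ (S.card : ℝ) * el B N ^ 4 := by positivity
          nlinarith
      _ = _ := by ring
  have h13 : (S.card * V ^ 2) * S.card ≤ 100000000 * (nb b N * ((N + S.card) * el B N ^ 4)) * S.card := by
    calc _ = (S.card : ℝ) ^ 2 * V ^ 2 := by ring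
      _ ≤ _ := h9
  exact le_of_mul_le_mul_right h13 (by linarith)

end Pool.Agent.U160.RF
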