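import Pool.Agent.U160.RF.Nets
import Pool.Agent.U160.RF.Kern

/-!
# Random frequencies: the atoms and the mean value
-/

set_option autoImplicit false

namespace Pool.Agent.U160.RF

open MeasureTheory Finset

/-- the atoms: `i ^ c v^{-i j / q}` and zero -/
noncomputable def gg (q Mg : ℕ) : Option (Fin 4 × Fin Mg) → ℝ → ℂ
  | none, _ => 0
  | some (c, j), v => Complex.I ^ (c : ℕ) * ee ((j : ℕ) / q) v

theorem ee_cont (u : ℝ) : Continuous (ee u) := by
  unfold ee; fun_prop

theorem gg_cont (q Mg : ℕ) (a : Option (Fin 4 × Fin Mg)) : Continuous (gg q Mg a) := by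
  rcases a with _ | ⟨c, j⟩
  · exact continuous_const
  · exact continuous_const.mul (ee_cont _)

theorem gg_norm (q Mg : ℕ) (a : Option (Fin 4 × Fin Mg)) (v : ℝ) : ‖gg q Mg a v‖ ≤ 1 := by
  rcases a with _ | ⟨c, j⟩
  · simp [gg]
  · simp [gg, ee_norm]

theorem ee_lip (u v v' : ℝ) : ‖ee u v - ee u v'‖ ≤ |u| * |v - v'| := by
  have h1 : ee u v - ee u v' = ee u v' * (Complex.exp (Complex.I * ((-(u * (v - v')) : ℝ) : ℂ)) - 1) := by
    unfold ee
    rw [mul_sub, ← Complex.exp_add, mul_one]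
    congr 2
    push_cast; ring
  rw [h1, norm_mul, ee_norm, one_mul]
  refine (Real.norm_exp_I_mul_ofReal_sub_one_le).trans ?_
  rw [Real.norm_eq_abs, abs_neg, abs_mul]

theorem gg_lip (q Mg : ℕ) (hq : 0 < q) (T : ℝ) (hT : (Mg : ℝ) ≤ q * T) (a : Option (Fin 4 × Fin Mg)) (v v' : ℝ) :
    ‖gg q Mg a v - gg q Mg a v'‖ ≤ T * |v - v'| := by
  have hT0 : 0 ≤ T := by
    have h1 : (0 : ℝ) < q := by exact_mod_cast hq
    have h2 : (0 : ℝ) ≤ q * T := (Nat.cast_nonneg _).trans hT
    exact nonneg_of_mul_nonneg_right h2 h1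
  rcases a with _ | ⟨c, j⟩
  · simp only [gg, sub_self, norm_zero]; positivity
  · simp only [gg]
    rw [← mul_sub, norm_mul]
    have : ‖Complex.I ^ (c : ℕ)‖ = 1 := by simp
    rw [this, one_mul]
    refine (ee_lip _ _ _).trans (mul_le_mul_of_nonneg_right ?_ (abs_nonneg _))
    have hq' : (0 : ℝ) < q := by exact_mod_cast hq
    rw [abs_of_nonneg (by positivity), div_le_iff₀ hq']
    have h3 : ((j : ℕ) : ℝ) ≤ Mg := by exact_mod_cast j.2.le
    linarith

/-- the time of an atom -/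
noncomputable def tim (q : ℕ) {Mg : ℕ} : Option (Fin 4 × Fin Mg) → ℝ
  | none => 0
  | some (_, j) => (j : ℕ) / q

/-- the tuples with well-spaced times -/
def Sp (q : ℕ) {Mg : ℕ} {ι : Type*} (x : ι → Option (Fin 4 × Fin Mg)) : Prop :=
  ∀ k k', k ≠ k' → x k ≠ none → x k' ≠ none → 1 / 2 ≤ |tim q (x k) - tim q (x k')|

theorem ee_mul_conj (u w v : ℝ) : ee u v * (starRingEnd ℂ) (ee w v) = ee (u - w) v := by
  unfold ee
  rw [← Complex.exp_conj, ← Complex.exp_add]
  congr 1
  simp only [map_mul, map_neg, Complex.conj_ofReal, Complex.conj_I]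
  push_cast; ring

theorem int_bound (q Mg M N : ℕ) (hq : 0 < q) (hM : 2 * Mg ≤ M * q) (hM1 : 1 ≤ M) {ι : Type*} [Fintype ι] [DecidableEq ι]
    (x : ι → Option (Fin 4 × Fin Mg)) (hx : Sp q x) :
    ∫ v in (1 : ℝ)..(N + 1), ‖KK (gg q Mg) x (Real.log v)‖ ^ 2 ≤
      Fintype.card ι * (16 * (N + 1) * (1 + Real.log M)) := by
  classical
  have hN : (0 : ℝ) ≤ N := Nat.cast_nonneg N
  have hq' : (0 : ℝ) < q := by exact_mod_cast hq
  have hlog0 : 0 ≤ Real.log M := Real.log_natCast_nonneg M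
  -- continuity on the interval
  have hcl : ContinuousOn (fun v : ℝ => Real.log v) (Set.uIcc (1 : ℝ) (N + 1)) := by
    rw [Set.uIcc_of_le (by linarith)]
    apply ContinuousOn.log continuousOn_id
    intro v hv
    have h0 : (0 : ℝ) < v := by linarith [hv.1]
    exact h0.ne'
  have hca : ∀ a, ContinuousOn (fun v : ℝ => gg q Mg a (Real.log v)) (Set.uIcc (1 : ℝ) (N + 1)) := fun a =>
    (gg_cont q Mg a).comp_continuousOn hcl
  have hpair : ∀ a b, IntervalIntegrable (fun v : ℝ => gg q Mg a (Real.log v) * (starRingEnd ℂ) (gg q Mg b (Real.log v)))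
      volume 1 (N + 1) := fun a b =>
    ((hca a).mul (Complex.continuous_conj.comp_continuousOn (hca b))).intervalIntegrable
  -- the complex identity
  have hid : ((∫ v in (1 : ℝ)..(N + 1), ‖KK (gg q Mg) x (Real.log v)‖ ^ 2 : ℝ) : ℂ) =
      ∑ k, ∑ k', ∫ v in (1 : ℝ)..(N + 1), gg q Mg (x k) (Real.log v) * (starRingEnd ℂ) (gg q Mg (x k') (Real.log v)) := by
    rw [← intervalIntegral.integral_ofReal]
    have e : ∀ v : ℝ, (((‖KK (gg q Mg) x (Real.log v)‖ ^ 2 : ℝ)) : ℂ) =
        ∑ k, ∑ k', gg q Mg (x k) (Real.log v) * (starRingEnd ℂ) (gg q Mg (x k') (Real.log v)) := by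
      intro v
      have h1 : (((‖KK (gg q Mg) x (Real.log v)‖ ^ 2 : ℝ)) : ℂ) =
          KK (gg q Mg) x (Real.log v) * (starRingEnd ℂ) (KK (gg q Mg) x (Real.log v)) := by
        rw [Complex.mul_conj, Complex.normSq_eq_norm_sq]
      rw [h1]
      unfold KK
      rw [map_sum, sum_mul_sum]
    simp_rw [e]
    rw [intervalIntegral.integral_finsetSum]
    · apply sum_congr rfl
      intro k _
      rw [intervalIntegral.integral_finsetSum]
      intro k' _
      exact hpair _ _
    · intro k _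
      apply ContinuousOn.intervalIntegrable
      apply continuousOn_finset_sum
      intro k' _
      exact (hca _).mul (Complex.continuous_conj.comp_continuousOn (hca _))
  have hnn : 0 ≤ ∫ v in (1 : ℝ)..(N + 1), ‖KK (gg q Mg) x (Real.log v)‖ ^ 2 := by
    apply intervalIntegral.integral_nonneg (by linarith)
    intro v _; positivity
  set s := univ.filter (fun k => x k ≠ none) with hs
  set τ : ι → ℝ := fun k => tim q (x k) with hτ
  have hterm : ∀ k k', ‖∫ v in (1 : ℝ)..(N + 1), gg q Mg (x k) (Real.log v) * (starRingEnd ℂ) (gg q Mg (x k') (Real.log v))‖ ≤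
      if x k ≠ none ∧ x k' ≠ none then 2 * (N + 1) * (1 / max 1 |τ k - τ k'|) else 0 := by
    intro k k'
    simp only [hτ]
    rcases hk : x k with _ | ⟨c, j⟩
    · simp [gg]
    · rcases hk' : x k' with _ | ⟨c', j'⟩
      · simp [gg]
      · rw [if_pos ⟨by simp, by simp⟩]
        have e : ∀ v : ℝ, gg q Mg (some (c, j)) (Real.log v) * (starRingEnd ℂ) (gg q Mg (some (c', j')) (Real.log v)) =
            (Complex.I ^ (c : ℕ) * (starRingEnd ℂ) (Complex.I ^ (c' : ℕ))) * ee ((j : ℕ) / q - (j' : ℕ) / q) (Real.log v) := by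
          intro v
          simp only [gg]
          rw [map_mul, ← ee_mul_conj]; ring
        simp_rw [e]
        rw [intervalIntegral.integral_const_mul, norm_mul]
        have h1 : ‖Complex.I ^ (c : ℕ) * (starRingEnd ℂ) (Complex.I ^ (c' : ℕ))‖ = 1 := by simp
        rw [h1, one_mul, mul_one_div]
        exact kern N _
  have hrow : ∀ k ∈ s, ∑ k' ∈ s, 1 / max 1 |τ k - τ k'| ≤ 8 * (1 + Real.log M) := by
    intro k hk
    have ht0 : ∀ k, 0 ≤ τ k := by
      intro k; simp only [hτ]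
      rcases x k with _ | ⟨c, j⟩
      · simp [tim]
      · simp only [tim]; positivity
    apply rowsum s τ M (fun i _ => ht0 i) _ _ (τ k) (ht0 k)
    · intro i hi
      simp only [hτ]
      rcases hxi : x i with _ | ⟨c, j⟩
      · simp only [tim]; rw [mul_zero]; exact_mod_cast hM1
      · simp only [tim]
        rw [← mul_div_assoc, div_lt_iff₀ hq']
        have h1 : ((j : ℕ) : ℝ) < Mg := by exact_mod_cast j.2
        have h2 : (2 * Mg : ℝ) ≤ M * q := by exact_mod_cast hM
        linarith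
    · intro i hi j hj hij
      exact hx i j hij (mem_filter.1 hi).2 (mem_filter.1 hj).2
  have hfin : ∫ v in (1 : ℝ)..(N + 1), ‖KK (gg q Mg) x (Real.log v)‖ ^ 2 ≤
      ∑ k, ∑ k', if x k ≠ none ∧ x k' ≠ none then 2 * (N + 1) * (1 / max 1 |τ k - τ k'|) else 0 := by
    have h1 : ∫ v in (1 : ℝ)..(N + 1), ‖KK (gg q Mg) x (Real.log v)‖ ^ 2 =
        ‖((∫ v in (1 : ℝ)..(N + 1), ‖KK (gg q Mg) x (Real.log v)‖ ^ 2 : ℝ) : ℂ)‖ := by
      rw [Complex.norm_real, Real.norm_eq_abs, abs_of_nonneg hnn]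
    rw [h1, hid]
    refine (norm_sum_le _ _).trans (sum_le_sum fun k _ => (norm_sum_le _ _).trans (sum_le_sum fun k' _ => hterm k k'))
  refine hfin.trans ?_
  have h2 : ∑ k, ∑ k', (if x k ≠ none ∧ x k' ≠ none then 2 * ((N : ℝ) + 1) * (1 / max 1 |τ k - τ k'|) else 0) =
      ∑ k ∈ s, ∑ k' ∈ s, 2 * ((N : ℝ) + 1) * (1 / max 1 |τ k - τ k'|) := by
    rw [hs, sum_filter]
    apply sum_congr rfl
    intro k _
    by_cases hk : x k ≠ none
    · rw [if_pos hk, sum_filter]
      apply sum_congr rfl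
      intro k' _
      by_cases hk' : x k' ≠ none
      · rw [if_pos hk', if_pos ⟨hk, hk'⟩]
      · rw [if_neg hk', if_neg (fun h => hk' h.2)]
    · rw [if_neg hk]
      apply sum_eq_zero
      intro k' _
      rw [if_neg (fun h => hk h.1)]
  rw [h2]
  calc ∑ k ∈ s, ∑ k' ∈ s, 2 * ((N : ℝ) + 1) * (1 / max 1 |τ k - τ k'|)
      ≤ ∑ _k ∈ s, 2 * ((N : ℝ) + 1) * (8 * (1 + Real.log M)) := by
        apply sum_le_sum
        intro k hk
        rw [← mul_sum]
        exact mul_le_mul_of_nonneg_left (hrow k hk) (by linarith)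
    _ = s.card * (16 * (N + 1) * (1 + Real.log M)) := by
        rw [sum_const, nsmul_eq_mul]; ring
    _ ≤ _ := by
        apply mul_le_mul_of_nonneg_right _ (by positivity)
        exact_mod_cast (card_le_univ s)

end Pool.Agent.U160.RF
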