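import Pool.Agent.U160.RF.Sum

set_option autoImplicit false

namespace Pool.Agent.U160.RF

open MeasureTheory Finset Filter

theorem dd_link (θ : ℕ → ℝ) (hθ : ∀ n, θ n ∈ Set.Icc (0 : ℝ) 1) (a : ℕ → ℂ) (N : ℕ) (t : ℝ) :
    ∑ n ∈ Finset.Icc 1 N, a n * ((n + θ n : ℝ) : ℂ) ^ (-((t : ℂ) * Complex.I)) = DD (fun k => a (k + 1)) θ N t := by
  have h1 : Finset.Icc 1 N = (range N).image (· + 1) := by
    ext n; simp only [mem_Icc, mem_image, mem_range]
    constructor
    · intro h; exact ⟨n - 1, by omega, by omega⟩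
    · rintro ⟨k, hk, rfl⟩; omega
  rw [h1, sum_image (fun x _ y _ h => by simpa using h)]
  unfold DD
  apply sum_congr rfl
  intro k _
  have h2 : cl (θ (k + 1)) = θ (k + 1) := cl_eq (hθ _).1 (hθ _).2
  have h3 : (0 : ℝ) < k + 1 + θ (k + 1) := by
    have := (hθ (k + 1)).1
    positivity
  unfold lam
  rw [h2, ee_log t _ h3]
  push_cast
  rw [neg_mul]

theorem dd_nb (a : ℕ → ℂ) (N : ℕ) : ∑ n ∈ Finset.Icc 1 N, ‖a n‖ ^ 2 = nb (fun k => a (k + 1)) N := by
  have h1 : Finset.Icc 1 N = (range N).image (· + 1) := by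
    ext n; simp only [mem_Icc, mem_image, mem_range]
    constructor
    · intro h; exact ⟨n - 1, by omega, by omega⟩
    · rintro ⟨k, hk, rfl⟩; omega
  rw [h1, sum_image (fun x _ y _ h => by simpa using h)]
  rfl

theorem dd_mem : ∀ᵐ θ ∂mu, ∀ n, θ n ∈ Set.Icc (0 : ℝ) 1 := by
  rw [ae_all_iff]
  intro n
  have h1 : mu.map (fun θ => θ n) = nu := by
    unfold mu
    exact Measure.infinitePi_map_eval (fun _ => nu) n
  have h2 : ∀ᵐ x ∂nu, x ∈ Set.Icc (0 : ℝ) 1 := by
    unfold nu
    exact ae_restrict_mem measurableSet_Icc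
  rw [← h1] at h2
  exact ae_of_ae_map (measurable_pi_apply n).aemeasurable h2

/-- from 1-spaced finite sets to measurable sets -/
theorem set_integral_le (f : ℝ → ℝ) (hf : Continuous f) (hf0 : ∀ t, 0 ≤ f t) (A G t₀ : ℝ) (M : ℕ)
    (h : ∀ S : Finset ℝ, (∀ t ∈ S, ∀ u ∈ S, t ≠ u → 1 ≤ |t - u|) → (∀ t ∈ S, t₀ ≤ t ∧ t ≤ t₀ + M) →
      ∑ t ∈ S, f t ≤ G * (A + S.card)) (E : Set ℝ) (hE : MeasurableSet E)
    (hEI : E ⊆ Set.Icc t₀ (t₀ + M)) : ∫ t in E, f t ≤ G * (A + volume.real E) := by
  classical
  set g : ℝ → ℝ := E.indicator f with hg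
  set o : ℝ → ℝ := E.indicator (fun _ => (1 : ℝ)) with ho
  have hI : IntegrableOn f (Set.Icc t₀ (t₀ + M)) := hf.continuousOn.integrableOn_compact isCompact_Icc
  have hEfin : volume E ≠ ⊤ := ne_top_of_le_ne_top (by simp) (measure_mono hEI)
  have hgi : Integrable g := by
    rw [hg, integrable_indicator_iff hE]
    exact hI.mono_set hEI
  have hoi : Integrable o := by
    rw [ho, integrable_indicator_iff hE]
    exact integrableOn_const hEfin
  -- both integrals as sums over unit intervals
  have hcut : ∀ F : ℝ → ℝ, Integrable F → (∀ x, x ∉ E → F x = 0) →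
      ∫ x, F x = ∫ x in t₀..(t₀ + 1), ∑ m ∈ range M, F (x + m) := by
    intro F hF hF0
    have h1 : ∫ x, F x = ∫ x in t₀..(t₀ + M), F x := by
      rw [intervalIntegral.integral_of_le (by linarith [Nat.cast_nonneg (α := ℝ) M]), ← integral_Icc_eq_integral_Ioc]
      rw [setIntegral_eq_integral_of_forall_compl_eq_zero]
      intro x hx
      exact hF0 x (fun hxE => hx (hEI hxE))
    have hii : ∀ a b : ℝ, IntervalIntegrable F volume a b := fun a b => hF.intervalIntegrable
    rw [h1, intervalIntegral.integral_finsetSum]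
    · have h2 : ∀ m : ℕ, ∫ x in t₀..(t₀ + 1), F (x + m) = ∫ x in (t₀ + m)..(t₀ + (m + 1 : ℕ)), F x := by
        intro m
        rw [intervalIntegral.integral_comp_add_right (fun x => F x) (m : ℝ)]
        congr 1
        push_cast; ring
      simp_rw [h2]
      have h3 := intervalIntegral.sum_integral_adjacent_intervals (μ := volume) (f := F) (a := fun m : ℕ => t₀ + m)
        (n := M) (fun m _ => hii _ _)
      simp only [Nat.cast_zero, add_zero] at h3
      exact h3.symm
    · intro m _
      exact ((hF.comp_add_right (m : ℝ))).intervalIntegrable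
  have hgE : ∫ t in E, f t = ∫ x, g x := by rw [hg, integral_indicator hE]
  have hoE : volume.real E = ∫ x, o x := by
    rw [ho, integral_indicator hE, setIntegral_const, smul_eq_mul, mul_one]
  rw [hgE, hoE, hcut g hgi (fun x hx => Set.indicator_of_notMem hx _), hcut o hoi (fun x hx => Set.indicator_of_notMem hx _)]
  have hpoint : ∀ x ∈ Set.Icc t₀ (t₀ + 1), ∑ m ∈ range M, g (x + m) ≤ G * (A + ∑ m ∈ range M, o (x + m)) := by
    intro x hx
    set R : Finset ℕ := (range M).filter (fun m => x + (m : ℝ) ∈ E) with hR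
    have h1 := h (R.image (fun m : ℕ => x + (m : ℝ))) ?_ ?_
    · have hinj : ∀ m ∈ R, ∀ n ∈ R, x + (m : ℝ) = x + (n : ℝ) → m = n := by
        intro m _ n _ hmn
        have : (m : ℝ) = n := by linarith
        exact_mod_cast this
      rw [sum_image hinj, card_image_of_injOn (fun m hm n hn hmn => hinj m hm n hn hmn)] at h1
      have h2 : ∑ m ∈ range M, g (x + m) = ∑ m ∈ R, f (x + m) := by
        rw [hR, sum_filter]
        refine sum_congr rfl fun m _ => ?_
        rw [hg, Set.indicator_apply]
      have h3 : ∑ m ∈ range M, o (x + m) = (R.card : ℝ) := by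
        rw [hR, card_filter]
        push_cast
        refine sum_congr rfl fun m _ => ?_
        rw [ho, Set.indicator_apply]
      rw [h2, h3]
      exact h1
    · intro t ht u hu htu
      rw [mem_image] at ht hu
      obtain ⟨m, _, rfl⟩ := ht
      obtain ⟨n, _, rfl⟩ := hu
      have hmn : (m : ℤ) - n ≠ 0 := by
        intro h0
        apply htu
        have : (m : ℤ) = n := by omega
        have : m = n := by exact_mod_cast this
        rw [this]
      have h4 : 1 ≤ |(m : ℤ) - n| := Int.one_le_abs hmn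
      have h5 : (1 : ℝ) ≤ |(m : ℝ) - n| := by exact_mod_cast h4
      have h6 : x + (m : ℝ) - (x + n) = m - n := by ring
      rw [h6]; exact h5
    · intro t ht
      rw [mem_image] at ht
      obtain ⟨m, hm, rfl⟩ := ht
      rw [hR, mem_filter, mem_range] at hm
      have h7 : (m : ℝ) + 1 ≤ M := by exact_mod_cast hm.1
      have h8 := Nat.cast_nonneg (α := ℝ) m
      constructor <;> linarith [hx.1, hx.2]
  have hsum_int : ∀ F : ℝ → ℝ, Integrable F → IntervalIntegrable (fun x => ∑ m ∈ range M, F (x + m)) volume t₀ (t₀ + 1) := by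
    intro F hF
    have h9 : Integrable (fun x => ∑ m ∈ range M, F (x + m)) := integrable_finset_sum _ fun m _ => hF.comp_add_right (m : ℝ)
    exact h9.intervalIntegrable
  calc ∫ x in t₀..(t₀ + 1), ∑ m ∈ range M, g (x + m) ≤
        ∫ x in t₀..(t₀ + 1), G * (A + ∑ m ∈ range M, o (x + m)) := by
        apply intervalIntegral.integral_mono_on (by linarith) (hsum_int g hgi)
        · exact ((intervalIntegrable_const).add (hsum_int o hoi)).const_mul G
        · exact hpoint
    _ = G * (A + ∫ x in t₀..(t₀ + 1), ∑ m ∈ range M, o (x + m)) := by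
        rw [intervalIntegral.integral_const_mul, intervalIntegral.integral_add intervalIntegrable_const (hsum_int o hoi),
          intervalIntegral.integral_const]
        simp

theorem dd_cont (b : ℕ → ℂ) (θ : ℕ → ℝ) (N : ℕ) : Continuous (fun t => DD b θ N t) := by
  unfold DD ee
  fun_prop

theorem dd_le (b : ℕ → ℂ) (hb : ∀ n, ‖b n‖ ≤ 1) (θ : ℕ → ℝ) (N : ℕ) (t : ℝ) : ‖DD b θ N t‖ ≤ N := by
  unfold DD
  refine (norm_sum_le _ _).trans ?_
  calc ∑ k ∈ range N, ‖b k * ee t (lam k θ)‖ ≤ ∑ k ∈ range N, (1 : ℝ) := by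
        refine sum_le_sum fun k _ => ?_
        rw [norm_mul]
        have h1 : ‖ee t (lam k θ)‖ = 1 := by
          unfold ee
          first
            | exact Complex.norm_exp_ofReal_mul_I _
            | simp [Complex.norm_exp]
        rw [h1, mul_one]
        exact hb k
    _ = N := by simp

/-- all moments from the mean square over measurable sets -/
theorem moments (f : ℝ → ℝ) (hf : Continuous f) (hf0 : ∀ t, 0 ≤ f t) (N : ℝ) (hN : 1 ≤ N) (hfN : ∀ t, f t ≤ N)
    (L : ℝ) (hL : 1 ≤ L) (t₀ T : ℝ) (hT : 0 ≤ T)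
    (h : ∀ E : Set ℝ, MeasurableSet E → E ⊆ Set.Icc t₀ (t₀ + T) → ∫ t in E, f t ^ 2 ≤ L * (N + volume.real E) * N)
    (p : ℝ) (hp : 2 ≤ p) :
    ∫ t in t₀..(t₀ + T), f t ^ p ≤ (2 * L) ^ (p / 2) * (T * N ^ (p / 2) + N ^ p) := by
  have hN0 : 0 < N := by linarith
  set I := Set.Icc t₀ (t₀ + T) with hI
  set E : Set ℝ := {t ∈ I | 2 * L * N ≤ f t ^ 2} with hE
  have hEm : MeasurableSet E := by
    rw [hE]
    have h2 : MeasurableSet {t : ℝ | 2 * L * N ≤ f t ^ 2} := measurableSet_le measurable_const (hf.pow 2).measurable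
    exact measurableSet_Icc.inter h2
  have hEI : E ⊆ I := fun t ht => ht.1
  have hIc : IsCompact I := isCompact_Icc
  have hEfin : volume E ≠ ⊤ := ne_top_of_le_ne_top (by simp [hI]) (measure_mono hEI)
  have h1 := h E hEm hEI
  have hfp : Continuous (fun t => f t ^ p) := hf.rpow_const (fun t => Or.inr (by linarith))
  have h2 : 2 * L * N * volume.real E ≤ ∫ t in E, f t ^ 2 := by
    have h3 : ∫ t in E, (2 * L * N) ≤ ∫ t in E, f t ^ 2 := by
      apply setIntegral_mono_on
      · exact integrableOn_const hEfin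
      · exact ((hf.pow 2).continuousOn.integrableOn_compact hIc).mono_set hEI
      · exact hEm
      · intro t ht
        exact ht.2
    rw [setIntegral_const, smul_eq_mul] at h3
    linarith
  have hE0 : 0 ≤ volume.real E := measureReal_nonneg
  have h4 : volume.real E ≤ N := by
    by_contra hcon
    push Not at hcon
    have : 2 * L * N * volume.real E ≤ L * (N + volume.real E) * N := h2.trans h1
    have h5 : L * N * volume.real E ≤ L * N * N := by nlinarith
    have h6 : 0 < L * N := by positivity
    have := le_of_mul_le_mul_left h5 h6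
    linarith
  have h7 : ∫ t in E, f t ^ 2 ≤ 2 * L * N ^ 2 := by
    refine h1.trans ?_
    have : 0 ≤ L * N := by positivity
    nlinarith
  -- on E
  have h8 : ∫ t in E, f t ^ p ≤ N ^ (p - 2) * (2 * L * N ^ 2) := by
    calc ∫ t in E, f t ^ p ≤ ∫ t in E, N ^ (p - 2) * f t ^ 2 := by
          apply setIntegral_mono_on
          · exact (hfp.continuousOn.integrableOn_compact hIc).mono_set hEI
          · exact (((hf.pow 2).continuousOn.integrableOn_compact hIc).mono_set hEI).const_mul _
          · exact hEm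
          · intro t _
            have h9 : f t ^ p = f t ^ (p - 2) * f t ^ 2 := by
              rcases (hf0 t).eq_or_lt with h0 | h0
              · rw [← h0]
                rw [Real.zero_rpow (by linarith)]
                simp
              · rw [← Real.rpow_natCast, ← Real.rpow_add h0]
                congr 1; push_cast; ring
            rw [h9]
            apply mul_le_mul_of_nonneg_right _ (sq_nonneg _)
            exact Real.rpow_le_rpow (hf0 t) (hfN t) (by linarith)
      _ = N ^ (p - 2) * ∫ t in E, f t ^ 2 := by rw [integral_const_mul]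
      _ ≤ _ := mul_le_mul_of_nonneg_left h7 (by positivity)
  have h10 : N ^ (p - 2) * (2 * L * N ^ 2) = 2 * L * N ^ p := by
    have : N ^ (p - 2) * N ^ 2 = N ^ p := by
      rw [← Real.rpow_natCast, ← Real.rpow_add hN0]
      congr 1; push_cast; ring
    calc _ = 2 * L * (N ^ (p - 2) * N ^ 2) := by ring
      _ = _ := by rw [this]
  -- off E
  have h11 : ∫ t in I \ E, f t ^ p ≤ (2 * L * N) ^ (p / 2) * T := by
    calc ∫ t in I \ E, f t ^ p ≤ ∫ t in I \ E, (2 * L * N) ^ (p / 2) := by
          apply setIntegral_mono_on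
          · exact (hfp.continuousOn.integrableOn_compact hIc).mono_set Set.diff_subset
          · exact integrableOn_const (ne_top_of_le_ne_top (by simp [hI]) (measure_mono (Set.diff_subset (s := I) (t := E))))
          · exact measurableSet_Icc.diff hEm
          · intro t ht
            have h12 : f t ^ 2 < 2 * L * N := by
              by_contra hcon
              push Not at hcon
              exact ht.2 ⟨ht.1, hcon⟩
            have h13 : f t ^ p = (f t ^ 2) ^ (p / 2) := by
              rw [← Real.rpow_natCast, ← Real.rpow_mul (hf0 t)]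
              congr 1; push_cast; ring
            rw [h13]
            exact Real.rpow_le_rpow (sq_nonneg _) h12.le (by linarith)
      _ = (2 * L * N) ^ (p / 2) * volume.real (I \ E) := by rw [setIntegral_const, smul_eq_mul]; ring
      _ ≤ (2 * L * N) ^ (p / 2) * T := by
          apply mul_le_mul_of_nonneg_left _ (by positivity)
          calc volume.real (I \ E) ≤ volume.real I := measureReal_mono Set.diff_subset (by simp [hI])
            _ = T := by rw [hI, Real.volume_real_Icc_of_le (by linarith)]; ring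
  have h14 : ∫ t in t₀..(t₀ + T), f t ^ p = (∫ t in E, f t ^ p) + ∫ t in I \ E, f t ^ p := by
    rw [intervalIntegral.integral_of_le (by linarith), ← integral_Icc_eq_integral_Ioc]
    have h15 : I = E ∪ (I \ E) := (Set.union_diff_cancel hEI).symm
    calc ∫ t in Set.Icc t₀ (t₀ + T), f t ^ p = ∫ t in E ∪ (I \ E), f t ^ p := by rw [← h15]
      _ = _ := setIntegral_union Set.disjoint_sdiff_right (measurableSet_Icc.diff hEm)
          ((hfp.continuousOn.integrableOn_compact hIc).mono_set hEI)
          ((hfp.continuousOn.integrableOn_compact hIc).mono_set Set.diff_subset)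
  rw [h14]
  rw [h10] at h8
  have h16 : (2 * L * N) ^ (p / 2) = (2 * L) ^ (p / 2) * N ^ (p / 2) := Real.mul_rpow (by positivity) (by positivity)
  have h17 : 2 * L ≤ (2 * L) ^ (p / 2) := by
    calc 2 * L = (2 * L) ^ (1 : ℝ) := (Real.rpow_one _).symm
      _ ≤ _ := Real.rpow_le_rpow_of_exponent_le (by linarith) (by linarith)
  have h18 : 0 ≤ N ^ p := by positivity
  rw [h16] at h11
  nlinarith

end Pool.Agent.U160.RF
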