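import Pool.Agent.U160.RF.Signs

/-!
# Random frequencies: approximation of signed sums of atoms by multiples of shorter sums, nets
-/

set_option autoImplicit false

namespace Pool.Agent.U160.RF

open Finset

/-- the sum of the atoms of a tuple -/
noncomputable def KK {α : Type*} (g : α → ℝ → ℂ) {ι : Type*} [Fintype ι] (y : ι → α) (v : ℝ) : ℂ := ∑ k, g (y k) v

/-- atoms: bounded by one and Lipschitz on `[0, W]`, one of them is zero; `F` is a net for sums of at most `R` atoms. -/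
structure Atoms {α : Type*} (g : α → ℝ → ℂ) (W T : ℝ) (R : ℕ) (F : Finset ℝ) (l : ℝ) : Prop where
  zero : ∃ z, ∀ v, g z v = 0
  bdd : ∀ a v, ‖g a v‖ ≤ 1
  lip : ∀ a v v', ‖g a v - g a v'‖ ≤ T * |v - v'|
  net : ∀ v, 0 ≤ v → v ≤ W → ∃ v' ∈ F, R * T * |v - v'| ≤ 1
  one : 1 ≤ l
  log : Real.log (4 * F.card) ≤ l

theorem pad {α : Type*} (g : α → ℝ → ℂ) (z : α) (hz : ∀ v, g z v = 0) {ι : Type*} [DecidableEq ι] (P : Finset ι) (y : ι → α) (m : ℕ)
    (hP : P.card ≤ m) : ∃ y' : Fin m → α, ∀ v, ∑ k, g (y' k) v = ∑ i ∈ P, g (y i) v := by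
  classical
  let e : Fin P.card ≃ P := P.equivFin.symm
  let f : ℕ → α := fun k => if h : k < P.card then y (e ⟨k, h⟩) else z
  refine ⟨fun k => f k, fun v => ?_⟩
  have h1 : ∑ k : Fin m, g (f k) v = ∑ k ∈ range m, g (f k) v := Fin.sum_univ_eq_sum_range (fun k => g (f k) v) m
  have h2 : ∑ k ∈ range m, g (f k) v = ∑ k ∈ range P.card, g (f k) v := by
    symm
    apply sum_subset (range_subset_range.2 hP)
    intro k _ hk
    have : ¬ k < P.card := by simpa using hk
    simp only [f, this, dif_neg, not_false_eq_true]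
    exact hz v
  have h3 : ∑ k ∈ range P.card, g (f k) v = ∑ k : Fin P.card, g (f k) v :=
    (Fin.sum_univ_eq_sum_range (fun k => g (f k) v) P.card).symm
  have h4 : ∑ k : Fin P.card, g (f k) v = ∑ k : Fin P.card, g (y (e k)) v := by
    apply sum_congr rfl
    intro k _
    have : (k : ℕ) < P.card := k.2
    simp only [f, this, dif_pos]
  have h5 : ∑ k : Fin P.card, g (y (e k)) v = ∑ i : P, g (y i) v := Equiv.sum_comp e (fun i : P => g (y i) v)
  show ∑ k : Fin m, g (f k) v = _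
  rw [h1, h2, h3, h4, h5]
  exact Finset.sum_coe_sort P (fun i => g (y i) v)

section

variable {α : Type*} {g : α → ℝ → ℂ} {W T : ℝ} {R : ℕ} {F : Finset ℝ} {l : ℝ}

theorem halve (hA : Atoms g W T R F l) (n m : ℕ) (hn : n ≤ 2 * m) (hm : 0 < m) (hR : n ≤ R) (y : Fin n → α) :
    ∃ y' : Fin m → α, ∀ v, 0 ≤ v → v ≤ W → ‖KK g y v - 2 * KK g y' v‖ ≤ 3 * Real.sqrt ((2 * m : ℕ) * l) := by
  classical
  obtain ⟨z, hz⟩ := hA.zero
  obtain ⟨σ, hσ⟩ := exists_signs_complex F (fun v (k : Fin n) => g (y k) v) (fun v _ k => hA.bdd _ _) (2 * m)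
    (by simpa using hn) (by omega)
  have hl := hA.one
  have hS : ∀ v, 0 ≤ v → v ≤ W → ‖∑ k, (sg (σ k) : ℂ) * g (y k) v‖ ≤ 3 * Real.sqrt ((2 * m : ℕ) * l) := by
    intro v hv0 hvW
    obtain ⟨v', hv', hvv⟩ := hA.net v hv0 hvW
    have h1 := hσ v' hv'
    have h2 : ‖∑ k, (sg (σ k) : ℂ) * g (y k) v - ∑ k, (sg (σ k) : ℂ) * g (y k) v'‖ ≤ 1 := by
      rw [← sum_sub_distrib]
      calc ‖∑ k, ((sg (σ k) : ℂ) * g (y k) v - (sg (σ k) : ℂ) * g (y k) v')‖
          ≤ ∑ k : Fin n, ‖(sg (σ k) : ℂ) * g (y k) v - (sg (σ k) : ℂ) * g (y k) v'‖ := norm_sum_le _ _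
        _ ≤ ∑ _k : Fin n, T * |v - v'| := by
            apply sum_le_sum
            intro k _
            rw [← mul_sub, norm_mul]
            have : ‖(sg (σ k) : ℂ)‖ = 1 := by
              unfold sg; split_ifs <;> simp
            rw [this, one_mul]
            exact hA.lip _ _ _
        _ = n * (T * |v - v'|) := by rw [sum_const, card_univ, Fintype.card_fin, nsmul_eq_mul]
        _ ≤ 1 := by
            have h3 : 0 ≤ T * |v - v'| := (norm_nonneg _).trans (hA.lip z v v')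
            have h4 : (n : ℝ) ≤ R := by exact_mod_cast hR
            calc (n : ℝ) * (T * |v - v'|) ≤ R * (T * |v - v'|) := mul_le_mul_of_nonneg_right h4 h3
              _ = R * T * |v - v'| := by ring
              _ ≤ 1 := hvv
    have h5 : Real.sqrt ((2 * m : ℕ) * Real.log (4 * F.card)) ≤ Real.sqrt ((2 * m : ℕ) * l) :=
      Real.sqrt_le_sqrt (mul_le_mul_of_nonneg_left hA.log (Nat.cast_nonneg _))
    have h6 : 1 ≤ Real.sqrt ((2 * m : ℕ) * l) := by
      rw [Real.one_le_sqrt]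
      have : (1 : ℝ) ≤ ((2 * m : ℕ) : ℝ) := by exact_mod_cast (by omega : 1 ≤ 2 * m)
      nlinarith
    calc ‖∑ k, (sg (σ k) : ℂ) * g (y k) v‖ = ‖(∑ k, (sg (σ k) : ℂ) * g (y k) v - ∑ k, (sg (σ k) : ℂ) * g (y k) v') +
          ∑ k, (sg (σ k) : ℂ) * g (y k) v'‖ := by rw [sub_add_cancel]
      _ ≤ 1 + 2 * Real.sqrt ((2 * m : ℕ) * Real.log (4 * F.card)) := (norm_add_le _ _).trans (add_le_add h2 h1)
      _ ≤ _ := by linarith
  set Pp := univ.filter (fun k => σ k = true) with hPp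
  set Pn := univ.filter (fun k => ¬ σ k = true) with hPn
  have hcard : Pp.card + Pn.card = n := by
    have := Finset.card_filter_add_card_filter_not (s := (univ : Finset (Fin n))) (fun k => σ k = true)
    rw [card_univ, Fintype.card_fin] at this
    exact this
  have hsplit : ∀ f : Fin n → ℂ, ∑ k, f k = ∑ k ∈ Pp, f k + ∑ k ∈ Pn, f k := by
    intro f
    exact (sum_filter_add_sum_filter_not univ (fun k => σ k = true) f).symm
  have hsig : ∀ v, ∑ k, (sg (σ k) : ℂ) * g (y k) v = ∑ k ∈ Pp, g (y k) v - ∑ k ∈ Pn, g (y k) v := by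
    intro v
    rw [hsplit, sub_eq_add_neg, ← sum_neg_distrib]
    congr 1
    · apply sum_congr rfl
      intro k hk
      have : σ k = true := (mem_filter.1 hk).2
      simp [sg, this]
    · apply sum_congr rfl
      intro k hk
      have : ¬ σ k = true := (mem_filter.1 hk).2
      simp [sg, this]
  rcases le_total Pp.card Pn.card with h | h
  · obtain ⟨y', hy'⟩ := pad g z hz Pp y m (by omega)
    refine ⟨y', fun v hv0 hvW => ?_⟩
    have e : KK g y v - 2 * KK g y' v = -(∑ k, (sg (σ k) : ℂ) * g (y k) v) := by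
      unfold KK
      rw [hy', hsig, hsplit (fun k => g (y k) v)]; ring
    rw [e, norm_neg]
    exact hS v hv0 hvW
  · obtain ⟨y', hy'⟩ := pad g z hz Pn y m (by omega)
    refine ⟨y', fun v hv0 hvW => ?_⟩
    have e : KK g y v - 2 * KK g y' v = ∑ k, (sg (σ k) : ℂ) * g (y k) v := by
      unfold KK
      rw [hy', hsig, hsplit (fun k => g (y k) v)]; ring
    rw [e]
    exact hS v hv0 hvW

theorem approx (hA : Atoms g W T R F l) (L : ℕ) (hL : 2 ^ L ≤ R) (x : Fin (2 ^ L) → α) (k : ℕ) (hk : k ≤ L) :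
    ∃ y : Fin (2 ^ (L - k)) → α, ∀ v, 0 ≤ v → v ≤ W →
      ‖KK g x v - 2 ^ k * KK g y v‖ ≤ 8 * Real.sqrt (2 ^ (L + k) * l) := by
  have hl := hA.one
  induction k with
  | zero =>
    refine ⟨x, fun v _ _ => ?_⟩
    simp
  | succ k ih =>
    obtain ⟨y, hy⟩ := ih (by omega)
    obtain ⟨y', hy'⟩ := halve hA (2 ^ (L - k)) (2 ^ (L - (k + 1))) (by
        rw [← pow_succ']; exact Nat.pow_le_pow_right (by norm_num) (by omega)) (by positivity)
        ((Nat.pow_le_pow_right (by norm_num) (by omega)).trans hL) y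
    refine ⟨y', fun v hv0 hvW => ?_⟩
    have h1 := hy v hv0 hvW
    have h2 := hy' v hv0 hvW
    have e1 : (((2 * 2 ^ (L - (k + 1)) : ℕ) : ℝ)) = 2 ^ (L - k) := by
      have : 2 * 2 ^ (L - (k + 1)) = 2 ^ (L - k) := by
        rw [← pow_succ']; congr 1; omega
      rw [this]; push_cast; ring
    rw [e1] at h2
    have h3 : (2 : ℝ) ^ k * Real.sqrt (2 ^ (L - k) * l) = Real.sqrt (2 ^ (L + k) * l) := by
      have e2 : (2 : ℝ) ^ (L + k) * l = (2 ^ k) ^ 2 * (2 ^ (L - k) * l) := by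
        rw [← mul_assoc, ← pow_mul, ← pow_add]
        congr 2; omega
      rw [e2, Real.sqrt_mul (show (0 : ℝ) ≤ (2 ^ k) ^ 2 by positivity) (2 ^ (L - k) * l),
        Real.sqrt_sq (show (0 : ℝ) ≤ 2 ^ k by positivity)]
    have h4 : Real.sqrt (2 ^ (L + (k + 1)) * l) = Real.sqrt 2 * Real.sqrt (2 ^ (L + k) * l) := by
      rw [← Real.sqrt_mul (by norm_num)]
      congr 1; rw [← add_assoc, pow_succ]; ring
    have h5 : (1.375 : ℝ) ≤ Real.sqrt 2 := by
      apply Real.le_sqrt_of_sq_le; norm_num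
    have hs0 := Real.sqrt_nonneg (2 ^ (L + k) * l)
    calc ‖KK g x v - 2 ^ (k + 1) * KK g y' v‖
        = ‖(KK g x v - 2 ^ k * KK g y v) + 2 ^ k * (KK g y v - 2 * KK g y' v)‖ := by
          congr 1; rw [pow_succ]; ring
      _ ≤ ‖KK g x v - 2 ^ k * KK g y v‖ + 2 ^ k * ‖KK g y v - 2 * KK g y' v‖ := by
          refine (norm_add_le _ _).trans (add_le_add le_rfl ?_)
          rw [norm_mul]; simp
      _ ≤ 8 * Real.sqrt (2 ^ (L + k) * l) + 2 ^ k * (3 * Real.sqrt (2 ^ (L - k) * l)) :=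
          add_le_add h1 (mul_le_mul_of_nonneg_left h2 (by positivity))
      _ = 11 * Real.sqrt (2 ^ (L + k) * l) := by
          rw [mul_left_comm, h3]; ring
      _ ≤ 8 * Real.sqrt (2 ^ (L + (k + 1)) * l) := by
          rw [h4]; nlinarith

/-- Nets inside a finite class. -/
theorem nets [Fintype α] [DecidableEq α] (hA : Atoms g W T R F l) (L : ℕ) (hL : 2 ^ L ≤ R) (D : Finset (Fin (2 ^ L) → α))
    (k : ℕ) (hk : k ≤ L) : ∃ Fk ⊆ D, Fk.card ≤ Fintype.card α ^ (2 ^ (L - k)) ∧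
      ∀ x ∈ D, ∃ y ∈ Fk, ∀ v, 0 ≤ v → v ≤ W → ‖KK g x v - KK g y v‖ ≤ 16 * Real.sqrt (2 ^ (L + k) * l) := by
  classical
  choose code hcode using fun x : Fin (2 ^ L) → α => approx hA L hL x k hk
  have hrep : ∀ c ∈ D.image code, ∃ x ∈ D, code x = c := fun c hc => mem_image.1 hc
  obtain ⟨z, _⟩ := hA.zero
  haveI : Nonempty (Fin (2 ^ L) → α) := ⟨fun _ => z⟩
  choose! rep hrepD hrepc using hrep
  refine ⟨(D.image code).image rep, ?_, ?_, ?_⟩
  · intro x hx
    obtain ⟨c, hc, rfl⟩ := mem_image.1 hx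
    exact hrepD c hc
  · calc ((D.image code).image rep).card ≤ (D.image code).card := card_image_le
      _ ≤ (univ : Finset (Fin (2 ^ (L - k)) → α)).card := card_le_card (subset_univ _)
      _ = Fintype.card α ^ (2 ^ (L - k)) := by rw [card_univ, Fintype.card_fun, Fintype.card_fin]
  · intro x hx
    have hc : code x ∈ D.image code := mem_image_of_mem _ hx
    refine ⟨rep (code x), mem_image_of_mem _ hc, fun v hv0 hvW => ?_⟩
    have h1 := hcode x v hv0 hvW
    have h2 := hcode (rep (code x)) v hv0 hvW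
    rw [hrepc _ hc] at h2
    calc ‖KK g x v - KK g (rep (code x)) v‖
        = ‖(KK g x v - 2 ^ k * KK g (code x) v) - (KK g (rep (code x)) v - 2 ^ k * KK g (code x) v)‖ := by
          congr 1; ring
      _ ≤ 8 * Real.sqrt (2 ^ (L + k) * l) + 8 * Real.sqrt (2 ^ (L + k) * l) :=
          (norm_sub_le _ _).trans (add_le_add h1 h2)
      _ = _ := by ring

end

end Pool.Agent.U160.RF
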