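import Pool.Agent.U160.RF.Descent
import Pool.Agent.U160.RF.Mean

/-!
# Random frequencies: almost all sequences are good
-/

set_option autoImplicit false

namespace Pool.Agent.U160.RF

open MeasureTheory ProbabilityTheory Finset Filter

/-- the uniform distribution on `[0,1]` -/
noncomputable def nu : Measure ℝ := volume.restrict (Set.Icc 0 1)

instance : IsProbabilityMeasure nu := ⟨by simp [nu]⟩

/-- the product of the uniform distributions -/
noncomputable def mu : Measure (ℕ → ℝ) := Measure.infinitePi fun _ => nu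

instance : IsProbabilityMeasure mu := by unfold mu; infer_instance

/-- projection to `[0,1]` -/
noncomputable def cl (x : ℝ) : ℝ := max 0 (min x 1)

theorem cl_mem (x : ℝ) : 0 ≤ cl x ∧ cl x ≤ 1 := ⟨le_max_left _ _, max_le zero_le_one (min_le_right _ _)⟩

theorem cl_eq {x : ℝ} (h0 : 0 ≤ x) (h1 : x ≤ 1) : cl x = x := by
  unfold cl; rw [min_eq_left h1, max_eq_right h0]

theorem cl_meas : Measurable cl := by unfold cl; fun_prop

/-- the frequencies -/
noncomputable def lam (k : ℕ) (θ : ℕ → ℝ) : ℝ := Real.log (k + 1 + cl (θ (k + 1)))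

theorem lam_meas (k : ℕ) : Measurable (lam k) := by
  unfold lam
  apply Real.measurable_log.comp
  exact (cl_meas.comp (measurable_pi_apply (k + 1))).const_add _

theorem lam_indep : iIndepFun lam mu := by
  have h1 : iIndepFun (fun i (θ : ℕ → ℝ) => Real.log (i + cl (θ i))) mu :=
    iIndepFun_infinitePi (X := fun (i : ℕ) (y : ℝ) => Real.log (i + cl y)) (fun i =>
      Real.measurable_log.comp (cl_meas.const_add _))
  have h2 := h1.precomp (g := fun k : ℕ => k + 1) (fun a b h => by simpa using h)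
  convert h2 using 2 with k
  funext θ
  simp only [Function.comp, lam]
  push_cast; rfl

theorem lam_bd (k N : ℕ) (hk : k < N) (θ : ℕ → ℝ) : 0 ≤ lam k θ ∧ lam k θ ≤ N := by
  obtain ⟨h0, h1⟩ := cl_mem (θ (k + 1))
  have hk0 : (0 : ℝ) ≤ k := Nat.cast_nonneg k
  unfold lam
  constructor
  · apply Real.log_nonneg; linarith
  · have h2 := Real.log_le_sub_one_of_pos (show (0 : ℝ) < k + 1 + cl (θ (k + 1)) by linarith)
    have h3 : (k : ℝ) + 1 ≤ N := by exact_mod_cast hk
    linarith

/-- the mean value of a function of one frequency -/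
theorem mean_one (f : ℝ → ℝ) (hf : Measurable f) (k : ℕ) :
    ∫ θ, f (lam k θ) ∂mu = ∫ v in ((k : ℝ) + 1)..(k + 1 + 1), f (Real.log v) := by
  have hmap : mu.map (fun θ => θ (k + 1)) = nu := by
    unfold mu
    exact Measure.infinitePi_map_eval (fun _ => nu) (k + 1)
  have h1 : ∫ θ, f (lam k θ) ∂mu = ∫ y, f (Real.log (k + 1 + cl y)) ∂nu := by
    rw [← hmap, integral_map (measurable_pi_apply (k + 1)).aemeasurable]
    · rfl
    · apply Measurable.aestronglyMeasurable
      exact hf.comp (Real.measurable_log.comp (cl_meas.const_add _))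
  rw [h1]
  unfold nu
  rw [integral_Icc_eq_integral_Ioc, ← intervalIntegral.integral_of_le zero_le_one]
  have h2 : ∫ y in (0 : ℝ)..1, f (Real.log (k + 1 + cl y)) = ∫ y in (0 : ℝ)..1, f (Real.log (k + 1 + y)) := by
    apply intervalIntegral.integral_congr
    intro y hy
    rw [Set.uIcc_of_le zero_le_one] at hy
    simp only
    rw [cl_eq hy.1 hy.2]
  rw [h2, intervalIntegral.integral_comp_add_left (fun v => f (Real.log v)) ((k : ℝ) + 1), add_zero]

theorem mean_sum (f : ℝ → ℝ) (hf : Continuous f) (N : ℕ) :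
    ∑ k ∈ range N, ∫ θ, f (lam k θ) ∂mu = ∫ v in (1 : ℝ)..(N + 1), f (Real.log v) := by
  have h1 : ∀ k ∈ range N, ∫ θ, f (lam k θ) ∂mu =
      ∫ v in ((fun j : ℕ => (j : ℝ) + 1) k)..((fun j : ℕ => (j : ℝ) + 1) (k + 1)), f (Real.log v) := by
    intro k _
    rw [mean_one f hf.measurable k]
    simp only; push_cast; rfl
  rw [sum_congr rfl h1, intervalIntegral.sum_integral_adjacent_intervals]
  · simp
  · intro k _
    apply ContinuousOn.intervalIntegrable
    apply hf.comp_continuousOn
    have hk0 : (0 : ℝ) ≤ k := Nat.cast_nonneg k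
    rw [Set.uIcc_of_le (by push_cast; linarith)]
    apply ContinuousOn.log continuousOn_id
    intro v hv
    have h0 : (0 : ℝ) < v := by linarith [hv.1]
    exact h0.ne'

/-- the logarithmic scale -/
noncomputable def el (B N : ℕ) : ℝ := (4 * B + 16) * Real.log N

/-- the bound for the sums of squares -/
noncomputable def Smin (B N L : ℕ) : ℝ := 2 ^ L * (128 * N * el B N) + 2560000 * 4 ^ L * el B N ^ 4

/-- the denominators of the grid -/
def qq (N : ℕ) : ℕ := 2 * N ^ 2

/-- the size of the grid -/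
def mg (B N : ℕ) : ℕ := (N ^ B + 1) * qq N

/-- the sequence is good at `N` -/
def Good (B N : ℕ) (θ : ℕ → ℝ) : Prop :=
  ∀ L : ℕ, 2 ^ L ≤ 2 * (N ^ B + 1) → ∀ x : Fin (2 ^ L) → Option (Fin 4 × Fin (mg B N)), Sp (qq N) x →
    AA (gg (qq N) (mg B N)) lam (range N) x θ ≤ Smin B N L

theorem pow_facts (B N : ℕ) (hN : 2 ≤ N) : N ^ B + 1 ≤ N ^ (B + 1) := by
  have h1 : 1 ≤ N ^ B := Nat.one_le_pow _ _ (by omega)
  rw [pow_succ]; nlinarith

theorem log_le_el (B N X c : ℕ) (hN : 2 ≤ N) (hX0 : 0 < X) (hX : X ≤ N ^ c) (hc : c ≤ 4 * B + 16) :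
    Real.log X ≤ el B N := by
  have hlog : 0 ≤ Real.log N := Real.log_natCast_nonneg N
  calc Real.log X ≤ Real.log ((N ^ c : ℕ) : ℝ) := Real.log_le_log (by exact_mod_cast hX0) (by exact_mod_cast hX)
    _ = c * Real.log N := by push_cast; rw [Real.log_pow]
    _ ≤ _ := by
        unfold el
        apply mul_le_mul_of_nonneg_right _ hlog
        exact_mod_cast hc

theorem atoms_good (B N : ℕ) (hN : 2 ≤ N) : ∃ F : Finset ℝ,
    Atoms (gg (qq N) (mg B N)) N (N ^ B + 1 : ℕ) (2 * (N ^ B + 1)) F (el B N) := by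
  classical
  have hN2 : (2 : ℝ) ≤ N := by exact_mod_cast hN
  set m : ℕ := 2 * (N ^ B + 1) * (N ^ B + 1) with hm
  have hm0 : 0 < m := by positivity
  have hm0' : (0 : ℝ) < m := by exact_mod_cast hm0
  have hlogN : Real.log 2 ≤ Real.log N := Real.log_le_log (by norm_num) hN2
  have hlog2 : 0.69 < Real.log 2 := by have := Real.log_two_gt_d9; linarith
  have hq0 : 0 < qq N := by unfold qq; positivity
  refine ⟨(range (N * m + 1)).image (fun j : ℕ => (j : ℝ) / m), ⟨none, fun v => rfl⟩, fun a v => gg_norm _ _ a v,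
    fun a v v' => gg_lip _ _ hq0 _ (by unfold mg; push_cast; linarith) a v v', ?_, ?_, ?_⟩
  · intro v hv0 hvN
    refine ⟨(⌊v * m⌋₊ : ℝ) / m, ?_, ?_⟩
    · apply mem_image.2
      refine ⟨⌊v * m⌋₊, ?_, rfl⟩
      rw [mem_range, Nat.lt_succ_iff]
      apply Nat.floor_le_of_le
      push_cast
      exact mul_le_mul_of_nonneg_right hvN hm0'.le
    · have h1 := Nat.floor_le (by positivity : 0 ≤ v * m)
      have h2 := Nat.lt_floor_add_one (v * m)
      have h3 : |v - (⌊v * m⌋₊ : ℝ) / m| ≤ 1 / m := by
        rw [abs_le]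
        constructor
        · have : (⌊v * m⌋₊ : ℝ) / m ≤ v := by rw [div_le_iff₀ hm0']; exact h1
          have h4 : (0 : ℝ) ≤ 1 / m := by positivity
          linarith
        · have : v ≤ ((⌊v * m⌋₊ : ℝ) + 1) / m := by rw [le_div_iff₀ hm0']; exact h2.le
          rw [add_div] at this
          linarith
      calc ((2 * (N ^ B + 1) : ℕ) : ℝ) * ((N ^ B + 1 : ℕ) : ℝ) * |v - (⌊v * m⌋₊ : ℝ) / m|
          = m * |v - (⌊v * m⌋₊ : ℝ) / m| := by rw [hm]; push_cast; ring
        _ ≤ m * (1 / m) := mul_le_mul_of_nonneg_left h3 hm0'.le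
        _ = 1 := by field_simp
  · unfold el
    have : (0 : ℝ) ≤ B := Nat.cast_nonneg B
    nlinarith
  · have hcard : ((range (N * m + 1)).image (fun j : ℕ => (j : ℝ) / m)).card ≤ N * m + 1 := by
      refine card_image_le.trans ?_
      rw [card_range]
    have hpos : 0 < ((range (N * m + 1)).image (fun j : ℕ => (j : ℝ) / m)).card :=
      card_pos.2 ⟨_, mem_image_of_mem _ (mem_range.2 (Nat.succ_pos _))⟩
    have h1 := log_le_el B N (4 * ((range (N * m + 1)).image (fun j : ℕ => (j : ℝ) / m)).card) (2 * B + 8) hN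
      (by omega) (by
        have hp := pow_facts B N hN
        have h2 : m ≤ N ^ (2 * B + 3) := by
          calc m = 2 * ((N ^ B + 1) * (N ^ B + 1)) := by rw [hm]; ring
            _ ≤ N * (N ^ (B + 1) * N ^ (B + 1)) := Nat.mul_le_mul hN (Nat.mul_le_mul hp hp)
            _ = N ^ (2 * B + 3) := by ring
        have h3 : 1 ≤ N ^ (2 * B + 4) := Nat.one_le_pow _ _ (by omega)
        calc 4 * ((range (N * m + 1)).image (fun j : ℕ => (j : ℝ) / m)).card ≤ 4 * (N * m + 1) := by omega
          _ ≤ 4 * (N * N ^ (2 * B + 3) + N ^ (2 * B + 4)) := by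
              apply Nat.mul_le_mul_left; exact Nat.add_le_add (Nat.mul_le_mul_left _ h2) h3
          _ = 2 * 2 * 2 * N ^ (2 * B + 4) := by ring
          _ ≤ N * N * N * N ^ (2 * B + 4) := by
              apply Nat.mul_le_mul_right
              exact Nat.mul_le_mul (Nat.mul_le_mul hN hN) hN
          _ = N ^ (2 * B + 7) := by ring
          _ ≤ N ^ (2 * B + 8) := Nat.pow_le_pow_right (by omega) (by omega)) (by omega)
    push_cast at h1
    exact h1

theorem L_le (B N L : ℕ) (hN : 2 ≤ N) (hL : 2 ^ L ≤ 2 * (N ^ B + 1)) : (L : ℝ) + 1 ≤ el B N := by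
  have hN2 : (2 : ℝ) ≤ N := by exact_mod_cast hN
  have hlogN : Real.log 2 ≤ Real.log N := Real.log_le_log (by norm_num) hN2
  have hlog2 : 0.69 < Real.log 2 := by have := Real.log_two_gt_d9; linarith
  have h1 : 2 ^ L ≤ N ^ (B + 2) := by
    calc 2 ^ L ≤ 2 * (N ^ B + 1) := hL
      _ ≤ N * N ^ (B + 1) := Nat.mul_le_mul hN (pow_facts B N hN)
      _ = N ^ (B + 2) := by ring
  have h2 : (L : ℝ) * Real.log 2 ≤ (B + 2) * Real.log N := by
    have := Real.log_le_log (by positivity) (by exact_mod_cast h1 : (2 : ℝ) ^ L ≤ (N : ℝ) ^ (B + 2))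
    rw [Real.log_pow, Real.log_pow] at this
    push_cast at this
    exact this
  have hB : (0 : ℝ) ≤ B := Nat.cast_nonneg B
  have hL0 : (0 : ℝ) ≤ L := Nat.cast_nonneg L
  unfold el
  have h3 : (L : ℝ) ≤ 2 * ((B + 2) * Real.log N) := by nlinarith
  nlinarith

theorem bad_prob (B N : ℕ) (hN : 2 ≤ N) :
    mu {θ | ¬ Good B N θ} ≤ ENNReal.ofReal (2 * (4 * B + 16) ^ 2 * (1 / (N : ℝ) ^ 2)) := by
  classical
  obtain ⟨F, hA⟩ := atoms_good B N hN
  have hN2 : (2 : ℝ) ≤ N := by exact_mod_cast hN
  have hlogN : Real.log 2 ≤ Real.log N := Real.log_le_log (by norm_num) hN2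
  have hlog2 : 0.69 < Real.log 2 := by have := Real.log_two_gt_d9; linarith
  have hq0 : 0 < qq N := by unfold qq; positivity
  have hel1 := hA.one
  have hB : (0 : ℝ) ≤ B := Nat.cast_nonneg B
  -- the logarithm of the number of atoms
  have hα : Real.log (Fintype.card (Option (Fin 4 × Fin (mg B N)))) ≤ el B N := by
    rw [Fintype.card_option, Fintype.card_prod, Fintype.card_fin, Fintype.card_fin]
    refine log_le_el B N _ (B + 8) hN (Nat.succ_pos _) ?_ (by omega)
    have hp := pow_facts B N hN
    have h3 : 1 ≤ N ^ (B + 3) := Nat.one_le_pow _ _ (by omega)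
    unfold mg qq
    calc 4 * ((N ^ B + 1) * (2 * N ^ 2)) + 1 ≤ 4 * (N ^ (B + 1) * (2 * N ^ 2)) + N ^ (B + 3) := by
          apply Nat.add_le_add _ h3
          exact Nat.mul_le_mul_left _ (Nat.mul_le_mul_right _ hp)
      _ = 9 * N ^ (B + 3) := by ring
      _ ≤ 2 * 2 * 2 * 2 * N ^ (B + 3) := Nat.mul_le_mul_right _ (by norm_num)
      _ ≤ N * N * N * N * N ^ (B + 3) := by
          apply Nat.mul_le_mul_right
          exact Nat.mul_le_mul (Nat.mul_le_mul (Nat.mul_le_mul hN hN) hN) hN
      _ = N ^ (B + 7) := by ring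
      _ ≤ N ^ (B + 8) := Nat.pow_le_pow_right (by omega) (by omega)
  set K : ℕ := (4 * B + 16) * N with hK
  have helK : el B N ≤ K := by
    rw [hK]; unfold el; push_cast
    apply mul_le_mul_of_nonneg_left _ (by linarith)
    have := Real.log_le_sub_one_of_pos (show (0 : ℝ) < N by linarith)
    linarith
  set badL : ℕ → Set (ℕ → ℝ) := fun L => {θ | ∃ x ∈ univ.filter (fun x : Fin (2 ^ L) → Option (Fin 4 × Fin (mg B N)) =>
    Sp (qq N) x), Smin B N L < AA (gg (qq N) (mg B N)) lam (range N) x θ} with hbadL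
  have hone : ∀ L, 2 ^ L ≤ 2 * (N ^ B + 1) → mu (badL L) ≤ ENNReal.ofReal (N * (2 * el B N * Real.exp (-(4 * el B N)))) := by
    intro L hL
    -- clamp the frequencies outside of the range
    set lam' : ℕ → (ℕ → ℝ) → ℝ := fun k θ => if k < N then lam k θ else 0 with hlam'
    have hlm' : ∀ k, Measurable (lam' k) := by
      intro k; simp only [hlam']; split_ifs
      · exact lam_meas k
      · exact measurable_const
    have hli' : iIndepFun lam' mu := by
      have := lam_indep.comp (fun k y => if k < N then y else 0) (fun k => by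
        by_cases hk : k < N
        · simp only [hk, if_true]; exact measurable_id
        · simp only [hk, if_false]; exact measurable_const)
      exact this
    have hl0' : ∀ k θ, 0 ≤ lam' k θ ∧ lam' k θ ≤ (N : ℝ) := by
      intro k θ; simp only [hlam']; split_ifs with hk
      · exact lam_bd k N hk θ
      · exact ⟨le_rfl, by linarith⟩
    have hAA : ∀ (x : Fin (2 ^ L) → Option (Fin 4 × Fin (mg B N))) θ,
        AA (gg (qq N) (mg B N)) lam' (range N) x θ = AA (gg (qq N) (mg B N)) lam (range N) x θ := by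
      intro x θ
      unfold AA
      apply sum_congr rfl
      intro k hk
      simp only [hlam', mem_range.1 hk, if_true]
    have hEA : ∀ x : Fin (2 ^ L) → Option (Fin 4 × Fin (mg B N)), Sp (qq N) x →
        EA mu (gg (qq N) (mg B N)) lam' (range N) x ≤ 2 ^ L * (32 * N * el B N) := by
      intro x hx
      have h1 : EA mu (gg (qq N) (mg B N)) lam' (range N) x =
          ∑ k ∈ range N, ∫ θ, (fun u => ‖KK (gg (qq N) (mg B N)) x u‖ ^ 2) (lam k θ) ∂mu := by
        unfold EA
        apply sum_congr rfl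
        intro k hk
        simp only [hlam', mem_range.1 hk, if_true]
      have hcont : Continuous (fun u => ‖KK (gg (qq N) (mg B N)) x u‖ ^ 2) := by
        unfold KK
        exact (continuous_finsetSum _ (fun k _ => gg_cont _ _ (x k))).norm.pow 2
      rw [h1, mean_sum _ hcont N]
      refine (int_bound (qq N) (mg B N) (2 * (N ^ B + 1)) N hq0 (by unfold mg; rw [mul_assoc]) (by omega) x hx).trans ?_
      rw [Fintype.card_fin]
      push_cast
      apply mul_le_mul_of_nonneg_left _ (by positivity)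
      have h2 : 1 + Real.log (2 * (N ^ B + 1)) ≤ el B N := by
        have h3 : Real.log ((2 * (N ^ B + 1) : ℕ) : ℝ) ≤ (B + 2) * Real.log N := by
          have h4 : 2 * (N ^ B + 1) ≤ N ^ (B + 2) := by
            calc 2 * (N ^ B + 1) ≤ N * N ^ (B + 1) := Nat.mul_le_mul hN (pow_facts B N hN)
              _ = N ^ (B + 2) := by ring
          calc Real.log ((2 * (N ^ B + 1) : ℕ) : ℝ) ≤ Real.log ((N ^ (B + 2) : ℕ) : ℝ) :=
                Real.log_le_log (by positivity) (by exact_mod_cast h4)
            _ = (B + 2) * Real.log N := by push_cast; rw [Real.log_pow]; push_cast; ring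
        push_cast at h3
        unfold el
        nlinarith
      have h5 : (N : ℝ) + 1 ≤ 2 * N := by linarith
      calc 16 * ((N : ℝ) + 1) * (1 + Real.log (2 * (N ^ B + 1))) ≤ 16 * (2 * N) * el B N := by
            apply mul_le_mul (by linarith) h2 _ (by positivity)
            have : 0 ≤ Real.log (2 * ((N : ℝ) ^ B + 1)) := by
              apply Real.log_nonneg
              have : (0 : ℝ) ≤ (N : ℝ) ^ B := by positivity
              linarith
            linarith
        _ = _ := by ring
    have hS0 : 0 < Smin B N L := by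
      unfold Smin
      have : 0 < el B N := by linarith
      positivity
    have hd := descent (P := mu) hA (fun a => (gg_cont _ _ a).measurable) lam' hlm' hli' hl0' (range N) L hL
      (L_le B N L hN hL) hα (univ.filter (fun x : Fin (2 ^ L) → Option (Fin 4 × Fin (mg B N)) => Sp (qq N) x))
      (2 ^ L * (32 * N * el B N)) (fun x hx => hEA x (mem_filter.1 hx).2) (Smin B N L) hS0 (by
        unfold Smin
        have : 0 ≤ 2560000 * (4 : ℝ) ^ L * el B N ^ 4 := by positivity
        nlinarith) (by
        unfold Smin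
        have : 0 ≤ (2 : ℝ) ^ L * (128 * N * el B N) := by
          have : 0 < el B N := by linarith
          positivity
        linarith) N (by
        rw [card_range]
        have h1 : (4 : ℝ) ^ L ≤ Smin B N L := by
          unfold Smin
          have h2 : 0 ≤ (2 : ℝ) ^ L * (128 * N * el B N) := by
            have : 0 < el B N := by linarith
            positivity
          have h3 : (1 : ℝ) ≤ el B N ^ 4 := one_le_pow₀ hel1
          have h4 : (0 : ℝ) ≤ 4 ^ L := by positivity
          nlinarith [mul_le_mul_of_nonneg_left h3 h4]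
        have h5 : (N : ℝ) ≤ 2 ^ N := by exact_mod_cast Nat.lt_two_pow_self.le
        exact mul_le_mul h5 h1 (by positivity) (by positivity))
    have hset : badL L = {θ | ∃ x ∈ univ.filter (fun x : Fin (2 ^ L) → Option (Fin 4 × Fin (mg B N)) =>
        Sp (qq N) x), Smin B N L < AA (gg (qq N) (mg B N)) lam' (range N) x θ} := by
      simp only [hbadL, hAA]
    rw [hset]
    refine hd.trans (ENNReal.ofReal_le_ofReal ?_)
    apply mul_le_mul_of_nonneg_left _ (by linarith)
    apply mul_le_mul_of_nonneg_right _ (Real.exp_pos _).le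
    have := L_le B N L hN hL
    linarith
  have hsub : {θ | ¬ Good B N θ} ⊆ ⋃ L ∈ (range K).filter (fun L => 2 ^ L ≤ 2 * (N ^ B + 1)), badL L := by
    intro θ hθ
    simp only [Good, Set.mem_setOf_eq, not_forall, not_le] at hθ
    obtain ⟨L, hL, x, hx, hlt⟩ := hθ
    simp only [Set.mem_iUnion]
    refine ⟨L, ?_, x, ?_, hlt⟩
    · rw [mem_filter, mem_range]
      refine ⟨?_, hL⟩
      have h1 := L_le B N L hN hL
      have h2 : (L : ℝ) < K := by linarith
      exact_mod_cast h2
    · rw [mem_filter]; exact ⟨mem_univ _, hx⟩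
  calc mu {θ | ¬ Good B N θ} ≤ _ := measure_mono hsub
    _ ≤ ∑ L ∈ (range K).filter (fun L => 2 ^ L ≤ 2 * (N ^ B + 1)), mu (badL L) := measure_biUnion_finset_le _ _
    _ ≤ ∑ _L ∈ (range K).filter (fun L => 2 ^ L ≤ 2 * (N ^ B + 1)),
          ENNReal.ofReal (N * (2 * el B N * Real.exp (-(4 * el B N)))) := by
        apply sum_le_sum
        intro L hL
        exact hone L (mem_filter.1 hL).2
    _ ≤ ∑ _L ∈ range K, ENNReal.ofReal (N * (2 * el B N * Real.exp (-(4 * el B N)))) :=
        sum_le_sum_of_subset (filter_subset _ _)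
    _ = ENNReal.ofReal (K * (N * (2 * el B N * Real.exp (-(4 * el B N))))) := by
        rw [sum_const, card_range, nsmul_eq_mul, ← ENNReal.ofReal_natCast, ← ENNReal.ofReal_mul (Nat.cast_nonneg _)]
    _ ≤ _ := by
        apply ENNReal.ofReal_le_ofReal
        have hexp : Real.exp (-(4 * el B N)) ≤ 1 / (N : ℝ) ^ 64 := by
          have hNpos : (0 : ℝ) < N := by linarith
          have e1 : 1 / (N : ℝ) ^ 64 = Real.exp (-(64 * Real.log N)) := by
            rw [Real.exp_neg, mul_comm, ← Real.rpow_def_of_pos hNpos, one_div]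
            norm_cast
          rw [e1]
          apply Real.exp_le_exp.2
          unfold el
          have h0 : 0 ≤ Real.log N := by linarith
          nlinarith [mul_nonneg hB h0]
        have hNpos : (0 : ℝ) < N := by linarith
        have hKr : (K : ℝ) = (4 * B + 16) * N := by rw [hK]; push_cast; ring
        have hel : el B N ≤ (4 * B + 16) * N := by rw [← hKr]; exact helK
        have h4B : (0 : ℝ) < 4 * B + 16 := by linarith
        calc (K : ℝ) * (N * (2 * el B N * Real.exp (-(4 * el B N))))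
            ≤ ((4 * B + 16) * N) * (N * (2 * ((4 * B + 16) * N) * (1 / (N : ℝ) ^ 64))) := by
              rw [hKr]
              apply mul_le_mul_of_nonneg_left _ (by positivity)
              apply mul_le_mul_of_nonneg_left _ hNpos.le
              apply mul_le_mul _ hexp (Real.exp_pos _).le (by positivity)
              linarith
          _ = 2 * (4 * B + 16) ^ 2 * ((N : ℝ) ^ 3 / (N : ℝ) ^ 64) := by ring
          _ ≤ 2 * (4 * B + 16) ^ 2 * (1 / (N : ℝ) ^ 2) := by
              apply mul_le_mul_of_nonneg_left _ (by positivity)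
              rw [div_le_div_iff₀ (by positivity) (by positivity), ← pow_add, one_mul]
              exact pow_le_pow_right₀ (by linarith) (by norm_num)

/-- **Almost all sequences are good at all large `N`.** -/
theorem ae_good (B : ℕ) : ∀ᵐ θ ∂mu, ∀ᶠ N in atTop, Good B N θ := by
  have hsum : ∑' N : ℕ, mu {θ | 2 ≤ N ∧ ¬ Good B N θ} ≠ ⊤ := by
    have h1 : Summable (fun N : ℕ => 2 * (4 * (B : ℝ) + 16) ^ 2 * (1 / (N : ℝ) ^ 2)) :=
      (Real.summable_one_div_nat_pow.2 (by norm_num)).mul_left _
    have h2 : ∀ N : ℕ, mu {θ | 2 ≤ N ∧ ¬ Good B N θ} ≤ ENNReal.ofReal (2 * (4 * (B : ℝ) + 16) ^ 2 * (1 / (N : ℝ) ^ 2)) := by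
      intro N
      by_cases hN : 2 ≤ N
      · simp only [hN, true_and]
        exact bad_prob B N hN
      · simp [hN]
    refine ne_top_of_le_ne_top ?_ (ENNReal.tsum_le_tsum h2)
    rw [← ENNReal.ofReal_tsum_of_nonneg (fun N => by positivity) h1]
    exact ENNReal.ofReal_ne_top
  have h3 := ae_eventually_notMem hsum
  filter_upwards [h3] with θ hθ
  filter_upwards [hθ, eventually_ge_atTop 2] with N hN hN2
  by_contra hbad
  exact hN ⟨hN2, hbad⟩

end Pool.Agent.U160.RF
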