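import Pool.Agent.U160.RF.Short

/-!
# Random frequencies: the large values conjecture
-/

set_option autoImplicit false

namespace Pool.Agent.U160.RF

open MeasureTheory Finset Filter

theorem el_small (B : ℕ) (ε : ℝ) (hε : 0 < ε) :
    ∀ᶠ N : ℕ in atTop, 200000000 * el B N ^ 4 < (N : ℝ) ^ (ε / 4) := by
  have h1 := (isLittleO_log_rpow_rpow_atTop (4 : ℝ) (show 0 < ε / 4 by positivity)).def
    (show (0 : ℝ) < 1 / (400000000 * (4 * B + 16) ^ 4) by positivity)
  have h2 := tendsto_natCast_atTop_atTop (R := ℝ) |>.eventually h1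
  filter_upwards [h2, eventually_ge_atTop 2] with N h3 hN
  have hN2 : (2 : ℝ) ≤ N := by exact_mod_cast hN
  have hlog : 0 ≤ Real.log N := Real.log_natCast_nonneg N
  have e4 : Real.log N ^ (4 : ℝ) = Real.log N ^ 4 := by
    rw [show (4 : ℝ) = ((4 : ℕ) : ℝ) by norm_num, Real.rpow_natCast]
  rw [e4, Real.norm_of_nonneg (by positivity), Real.norm_of_nonneg (by positivity)] at h3
  have hp : 0 < (N : ℝ) ^ (ε / 4) := by positivity
  have hK : (0 : ℝ) < (4 * B + 16) ^ 4 := by positivity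
  unfold el
  calc 200000000 * ((4 * B + 16) * Real.log N) ^ 4 = 200000000 * (4 * B + 16) ^ 4 * Real.log N ^ 4 := by ring
    _ ≤ 200000000 * (4 * B + 16) ^ 4 * (1 / (400000000 * (4 * B + 16) ^ 4) * (N : ℝ) ^ (ε / 4)) :=
        mul_le_mul_of_nonneg_left h3 (by positivity)
    _ = (N : ℝ) ^ (ε / 4) / 2 := by field_simp; norm_num
    _ < _ := by linarith

/-- **The large values conjecture for almost every sequence.** -/
theorem ae_q1 : ∀ᵐ θ ∂mu, ∀ ε : ℝ, 0 < ε → ∃ C : ℝ, 0 < C ∧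
    ∀ (N : ℕ) (T V : ℝ) (b : ℕ → ℂ) (S : Finset ℝ),
      1 ≤ N → 1 ≤ T → 0 < V →
      (∀ n, ‖b n‖ ≤ 1) →
      (N : ℝ) * T ^ ε ≤ V ^ 2 →
      (∀ t ∈ S, 0 ≤ t ∧ t ≤ T ∧ V ≤ ‖DD b θ N t‖) →
      (∀ t ∈ S, ∀ u ∈ S, t ≠ u → 1 ≤ |t - u|) →
      (S.card : ℝ) ≤ C * (N : ℝ) ^ 2 / V ^ 2 * T ^ ε := by
  filter_upwards [ae_all_iff.2 ae_good] with θ hθ
  intro ε hε
  set B : ℕ := ⌈1 / ε⌉₊ with hB
  have hBε : 1 / ε ≤ B := Nat.le_ceil _
  obtain ⟨N₁, hN₁⟩ := eventually_atTop.1 ((hθ B).and ((el_small B ε hε).and (eventually_ge_atTop 2)))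
  have hN₁0 : (0 : ℝ) ≤ N₁ := Nat.cast_nonneg _
  refine ⟨160 * (1 + 1 / ε) + ((N₁ : ℝ) ^ B + 1), by positivity, ?_⟩
  intro N T V b S hN hT hV hb hVT h0 hS
  have hN1 : (1 : ℝ) ≤ N := by exact_mod_cast hN
  have hN0 : (0 : ℝ) < N := by linarith
  have hT0 : 0 < T := by linarith
  have hTε : 1 ≤ T ^ ε := Real.one_le_rpow hT hε.le
  have hV2 : 0 < V ^ 2 := by positivity
  have hgoal : ∀ K : ℝ, K ≤ 160 * (1 + 1 / ε) + ((N₁ : ℝ) ^ B + 1) → (S.card : ℝ) * V ^ 2 ≤ K * (N : ℝ) ^ 2 * T ^ ε →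
      (S.card : ℝ) ≤ (160 * (1 + 1 / ε) + ((N₁ : ℝ) ^ B + 1)) * (N : ℝ) ^ 2 / V ^ 2 * T ^ ε := by
    intro K hK h
    rw [div_mul_eq_mul_div, le_div_iff₀ hV2]
    refine h.trans ?_
    apply mul_le_mul_of_nonneg_right _ (by positivity)
    exact mul_le_mul_of_nonneg_right hK (by positivity)
  rcases S.eq_empty_or_nonempty with hSe | ⟨s, hs⟩
  · subst hSe
    simp only [card_empty, Nat.cast_zero]
    positivity
  have hnb : nb b N ≤ N := by
    unfold nb
    calc ∑ k ∈ range N, ‖b k‖ ^ 2 ≤ ∑ _k ∈ range N, (1 : ℝ) := by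
          apply sum_le_sum
          intro k _
          exact pow_le_one₀ (norm_nonneg _) (hb k)
      _ = N := by simp
  have hnb0 := nb_nonneg b N
  have hVN : V ^ 2 ≤ (N : ℝ) ^ 2 := by
    calc V ^ 2 ≤ ‖DD b θ N s‖ ^ 2 := pow_le_pow_left₀ hV.le (h0 s hs).2.2 2
      _ ≤ N * nb b N := DD_le b θ N s
      _ ≤ N * N := mul_le_mul_of_nonneg_left hnb hN0.le
      _ = _ := by ring
  have hTN : T ^ ε ≤ N := by
    have : (N : ℝ) * T ^ ε ≤ N * N := by
      calc _ ≤ V ^ 2 := hVT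
        _ ≤ (N : ℝ) ^ 2 := hVN
        _ = _ := by ring
    exact le_of_mul_le_mul_left this hN0
  have hTB : T ≤ (N : ℝ) ^ B := by
    calc T = (T ^ ε) ^ (1 / ε) := by
          rw [← Real.rpow_mul hT0.le, mul_one_div_cancel hε.ne', Real.rpow_one]
      _ ≤ (N : ℝ) ^ (1 / ε) := Real.rpow_le_rpow (by positivity) hTN (by positivity)
      _ ≤ (N : ℝ) ^ (B : ℝ) := Real.rpow_le_rpow_of_exponent_le hN1 hBε
      _ = (N : ℝ) ^ B := Real.rpow_natCast _ _
  have hSep : Sep S := hS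
  have hS0 : ∀ t ∈ S, 0 ≤ t ∧ t ≤ (N : ℝ) ^ B := fun t ht => ⟨(h0 t ht).1, (h0 t ht).2.1.trans hTB⟩
  rcases lt_or_ge N N₁ with hNN | hNN
  · -- small N
    apply hgoal ((N₁ : ℝ) ^ B + 1) (by
      have : 0 < 160 * (1 + 1 / ε) := by positivity
      linarith)
    have h1 := sep_card S hSep (N ^ B) (fun t ht => by
      push_cast; exact hS0 t ht)
    have h2 : (S.card : ℝ) ≤ (N : ℝ) ^ B + 1 := by exact_mod_cast h1
    have h3 : (N : ℝ) ^ B ≤ (N₁ : ℝ) ^ B := pow_le_pow_left₀ hN0.le (by exact_mod_cast hNN.le) B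
    calc (S.card : ℝ) * V ^ 2 ≤ ((N₁ : ℝ) ^ B + 1) * (N : ℝ) ^ 2 :=
          mul_le_mul (by linarith) hVN hV2.le (by positivity)
      _ ≤ ((N₁ : ℝ) ^ B + 1) * (N : ℝ) ^ 2 * T ^ ε := le_mul_of_one_le_right (by positivity) hTε
  · rcases le_or_gt (T ^ 4) N with hT4 | hT4
    · -- short intervals
      apply hgoal (160 * (1 + 1 / ε)) (by
        have : 0 ≤ (N₁ : ℝ) ^ B := by positivity
        linarith)
      have h1 := short N hN θ b T hT hT4 S hSep (fun t ht => ⟨(h0 t ht).1, (h0 t ht).2.1⟩) V hV.le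
        (fun t ht => (h0 t ht).2.2)
      refine h1.trans ?_
      have hlogT := Real.log_le_rpow_div hT0.le hε
      have hlogT0 := Real.log_nonneg hT
      calc 160 * (nb b N * (N * (1 + Real.log T))) ≤ 160 * (N * (N * (T ^ ε + T ^ ε / ε))) := by
            apply mul_le_mul_of_nonneg_left _ (by norm_num)
            apply mul_le_mul hnb _ (by positivity) hN0.le
            apply mul_le_mul_of_nonneg_left _ hN0.le
            linarith
        _ = _ := by ring
    · -- the main case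
      obtain ⟨hgood, hel, hN2⟩ := hN₁ N hNN
      have hel1 := (el_one B N hN2).2
      have hTbig : (N : ℝ) ^ (ε / 4) ≤ T ^ ε := by
        calc (N : ℝ) ^ (ε / 4) ≤ (T ^ 4) ^ (ε / 4) := Real.rpow_le_rpow hN0.le hT4.le (by positivity)
          _ = T ^ ε := by
              rw [show T ^ 4 = T ^ (4 : ℝ) by rw [← Real.rpow_natCast]; norm_num, ← Real.rpow_mul hT0.le]
              congr 1; ring
      have hbig : 200000000 * el B N ^ 4 < T ^ ε := hel.trans_le hTbig
      have hVnb : nb b N ≤ V ^ 2 := by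
        calc nb b N ≤ N := hnb
          _ ≤ N * T ^ ε := le_mul_of_one_le_right hN0.le hTε
          _ ≤ V ^ 2 := hVT
      have hlarge : ∀ S' : Finset ℝ, S' ⊆ S → S'.card * V ^ 2 ≤ 100000000 * (nb b N * ((N + S'.card) * el B N ^ 4)) := by
        intro S' hS'
        exact large B N hN2 θ hgood b S' (sep_sub hS' hSep) (fun t ht => hS0 t (hS' ht)) V hVnb hV.le
          (fun t ht => (h0 t (hS' ht)).2.2) hel1
      have hcard : (S.card : ℝ) ≤ N := by
        by_contra hcon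
        have h1 : N ≤ S.card := by
          rw [not_le] at hcon
          exact_mod_cast hcon.le
        obtain ⟨S', hS', hc'⟩ := exists_subset_card_eq h1
        have h2 := hlarge S' hS'
        rw [hc'] at h2
        have h3 : (N : ℝ) * V ^ 2 < N * V ^ 2 := by
          calc (N : ℝ) * V ^ 2 ≤ 100000000 * (nb b N * ((N + N) * el B N ^ 4)) := h2
            _ ≤ 100000000 * (N * ((N + N) * el B N ^ 4)) := by
                apply mul_le_mul_of_nonneg_left _ (by norm_num)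
                exact mul_le_mul_of_nonneg_right hnb (by positivity)
            _ = N * (N * (200000000 * el B N ^ 4)) := by ring
            _ < N * (N * T ^ ε) := by
                apply mul_lt_mul_of_pos_left _ hN0
                exact mul_lt_mul_of_pos_left hbig hN0
            _ ≤ N * V ^ 2 := mul_le_mul_of_nonneg_left hVT hN0.le
        exact lt_irrefl _ h3
      apply hgoal 1 (by
        have h1 : 0 ≤ (N₁ : ℝ) ^ B := by positivity
        have h2 : 0 < 1 / ε := by positivity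
        linarith)
      have h2 := hlarge S subset_rfl
      calc (S.card : ℝ) * V ^ 2 ≤ 100000000 * (nb b N * ((N + S.card) * el B N ^ 4)) := h2
        _ ≤ 100000000 * (N * ((N + N) * el B N ^ 4)) := by
            apply mul_le_mul_of_nonneg_left _ (by norm_num)
            apply mul_le_mul hnb _ (by positivity) hN0.le
            apply mul_le_mul_of_nonneg_right _ (by positivity)
            linarith
        _ = (200000000 * el B N ^ 4) * (N : ℝ) ^ 2 := by ring
        _ ≤ T ^ ε * (N : ℝ) ^ 2 := mul_le_mul_of_nonneg_right hbig.le (by positivity)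
        _ = _ := by ring

end Pool.Agent.U160.RF
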