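import Pool.Agent.U160.RF.Sum

/-!
# Random frequencies: short intervals
-/

set_option autoImplicit false

namespace Pool.Agent.U160.RF

open MeasureTheory Finset Filter

/-- the kernel -/
noncomputable def HH (θ : ℕ → ℝ) (N : ℕ) (u : ℝ) : ℂ := ∑ k ∈ range N, ee u (lam k θ)

theorem term_le (θ : ℕ → ℝ) (k : ℕ) (u : ℝ) :
    ‖ee u (lam k θ) - ∫ v in ((k : ℝ) + 1)..(k + 1 + 1), ee u (Real.log v)‖ ≤
      |u| * (Real.log (k + 1 + 1) - Real.log (k + 1)) := by
  have hk : (0 : ℝ) ≤ k := Nat.cast_nonneg k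
  obtain ⟨hc0, hc1⟩ := cl_mem (θ (k + 1))
  have hint : IntervalIntegrable (fun v => ee u (Real.log v)) volume ((k : ℝ) + 1) (k + 1 + 1) := by
    apply ContinuousOn.intervalIntegrable
    apply (ee_cont u).comp_continuousOn
    apply Real.continuousOn_log.mono
    intro v hv
    rw [Set.uIcc_of_le (by linarith)] at hv
    have : (0 : ℝ) < v := by linarith [hv.1]
    simp [this.ne']
  have h1 : ee u (lam k θ) = ∫ _v in ((k : ℝ) + 1)..(k + 1 + 1), ee u (lam k θ) := by
    rw [intervalIntegral.integral_const]; simp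
  rw [h1, ← intervalIntegral.integral_sub (by simp) hint]
  have h2 := intervalIntegral.norm_integral_le_of_norm_le_const (a := (k : ℝ) + 1) (b := k + 1 + 1)
    (C := |u| * (Real.log (k + 1 + 1) - Real.log (k + 1)))
    (f := fun v => ee u (lam k θ) - ee u (Real.log v)) (by
      intro v hv
      rw [Set.uIoc_of_le (by linarith)] at hv
      refine (ee_lip _ _ _).trans ?_
      apply mul_le_mul_of_nonneg_left _ (abs_nonneg _)
      have h3 : Real.log (k + 1) ≤ lam k θ := Real.log_le_log (by linarith) (by linarith)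
      have h4 : lam k θ ≤ Real.log (k + 1 + 1) := Real.log_le_log (by linarith) (by linarith)
      have h5 : Real.log (k + 1) ≤ Real.log v := Real.log_le_log (by linarith) hv.1.le
      have h6 : Real.log v ≤ Real.log (k + 1 + 1) := Real.log_le_log (by linarith [hv.1]) hv.2
      rw [abs_le]; constructor <;> linarith)
  have h3 : |((k : ℝ) + 1 + 1) - (k + 1)| = 1 := by ring_nf; simp
  rw [h3, mul_one] at h2
  exact h2

theorem HH_le (θ : ℕ → ℝ) (N : ℕ) (u : ℝ) : ‖HH θ N u‖ ≤ 2 * (N + 1) / max 1 |u| + |u| * Real.log (N + 1) := by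
  have h1 : ∑ k ∈ range N, (∫ v in ((k : ℝ) + 1)..(k + 1 + 1), ee u (Real.log v)) =
      ∫ v in (1 : ℝ)..(N + 1), ee u (Real.log v) := by
    have h2 := intervalIntegral.sum_integral_adjacent_intervals (f := fun v => ee u (Real.log v)) (μ := volume)
      (a := fun j : ℕ => (j : ℝ) + 1) (n := N) (by
        intro k _
        apply ContinuousOn.intervalIntegrable
        apply (ee_cont u).comp_continuousOn
        apply Real.continuousOn_log.mono
        intro v hv
        have hk : (0 : ℝ) ≤ k := Nat.cast_nonneg k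
        push_cast at hv
        rw [Set.uIcc_of_le (by linarith)] at hv
        have : (0 : ℝ) < v := by linarith [hv.1]
        simp [this.ne'])
    simp only [Nat.cast_zero, zero_add] at h2
    rw [← h2]
    apply sum_congr rfl
    intro k _
    push_cast; rfl
  have h2 : HH θ N u = (∑ k ∈ range N, (ee u (lam k θ) - ∫ v in ((k : ℝ) + 1)..(k + 1 + 1), ee u (Real.log v))) +
      ∫ v in (1 : ℝ)..(N + 1), ee u (Real.log v) := by
    rw [sum_sub_distrib, h1]; unfold HH; ring
  rw [h2, add_comm]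
  refine (norm_add_le _ _).trans (add_le_add (kern N u) ?_)
  calc ‖∑ k ∈ range N, (ee u (lam k θ) - ∫ v in ((k : ℝ) + 1)..(k + 1 + 1), ee u (Real.log v))‖ ≤
      ∑ k ∈ range N, |u| * (Real.log (k + 1 + 1) - Real.log (k + 1)) :=
        (norm_sum_le _ _).trans (sum_le_sum fun k _ => term_le θ k u)
    _ = |u| * ∑ k ∈ range N, (Real.log ((k + 1 : ℕ) + 1) - Real.log ((k : ℕ) + 1)) := by
        rw [mul_sum]; push_cast; rfl
    _ = |u| * Real.log (N + 1) := by
        rw [Finset.sum_range_sub (fun k : ℕ => Real.log ((k : ℝ) + 1))]; simp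

theorem gram_le (θ : ℕ → ℝ) (N : ℕ) (S : Finset ℝ) (c : ℝ → Fin 4) :
    ∑ k ∈ range N, ‖∑ t ∈ S, Complex.I ^ (c t : ℕ) * ee t (lam k θ)‖ ^ 2 ≤ ∑ t ∈ S, ∑ u ∈ S, ‖HH θ N (t - u)‖ := by
  have h1 : ((∑ k ∈ range N, ‖∑ t ∈ S, Complex.I ^ (c t : ℕ) * ee t (lam k θ)‖ ^ 2 : ℝ) : ℂ) =
      ∑ t ∈ S, ∑ u ∈ S, Complex.I ^ (c t : ℕ) * (starRingEnd ℂ) (Complex.I ^ (c u : ℕ)) * HH θ N (t - u) := by
    push_cast
    have h2 : ∀ k ∈ range N, ((‖∑ t ∈ S, Complex.I ^ (c t : ℕ) * ee t (lam k θ)‖ : ℂ)) ^ 2 =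
        ∑ t ∈ S, ∑ u ∈ S, Complex.I ^ (c t : ℕ) * (starRingEnd ℂ) (Complex.I ^ (c u : ℕ)) * ee (t - u) (lam k θ) := by
      intro k _
      rw [← Complex.mul_conj', map_sum, sum_mul_sum]
      apply sum_congr rfl; intro t _
      apply sum_congr rfl; intro u _
      rw [← ee_mul_conj, map_mul]; ring
    rw [sum_congr rfl h2, sum_comm]
    apply sum_congr rfl; intro t _
    rw [sum_comm]
    apply sum_congr rfl; intro u _
    unfold HH
    rw [mul_sum]
  have h3 : ∑ k ∈ range N, ‖∑ t ∈ S, Complex.I ^ (c t : ℕ) * ee t (lam k θ)‖ ^ 2 =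
      ‖((∑ k ∈ range N, ‖∑ t ∈ S, Complex.I ^ (c t : ℕ) * ee t (lam k θ)‖ ^ 2 : ℝ) : ℂ)‖ := by
    rw [Complex.norm_real, Real.norm_eq_abs, abs_of_nonneg (sum_nonneg fun _ _ => sq_nonneg _)]
  rw [h3, h1]
  refine (norm_sum_le _ _).trans (sum_le_sum fun t _ => (norm_sum_le _ _).trans (sum_le_sum fun u _ => ?_))
  rw [norm_mul, norm_mul]
  simp

theorem log_two_sqrt (N : ℕ) : Real.log (N + 1) ≤ 2 * Real.sqrt N := by
  have hN : (0 : ℝ) ≤ N := Nat.cast_nonneg N
  have h1 : (0 : ℝ) < Real.sqrt N + 1 := by positivity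
  have h2 : (N : ℝ) + 1 ≤ (Real.sqrt N + 1) ^ 2 := by
    have := Real.sq_sqrt hN
    have := Real.sqrt_nonneg (N : ℝ)
    nlinarith
  calc Real.log (N + 1) ≤ Real.log ((Real.sqrt N + 1) ^ 2) := Real.log_le_log (by positivity) h2
    _ = 2 * Real.log (Real.sqrt N + 1) := by rw [Real.log_pow]; norm_num
    _ ≤ 2 * Real.sqrt N := by
        have := Real.log_le_sub_one_of_pos h1
        linarith

/-- **Large values, short intervals** -/
theorem short (N : ℕ) (hN : 1 ≤ N) (θ : ℕ → ℝ) (b : ℕ → ℂ) (T : ℝ) (hT : 1 ≤ T) (hTN : T ^ 4 ≤ N) (S : Finset ℝ)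
    (hS : Sep S) (h0 : ∀ t ∈ S, 0 ≤ t ∧ t ≤ T) (V : ℝ) (hV0 : 0 ≤ V) (hD : ∀ t ∈ S, V ≤ ‖DD b θ N t‖) :
    S.card * V ^ 2 ≤ 160 * (nb b N * (N * (1 + Real.log T))) := by
  classical
  have hN1 : (1 : ℝ) ≤ N := by exact_mod_cast hN
  have hlogT : 0 ≤ Real.log T := Real.log_nonneg hT
  have hnb := nb_nonneg b N
  rcases S.eq_empty_or_nonempty with hSe | hSne
  · subst hSe
    simp
    positivity
  have hcard : (0 : ℝ) < S.card := by exact_mod_cast hSne.card_pos
  have hM1 : 2 * T < (⌊2 * T⌋₊ + 1 : ℕ) := by push_cast; exact Nat.lt_floor_add_one _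
  have hM2 : ((⌊2 * T⌋₊ + 1 : ℕ) : ℝ) ≤ 3 * T := by
    have := Nat.floor_le (show 0 ≤ 2 * T by linarith)
    push_cast; linarith
  set M := ⌊2 * T⌋₊ + 1 with hM
  have hMpos : (0 : ℝ) < M := by linarith
  have hc : (S.card : ℝ) ≤ 3 * T := by
    have h1 := sep_card S hS ⌈T⌉₊ (fun t ht => ⟨(h0 t ht).1, (h0 t ht).2.trans (Nat.le_ceil T)⟩)
    have h2 : (S.card : ℝ) ≤ ⌈T⌉₊ + 1 := by exact_mod_cast h1
    have h3 := Nat.ceil_lt_add_one (show 0 ≤ T by linarith)
    linarith
  have hT2 : T ^ 2 ≤ Real.sqrt N := by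
    apply Real.le_sqrt_of_sq_le
    have e : (T ^ 2) ^ 2 = T ^ 4 := by ring
    rw [e]; exact hTN
  have hcT : (S.card : ℝ) * (T * Real.log (N + 1)) ≤ 6 * N := by
    have h1 := log_two_sqrt N
    have h2 := Real.sq_sqrt (show (0 : ℝ) ≤ N by linarith)
    have h3 := Real.sqrt_nonneg (N : ℝ)
    calc (S.card : ℝ) * (T * Real.log (N + 1)) ≤ (3 * T) * (T * (2 * Real.sqrt N)) := by
          apply mul_le_mul hc _ _ (by linarith)
          · exact mul_le_mul_of_nonneg_left h1 (by linarith)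
          · exact mul_nonneg (by linarith) (Real.log_nonneg (by linarith))
      _ = 6 * (T ^ 2 * Real.sqrt N) := by ring
      _ ≤ 6 * (Real.sqrt N * Real.sqrt N) := by
          apply mul_le_mul_of_nonneg_left _ (by norm_num)
          exact mul_le_mul_of_nonneg_right hT2 h3
      _ = 6 * Real.sqrt N ^ 2 := by ring
      _ = 6 * N := by rw [h2]
  have hlogM : Real.log M ≤ 1.2 + Real.log T := by
    calc Real.log M ≤ Real.log (3 * T) := Real.log_le_log hMpos hM2
      _ = Real.log 3 + Real.log T := Real.log_mul (by norm_num) (by linarith)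
      _ ≤ 1.2 + Real.log T := by
          have h3 : Real.log 3 ≤ 1.2 := by
            have h4 : Real.log 3 = Real.log (3 / 4) + 2 * Real.log 2 := by
              have : (3 : ℝ) = 3 / 4 * 2 ^ 2 := by norm_num
              conv_lhs => rw [this]
              rw [Real.log_mul (by norm_num) (by norm_num), Real.log_pow]; norm_num
            have h5 := Real.log_two_lt_d9
            have h6 := Real.log_le_sub_one_of_pos (show (0 : ℝ) < 3 / 4 by norm_num)
            -- log(3/4) ≤ -1/4 ; 2 log 2 ≤ 1.3863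
            linarith
          linarith
  have hrow : ∀ t ∈ S, ∑ u ∈ S, ‖HH θ N (t - u)‖ ≤ N * (80 * (1 + Real.log T)) := by
    intro t ht
    calc ∑ u ∈ S, ‖HH θ N (t - u)‖ ≤ ∑ u ∈ S, (2 * (N + 1) * (1 / max 1 |t - u|) + T * Real.log (N + 1)) := by
          apply sum_le_sum
          intro u hu
          refine (HH_le θ N (t - u)).trans ?_
          apply add_le_add
          · rw [mul_one_div]
          · apply mul_le_mul_of_nonneg_right _ (Real.log_nonneg (by linarith))
            have h1 := h0 t ht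
            have h2 := h0 u hu
            rw [abs_le]; constructor <;> linarith
      _ = 2 * (N + 1) * ∑ u ∈ S, 1 / max 1 |t - u| + S.card * (T * Real.log (N + 1)) := by
          rw [sum_add_distrib, mul_sum, sum_const, nsmul_eq_mul]
      _ ≤ 2 * (N + 1) * (8 * (1 + Real.log M)) + 6 * N := by
          apply add_le_add _ hcT
          apply mul_le_mul_of_nonneg_left _ (by linarith)
          exact rowsum S (fun u => u) M (fun i hi => (h0 i hi).1) (fun i hi => by
            have := (h0 i hi).2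
            linarith) (fun i hi j hj hij => by
            have := hS i hi j hj hij
            linarith) t (h0 t ht).1
      _ ≤ 2 * (2 * N) * (8 * (2.2 + Real.log T)) + 6 * N := by
          apply add_le_add _ le_rfl
          apply mul_le_mul (by linarith) (by linarith) _ (by linarith)
          have : 0 ≤ Real.log M := Real.log_natCast_nonneg M
          positivity
      _ ≤ N * (80 * (1 + Real.log T)) := by nlinarith
  have hG : ∀ c : ℝ → Fin 4, ∑ k ∈ range N, ‖∑ t ∈ S, Complex.I ^ (c t : ℕ) * ee (id t) (lam k θ)‖ ^ 2 ≤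
      S.card * (N * (80 * (1 + Real.log T))) := by
    intro c
    refine (gram_le θ N S c).trans ?_
    calc ∑ t ∈ S, ∑ u ∈ S, ‖HH θ N (t - u)‖ ≤ ∑ _t ∈ S, (N * (80 * (1 + Real.log T)) : ℝ) := sum_le_sum hrow
      _ = _ := by rw [sum_const, nsmul_eq_mul]
  have h1 := dual b θ N S id _ hG
  simp only [id] at h1
  have h2 : (S.card * V) ^ 2 ≤ 2 * nb b N * (S.card * (N * (80 * (1 + Real.log T)))) := by
    refine le_trans (pow_le_pow_left₀ (by positivity) ?_ 2) h1
    calc (S.card : ℝ) * V = ∑ _t ∈ S, V := by rw [sum_const, nsmul_eq_mul]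
      _ ≤ _ := sum_le_sum hD
  have h3 : (S.card * V ^ 2) * S.card ≤ (160 * (nb b N * (N * (1 + Real.log T)))) * S.card := by
    calc _ = (S.card * V) ^ 2 := by ring
      _ ≤ _ := h2
      _ = _ := by ring
  exact le_of_mul_le_mul_right h3 hcard

end Pool.Agent.U160.RF
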