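import Mathlib

/-!
# Random frequencies: signs which make finitely many sums small, and halving
-/

set_option autoImplicit false

namespace Pool.Agent.U160.RF

open Finset

/-- the sign of a Boolean -/
def sg (b : Bool) : ℝ := if b then 1 else -1

theorem sum_exp {ι : Type*} [Fintype ι] [DecidableEq ι] (g : ι → ℝ) (s : ℝ) :
    ∑ σ : ι → Bool, Real.exp (s * ∑ k, sg (σ k) * g k) = ∏ k, (2 * Real.cosh (s * g k)) := by
  have h1 : ∏ k, (2 * Real.cosh (s * g k)) = ∏ k, ∑ b : Bool, Real.exp (s * (sg b * g k)) := by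
    apply prod_congr rfl
    intro k _
    rw [Fintype.sum_bool, Real.cosh_eq]
    simp only [sg, if_true, Bool.false_eq_true, if_false]
    rw [show s * (-1 * g k) = -(s * g k) by ring, show s * (1 * g k) = s * g k by ring]
    ring
  rw [h1, Finset.prod_univ_sum, Fintype.piFinset_univ]
  apply sum_congr rfl
  intro σ _
  rw [← Real.exp_sum, mul_sum]

theorem exists_signs {ι κ : Type*} [Fintype ι] [DecidableEq ι] (F : Finset κ) (g : κ → ι → ℝ)
    (hg : ∀ l ∈ F, ∀ k, |g l k| ≤ 1) (m : ℕ) (hm : Fintype.card ι ≤ m) (hm0 : 0 < m) :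
    ∃ σ : ι → Bool, ∀ l ∈ F, |∑ k, sg (σ k) * g l k| ≤ Real.sqrt (2 * m * Real.log (2 * F.card)) := by
  classical
  by_contra hcon
  push Not at hcon
  have hFne : F.Nonempty := by
    obtain ⟨l, hl, _⟩ := hcon (fun _ => true)
    exact ⟨l, hl⟩
  have hF1 : (1 : ℝ) ≤ F.card := by exact_mod_cast hFne.card_pos
  set B := Real.sqrt (2 * m * Real.log (2 * F.card)) with hB
  have hlog : 0 < Real.log (2 * F.card) := Real.log_pos (by linarith)
  have hm' : (0 : ℝ) < m := by exact_mod_cast hm0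
  have hB0 : 0 < B := Real.sqrt_pos.2 (by positivity)
  have hB2 : B ^ 2 = 2 * m * Real.log (2 * F.card) := Real.sq_sqrt (by positivity)
  set s := B / m with hs
  have hs0 : 0 < s := by positivity
  -- upper bound
  have hup : ∑ σ : ι → Bool, ∑ l ∈ F, 2 * Real.cosh (s * ∑ k, sg (σ k) * g l k) ≤
      (2 : ℝ) ^ (Fintype.card ι) * (2 * F.card * Real.exp (s ^ 2 * m / 2)) := by
    rw [sum_comm]
    have h1 : ∀ l ∈ F, ∑ σ : ι → Bool, 2 * Real.cosh (s * ∑ k, sg (σ k) * g l k) ≤
        (2 : ℝ) ^ (Fintype.card ι) * (2 * Real.exp (s ^ 2 * m / 2)) := by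
      intro l hl
      have e1 : ∀ σ : ι → Bool, 2 * Real.cosh (s * ∑ k, sg (σ k) * g l k) =
          Real.exp (s * ∑ k, sg (σ k) * g l k) + Real.exp ((-s) * ∑ k, sg (σ k) * g l k) := by
        intro σ; rw [Real.cosh_eq]; ring_nf
      simp_rw [e1]
      rw [sum_add_distrib, sum_exp, sum_exp]
      have e2 : ∏ k, (2 * Real.cosh (-s * g l k)) = ∏ k, (2 * Real.cosh (s * g l k)) := by
        apply prod_congr rfl; intro k _
        rw [neg_mul, Real.cosh_neg]
      rw [e2]
      have e3 : ∏ k, (2 * Real.cosh (s * g l k)) ≤ (2 : ℝ) ^ (Fintype.card ι) * Real.exp (s ^ 2 * m / 2) := by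
        calc ∏ k, (2 * Real.cosh (s * g l k)) ≤ ∏ _k : ι, (2 * Real.exp (s ^ 2 / 2)) := by
              apply prod_le_prod
              · intro k _; positivity
              · intro k _
                apply mul_le_mul_of_nonneg_left _ (by norm_num)
                refine (Real.cosh_le_exp_half_sq _).trans (Real.exp_le_exp.2 ?_)
                have : (s * g l k) ^ 2 ≤ s ^ 2 := by
                  rw [mul_pow]
                  have h4 : g l k ^ 2 ≤ 1 := by
                    rw [← sq_abs]; exact pow_le_one₀ (abs_nonneg _) (hg l hl k)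
                  nlinarith [sq_nonneg s]
                linarith
          _ = (2 : ℝ) ^ (Fintype.card ι) * Real.exp (s ^ 2 / 2) ^ (Fintype.card ι) := by
              rw [prod_const, card_univ, mul_pow]
          _ ≤ (2 : ℝ) ^ (Fintype.card ι) * Real.exp (s ^ 2 * m / 2) := by
              apply mul_le_mul_of_nonneg_left _ (by positivity)
              rw [← Real.exp_nat_mul]
              apply Real.exp_le_exp.2
              have : (Fintype.card ι : ℝ) ≤ m := by exact_mod_cast hm
              nlinarith [sq_nonneg s]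
      linarith
    calc ∑ l ∈ F, ∑ σ : ι → Bool, 2 * Real.cosh (s * ∑ k, sg (σ k) * g l k)
        ≤ ∑ _l ∈ F, (2 : ℝ) ^ (Fintype.card ι) * (2 * Real.exp (s ^ 2 * m / 2)) := sum_le_sum h1
      _ = _ := by rw [sum_const, nsmul_eq_mul]; ring
  -- lower bound
  have hlow : (2 : ℝ) ^ (Fintype.card ι) * Real.exp (s * B) <
      ∑ σ : ι → Bool, ∑ l ∈ F, 2 * Real.cosh (s * ∑ k, sg (σ k) * g l k) := by
    have h1 : ∀ σ : ι → Bool, Real.exp (s * B) < ∑ l ∈ F, 2 * Real.cosh (s * ∑ k, sg (σ k) * g l k) := by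
      intro σ
      obtain ⟨l, hl, hlt⟩ := hcon σ
      have h2 : Real.exp (s * B) < 2 * Real.cosh (s * ∑ k, sg (σ k) * g l k) := by
        rw [← Real.cosh_abs, Real.cosh_eq, abs_mul, abs_of_pos hs0]
        have h3 : Real.exp (s * B) < Real.exp (s * |∑ k, sg (σ k) * g l k|) :=
          Real.exp_lt_exp.2 (mul_lt_mul_of_pos_left hlt hs0)
        have h4 := Real.exp_pos (-(s * |∑ k, sg (σ k) * g l k|))
        linarith
      refine h2.trans_le ?_
      exact single_le_sum (f := fun l => 2 * Real.cosh (s * ∑ k, sg (σ k) * g l k))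
        (fun i _ => by positivity) hl
    calc (2 : ℝ) ^ (Fintype.card ι) * Real.exp (s * B) = ∑ _σ : ι → Bool, Real.exp (s * B) := by
          rw [sum_const, card_univ, Fintype.card_fun, Fintype.card_bool, nsmul_eq_mul]; push_cast; ring
      _ < _ := sum_lt_sum_of_nonempty univ_nonempty (fun σ _ => h1 σ)
  have h5 := hlow.trans_le hup
  have h6 : Real.exp (s * B) < 2 * F.card * Real.exp (s ^ 2 * m / 2) :=
    lt_of_mul_lt_mul_left h5 (by positivity)
  have h7 : s * B = 2 * Real.log (2 * F.card) := by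
    rw [hs, div_mul_eq_mul_div, ← sq, hB2]; field_simp
  have h8 : s ^ 2 * m / 2 = Real.log (2 * F.card) := by
    rw [hs, div_pow, hB2]; field_simp
  rw [h7, h8, Real.exp_log (by linarith), two_mul (Real.log _), Real.exp_add, Real.exp_log (by linarith)] at h6
  exact lt_irrefl _ h6

/-- Signs for complex families. -/
theorem exists_signs_complex {ι κ : Type*} [Fintype ι] [DecidableEq ι] (F : Finset κ) (g : κ → ι → ℂ)
    (hg : ∀ l ∈ F, ∀ k, ‖g l k‖ ≤ 1) (m : ℕ) (hm : Fintype.card ι ≤ m) (hm0 : 0 < m) :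
    ∃ σ : ι → Bool, ∀ l ∈ F, ‖∑ k, (sg (σ k) : ℂ) * g l k‖ ≤ 2 * Real.sqrt (m * Real.log (4 * F.card)) := by
  classical
  obtain ⟨σ, hσ⟩ := exists_signs (F ×ˢ (univ : Finset Bool))
    (fun p k => if p.2 then (g p.1 k).re else (g p.1 k).im) (by
      intro p hp k
      have hp1 := (mem_product.1 hp).1

      split_ifs
      · exact (Complex.abs_re_le_norm _).trans (hg _ hp1 k)
      · exact (Complex.abs_im_le_norm _).trans (hg _ hp1 k)) m hm hm0
  refine ⟨σ, fun l hl => ?_⟩
  have h1 := hσ (l, true) (by simp [hl])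
  have h2 := hσ (l, false) (by simp [hl])
  simp only [if_true, Bool.false_eq_true, if_false] at h1 h2
  rw [card_product, card_univ, Fintype.card_bool] at h1 h2
  have e : (2 * ((F.card * 2 : ℕ) : ℝ)) = 4 * F.card := by push_cast; ring
  rw [e] at h1 h2
  set B := Real.sqrt (2 * m * Real.log (4 * F.card)) with hB
  set z := ∑ k, (sg (σ k) : ℂ) * g l k with hz
  have hre : z.re = ∑ k, sg (σ k) * (g l k).re := by
    rw [hz, Complex.re_sum]; apply sum_congr rfl; intro k _; simp
  have him : z.im = ∑ k, sg (σ k) * (g l k).im := by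
    rw [hz, Complex.im_sum]; apply sum_congr rfl; intro k _; simp
  rw [← hre] at h1
  rw [← him] at h2
  have hF1 : (1 : ℝ) ≤ F.card := by exact_mod_cast card_pos.2 ⟨l, hl⟩
  have hlog : 0 < Real.log (4 * F.card) := Real.log_pos (by linarith)
  have hB2 : B ^ 2 = 2 * m * Real.log (4 * F.card) := Real.sq_sqrt (by positivity)
  have hz2 : ‖z‖ ^ 2 ≤ 2 * B ^ 2 := by
    rw [← Complex.normSq_eq_norm_sq, Complex.normSq_apply]
    have h3 : z.re ^ 2 ≤ B ^ 2 := by rw [← sq_abs]; exact pow_le_pow_left₀ (abs_nonneg _) h1 2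
    have h4 : z.im ^ 2 ≤ B ^ 2 := by rw [← sq_abs]; exact pow_le_pow_left₀ (abs_nonneg _) h2 2
    nlinarith
  have h5 : ‖z‖ ^ 2 ≤ (2 * Real.sqrt (m * Real.log (4 * F.card))) ^ 2 := by
    rw [mul_pow, Real.sq_sqrt (by positivity)]
    rw [hB2] at hz2
    linarith
  exact le_of_sq_le_sq h5 (by positivity)

end Pool.Agent.U160.RF
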