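import Pool.Agent.U160.RF.Large

/-!
# Random frequencies: the strong large sieve inequality
-/

set_option autoImplicit false

namespace Pool.Agent.U160.RF

open MeasureTheory Finset Filter

theorem dyadic (β : ℝ) (hβ : 0 ≤ β) (f : ℝ) (J : ℕ) (hf : f ≤ 4 ^ J * β) :
    f ≤ β + ∑ j ∈ range J, (if 4 ^ j * β ≤ f then 4 * (4 ^ j * β) else 0) := by
  induction J with
  | zero => simpa using hf
  | succ J ih =>
    rw [sum_range_succ]
    by_cases h : 4 ^ J * β ≤ f
    · rw [if_pos h]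
      have h1 : 0 ≤ ∑ j ∈ range J, (if 4 ^ j * β ≤ f then 4 * (4 ^ j * β) else 0) := by
        apply sum_nonneg
        intro j _
        split_ifs
        · positivity
        · exact le_rfl
      have h2 : (4 : ℝ) ^ (J + 1) * β = 4 * (4 ^ J * β) := by ring
      rw [h2] at hf
      linarith
    · rw [if_neg h]
      have := ih (not_le.1 h).le
      linarith

theorem el_one (B N : ℕ) (hN : 2 ≤ N) : (Nat.log 2 N : ℝ) + 1 ≤ el B N ∧ 1 ≤ el B N := by
  have hN2 : (2 : ℝ) ≤ N := by exact_mod_cast hN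
  have hlogN : Real.log 2 ≤ Real.log N := Real.log_le_log (by norm_num) hN2
  have hlog2 : 0.69 < Real.log 2 := by have := Real.log_two_gt_d9; linarith
  have h1 : (Nat.log 2 N : ℝ) * Real.log 2 ≤ Real.log N := by
    rw [← Real.log_pow]
    apply Real.log_le_log (by positivity)
    have := Nat.pow_log_le_self 2 (show N ≠ 0 by omega)
    exact_mod_cast this
  have h2 : (Nat.log 2 N : ℝ) * 0.69 ≤ Real.log N := by
    have : (0 : ℝ) ≤ Nat.log 2 N := Nat.cast_nonneg _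
    nlinarith
  have h3 : 16 * Real.log N ≤ el B N := by
    unfold el
    have hB : (0 : ℝ) ≤ B := Nat.cast_nonneg B
    nlinarith
  constructor <;> linarith

theorem DD_le (b : ℕ → ℂ) (θ : ℕ → ℝ) (N : ℕ) (t : ℝ) : ‖DD b θ N t‖ ^ 2 ≤ N * nb b N := by
  have h1 : ‖DD b θ N t‖ ≤ ∑ k ∈ range N, ‖b k‖ := by
    unfold DD
    refine (norm_sum_le _ _).trans (le_of_eq ?_)
    exact sum_congr rfl fun k _ => by rw [norm_mul, ee_norm, mul_one]
  calc ‖DD b θ N t‖ ^ 2 ≤ (∑ k ∈ range N, ‖b k‖) ^ 2 := pow_le_pow_left₀ (norm_nonneg _) h1 2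
    _ ≤ N * nb b N := by
        have := sum_mul_sq_le_sq_mul_sq (range N) (fun _ => (1 : ℝ)) (fun k => ‖b k‖)
        simpa [nb] using this

theorem sep_sub {S S' : Finset ℝ} (h : S' ⊆ S) (hS : Sep S) : Sep S' :=
  fun t ht u hu hne => hS t (h ht) u (h hu) hne

/-- **The strong large sieve inequality at a good scale.** -/
theorem lsum (B N : ℕ) (hN : 2 ≤ N) (θ : ℕ → ℝ) (hθ : Good B N θ) (b : ℕ → ℂ) (S : Finset ℝ) (hS : Sep S)
    (h0 : ∀ t ∈ S, 0 ≤ t ∧ t ≤ (N : ℝ) ^ B) :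
    ∑ t ∈ S, ‖DD b θ N t‖ ^ 2 ≤ 1000000000 * (nb b N * ((N + S.card) * el B N ^ 5)) := by
  classical
  obtain ⟨hJ, hel⟩ := el_one B N hN
  set β := nb b N with hβ
  have hβ0 : 0 ≤ β := nb_nonneg b N
  set J := Nat.log 2 N + 1 with hJd
  have hN4 : (N : ℝ) ≤ 4 ^ J := by
    have h1 : N < 2 ^ J := Nat.lt_pow_succ_log_self (by norm_num) N
    have h2 : (2 : ℕ) ^ J ≤ 4 ^ J := Nat.pow_le_pow_left (by norm_num) J
    exact_mod_cast h1.le.trans h2
  have hpt : ∀ t ∈ S, ‖DD b θ N t‖ ^ 2 ≤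
      β + ∑ j ∈ range J, (if 4 ^ j * β ≤ ‖DD b θ N t‖ ^ 2 then 4 * (4 ^ j * β) else 0) := by
    intro t _
    apply dyadic β hβ0
    exact (DD_le b θ N t).trans (mul_le_mul_of_nonneg_right hN4 hβ0)
  have hlev : ∀ j ∈ range J, ∑ t ∈ S, (if 4 ^ j * β ≤ ‖DD b θ N t‖ ^ 2 then 4 * (4 ^ j * β) else 0) ≤
      400000000 * (β * ((N + S.card) * el B N ^ 4)) := by
    intro j _
    rw [← sum_filter, sum_const, nsmul_eq_mul]
    set S' := S.filter (fun t => 4 ^ j * β ≤ ‖DD b θ N t‖ ^ 2) with hS'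
    have hsub : S' ⊆ S := filter_subset _ _
    have h1 : (1 : ℝ) ≤ 4 ^ j := one_le_pow₀ (by norm_num)
    have h2 := large B N hN θ hθ b S' (sep_sub hsub hS) (fun t ht => h0 t (hsub ht)) (Real.sqrt (4 ^ j * β))
      (by rw [Real.sq_sqrt (by positivity)]; nlinarith) (Real.sqrt_nonneg _)
      (fun t ht => Real.sqrt_le_iff.2 ⟨norm_nonneg _, (mem_filter.1 ht).2⟩) hel
    rw [Real.sq_sqrt (by positivity)] at h2
    have h3 : (S'.card : ℝ) ≤ S.card := by exact_mod_cast card_le_card hsub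
    have h4 : β * ((N + S'.card) * el B N ^ 4) ≤ β * ((N + S.card) * el B N ^ 4) := by
      apply mul_le_mul_of_nonneg_left _ hβ0
      apply mul_le_mul_of_nonneg_right _ (by positivity)
      linarith
    calc (S'.card : ℝ) * (4 * (4 ^ j * β)) = 4 * (S'.card * (4 ^ j * β)) := by ring
      _ ≤ 4 * (100000000 * (β * ((N + S'.card) * el B N ^ 4))) := mul_le_mul_of_nonneg_left h2 (by norm_num)
      _ ≤ 4 * (100000000 * (β * ((N + S.card) * el B N ^ 4))) := by
          apply mul_le_mul_of_nonneg_left _ (by norm_num)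
          exact mul_le_mul_of_nonneg_left h4 (by norm_num)
      _ = _ := by ring
  have hN0 : (0 : ℝ) ≤ N := Nat.cast_nonneg N
  have hS0 : (0 : ℝ) ≤ S.card := Nat.cast_nonneg _
  calc ∑ t ∈ S, ‖DD b θ N t‖ ^ 2 ≤ ∑ t ∈ S, (β + ∑ j ∈ range J, (if 4 ^ j * β ≤ ‖DD b θ N t‖ ^ 2 then 4 * (4 ^ j * β) else 0)) :=
        sum_le_sum hpt
    _ = S.card * β + ∑ j ∈ range J, ∑ t ∈ S, (if 4 ^ j * β ≤ ‖DD b θ N t‖ ^ 2 then 4 * (4 ^ j * β) else 0) := by
        rw [sum_add_distrib, sum_const, nsmul_eq_mul, sum_comm]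
    _ ≤ S.card * β + ∑ j ∈ range J, 400000000 * (β * ((N + S.card) * el B N ^ 4)) :=
        add_le_add le_rfl (sum_le_sum hlev)
    _ = S.card * β + J * (400000000 * (β * ((N + S.card) * el B N ^ 4))) := by
        rw [sum_const, card_range, nsmul_eq_mul]
    _ ≤ (β * ((N + S.card) * el B N ^ 5)) + el B N * (400000000 * (β * ((N + S.card) * el B N ^ 4))) := by
        apply add_le_add
        · have h5 : (1 : ℝ) ≤ el B N ^ 5 := one_le_pow₀ hel
          have h6 : (S.card : ℝ) ≤ (N + S.card) * el B N ^ 5 := by nlinarith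
          rw [mul_comm (S.card : ℝ) β]
          exact mul_le_mul_of_nonneg_left h6 hβ0
        · apply mul_le_mul_of_nonneg_right _ (by positivity)
          rw [hJd]; push_cast; exact hJ
    _ = 400000001 * (β * ((N + S.card) * el B N ^ 5)) := by ring
    _ ≤ 1000000000 * (β * ((N + S.card) * el B N ^ 5)) := by
        apply mul_le_mul_of_nonneg_right (by norm_num) (by positivity)

/-- translation of the points -/
theorem translate (b : ℕ → ℂ) (θ : ℕ → ℝ) (N : ℕ) (t₀ t : ℝ) :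
    DD b θ N t = DD (fun k => b k * ee t₀ (lam k θ)) θ N (t - t₀) ∧ nb (fun k => b k * ee t₀ (lam k θ)) N = nb b N := by
  constructor
  · unfold DD
    apply sum_congr rfl
    intro k _
    have : ee t (lam k θ) = ee t₀ (lam k θ) * ee (t - t₀) (lam k θ) := by
      unfold ee
      rw [← Complex.exp_add]
      congr 1; push_cast; ring
    rw [this]; ring
  · unfold nb
    apply sum_congr rfl
    intro k _
    rw [norm_mul, ee_norm, mul_one]

theorem lsum_tr (B N : ℕ) (hN : 2 ≤ N) (θ : ℕ → ℝ) (hθ : Good B N θ) (b : ℕ → ℂ) (S : Finset ℝ) (hS : Sep S) (t₀ : ℝ)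
    (h0 : ∀ t ∈ S, t₀ ≤ t ∧ t ≤ t₀ + (N : ℝ) ^ B) :
    ∑ t ∈ S, ‖DD b θ N t‖ ^ 2 ≤ 1000000000 * (nb b N * ((N + S.card) * el B N ^ 5)) := by
  classical
  have hinj : Set.InjOn (fun t : ℝ => t - t₀) (S : Set ℝ) := fun x _ y _ h => by simpa using h
  have h1 := lsum B N hN θ hθ (fun k => b k * ee t₀ (lam k θ)) (S.image (fun t => t - t₀)) (by
    intro t ht u hu hne
    obtain ⟨t', ht', rfl⟩ := mem_image.1 ht
    obtain ⟨u', hu', rfl⟩ := mem_image.1 hu
    have h2 : t' ≠ u' := fun h => hne (by rw [h])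
    have h3 := hS t' ht' u' hu' h2
    simpa using h3) (by
    intro t ht
    obtain ⟨t', ht', rfl⟩ := mem_image.1 ht
    have h2 := h0 t' ht'
    constructor <;> linarith [h2.1, h2.2])
  rw [sum_image (fun x hx y hy h => hinj hx hy h), card_image_of_injOn hinj] at h1
  rw [(translate b θ N t₀ t₀).2] at h1
  calc ∑ t ∈ S, ‖DD b θ N t‖ ^ 2 = ∑ t ∈ S, ‖DD (fun k => b k * ee t₀ (lam k θ)) θ N (t - t₀)‖ ^ 2 := by
        apply sum_congr rfl
        intro t _
        rw [(translate b θ N t₀ t).1]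
    _ ≤ _ := h1

/-- **The strong large sieve inequality for almost every sequence.** -/
theorem ae_lsum (B : ℕ) : ∀ᵐ θ ∂mu, ∃ C : ℝ, ∀ N : ℕ, 2 ≤ N → ∀ t₀ : ℝ, ∀ S : Finset ℝ, Sep S →
    (∀ t ∈ S, t₀ ≤ t ∧ t ≤ t₀ + (N : ℝ) ^ B) → ∀ b : ℕ → ℂ,
    ∑ t ∈ S, ‖DD b θ N t‖ ^ 2 ≤ C * ((N + S.card) * Real.log N ^ 5) * nb b N := by
  filter_upwards [ae_good B] with θ hθ
  obtain ⟨N₀, hN₀⟩ := eventually_atTop.1 hθ
  have hlog2 : 0.69 < Real.log 2 := by have := Real.log_two_gt_d9; linarith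
  refine ⟨1000000000 * (4 * B + 16) ^ 5 + N₀ / Real.log 2 ^ 5, ?_⟩
  intro N hN t₀ S hS h0 b
  have hN2 : (2 : ℝ) ≤ N := by exact_mod_cast hN
  have hlogN : Real.log 2 ≤ Real.log N := Real.log_le_log (by norm_num) hN2
  have hnb := nb_nonneg b N
  have hN0 : (0 : ℝ) ≤ N₀ := Nat.cast_nonneg _
  have hS0 : (0 : ℝ) ≤ S.card := Nat.cast_nonneg _
  have hl0 : 0 ≤ Real.log N := by linarith
  rcases le_total N₀ N with h | h
  · have h1 := lsum_tr B N hN θ (hN₀ N h) b S hS t₀ h0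
    refine h1.trans ?_
    unfold el
    have h2 : 0 ≤ N₀ / Real.log 2 ^ 5 * ((N + S.card) * Real.log N ^ 5) * nb b N := by positivity
    calc 1000000000 * (nb b N * ((N + S.card) * ((4 * B + 16) * Real.log N) ^ 5)) =
          1000000000 * (4 * B + 16) ^ 5 * ((N + S.card) * Real.log N ^ 5) * nb b N := by ring
      _ ≤ _ := by
          rw [add_mul, add_mul]
          linarith
  · have h1 : ∑ t ∈ S, ‖DD b θ N t‖ ^ 2 ≤ S.card * (N * nb b N) := by
      calc _ ≤ ∑ _t ∈ S, (N * nb b N : ℝ) := sum_le_sum fun t _ => DD_le b θ N t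
        _ = _ := by rw [sum_const, nsmul_eq_mul]
    have h3 : (N : ℝ) ≤ N₀ := by exact_mod_cast h
    have h4 : Real.log 2 ^ 5 ≤ Real.log N ^ 5 := pow_le_pow_left₀ (by linarith) hlogN 5
    have h5 : 0 < Real.log 2 ^ 5 := by positivity
    have h6 : 0 ≤ 1000000000 * (4 * (B : ℝ) + 16) ^ 5 * ((N + S.card) * Real.log N ^ 5) * nb b N := by positivity
    have h7 : (S.card : ℝ) * (N * nb b N) ≤ N₀ / Real.log 2 ^ 5 * ((N + S.card) * Real.log N ^ 5) * nb b N := by
      have h8 : (S.card : ℝ) * N ≤ N₀ / Real.log 2 ^ 5 * ((N + S.card) * Real.log N ^ 5) := by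
        rw [div_mul_eq_mul_div, le_div_iff₀ h5]
        calc (S.card : ℝ) * N * Real.log 2 ^ 5 ≤ S.card * N₀ * Real.log N ^ 5 := by
              apply mul_le_mul _ h4 h5.le (by positivity)
              exact mul_le_mul_of_nonneg_left h3 hS0
          _ ≤ (N + S.card) * N₀ * Real.log N ^ 5 := by
              apply mul_le_mul_of_nonneg_right _ (by positivity)
              apply mul_le_mul_of_nonneg_right _ hN0
              linarith
          _ = _ := by ring
      calc (S.card : ℝ) * (N * nb b N) = (S.card * N) * nb b N := by ring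
        _ ≤ _ := mul_le_mul_of_nonneg_right h8 hnb
    rw [add_mul, add_mul]
    linarith

end Pool.Agent.U160.RF
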